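import Pool.Agent.Helper36.SecNames

/-!
SCY module NAMES (MP_896029_ag): sections which agree with rational Weierstrass points modulo squares.
-/

set_option linter.dupNamespace false

namespace Pool.Agent.SCY

open Polynomial Pool.Agent.Helper36

/-- The section `s` agrees modulo squares with the points `x = a` for all `a ∈ L`, as far as the factors of `f` of even
degree without root in `L` are concerned: for every such factor `g` and every `a ∈ L` the function `g(x) / g(a)` is
the square of an element of `univCover` fixed by `s`. -/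
def AgreesOn (f : ℤ[X]) {K Ω : Type} [Field K] [Field Ω] [Algebra ℚ K] [Algebra K Ω] [Algebra ℚ Ω]
    [IsScalarTower ℚ K Ω] (s : PiOneSection ℚ K Ω) (x : K) (L : Finset ℚ) : Prop :=
  ∀ a ∈ L, ∀ g : ℚ[X], g ∣ f.map (Int.castRingHom ℚ) → Even g.natDegree → (∀ b ∈ L, g.eval b ≠ 0) →
    ∃ ρ : UnivField ℚ K Ω, (∀ σ, s.hom σ ρ = ρ) ∧
      algebraMap K (UnivField ℚ K Ω) (aeval x g) =
        algebraMap K (UnivField ℚ K Ω) (algebraMap ℚ K (g.eval a)) * ρ ^ 2

/-- For every factor `g` of `f` of even degree without root in `L` the values of `g` at the elements of `L` agree modulo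
squares of rational numbers. -/
def EqualModSquares (f : ℤ[X]) (L : Finset ℚ) : Prop :=
  ∀ a ∈ L, ∀ b ∈ L, ∀ g : ℚ[X], g ∣ f.map (Int.castRingHom ℚ) → Even g.natDegree →
    (∀ c ∈ L, g.eval c ≠ 0) → IsSquare (g.eval a * g.eval b)

/-- `d y ^ 2 = f(x)` has a section for which there is no nonempty set `L` of rational roots of `f` with
`AgreesOn f s x L`, with at most two elements (or four, if `m = 4`). -/
def BadTwist (f : ℤ[X]) (m : ℕ) (d : ℤ) : Prop :=
  ∃ (K Ω : Type) (_ : Field K) (_ : Field Ω) (_ : Algebra ℚ K) (_ : Algebra K Ω) (_ : Algebra ℚ Ω)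
    (_ : IsScalarTower ℚ K Ω) (_ : IsAlgClosure K Ω) (x y : K), Transcendental ℚ x ∧
    (d : K) * y ^ 2 = aeval x f ∧ ∃ s : PiOneSection ℚ K Ω,
      ¬ ∃ L : Finset ℚ, L.Nonempty ∧ (L.card ≤ 2 ∨ (L.card = 4 ∧ m = 4)) ∧
        (∀ a ∈ L, aeval a f = 0) ∧ AgreesOn f s x L

end Pool.Agent.SCY
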