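import Pool.Agent.SCY.Names
import Pool.Agent.Helper36.SecConv
import Pool.Agent.Helper36.SecMain

/-!
SCY module SQA (MP_896029_ag): if a section agrees with two points then the values at the two points agree modulo
squares.
-/

set_option linter.dupNamespace false

namespace Pool.Agent.SCY

open Polynomial Pool.Agent.Helper36

theorem sq_of_fixed {k K Ω : Type} [Field k] [Field K] [Field Ω] [Algebra k K] [Algebra K Ω]
    [Algebra k Ω] [IsScalarTower k K Ω] [CharZero k] [IsAlgClosure K Ω] (s : PiOneSection k K Ω)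
    (τ : UnivField k K Ω) (hτ : ∀ σ, s.hom σ τ = τ) (c : k)
    (hc : τ ^ 2 = algebraMap K (UnivField k K Ω) (algebraMap k K c)) : IsSquare c := by
  have hclosed : IsAlgClosed Ω := IsAlgClosure.isAlgClosed K
  have hv : (τ.val) ^ 2 = algebraMap k Ω c := by
    have h1 : (τ ^ 2).val = τ.val ^ 2 := rfl
    have h2 : (algebraMap K (UnivField k K Ω) (algebraMap k K c)).val =
        algebraMap K Ω (algebraMap k K c) := rfl
    rw [← h1, hc, h2, ← IsScalarTower.algebraMap_apply]
  have halg : τ.val ∈ algebraicClosure k Ω := by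
    rw [mem_algebraicClosure_iff]
    refine IsAlgebraic.of_pow two_pos ?_
    rw [hv]
    exact isAlgebraic_algebraMap c
  let a : ConstClosure k Ω := (⟨τ.val, halg⟩ : algebraicClosure k Ω)
  have ha : ∀ σ : AbsGal k Ω, σ a = a := by
    intro σ
    have h1 := s.isLift σ τ a rfl
    rw [hτ σ] at h1
    exact (Subtype.ext h1 : (a : algebraicClosure k Ω) = σ a).symm
  have hbot : (⟨τ.val, halg⟩ : algebraicClosure k Ω) ∈
      (⊥ : IntermediateField k (algebraicClosure k Ω)) :=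
    (InfiniteGalois.mem_bot_iff_fixed _).2 ha
  obtain ⟨r, hr⟩ := IntermediateField.mem_bot.1 hbot
  have h3 : algebraMap k Ω r = τ.val := congrArg (algebraMap (algebraicClosure k Ω) Ω) hr
  refine ⟨r, ?_⟩
  apply (algebraMap k Ω).injective
  rw [map_mul, h3, ← hv, sq]

theorem sq_of_agrees (f : ℤ[X]) {K Ω : Type} [Field K] [Field Ω] [Algebra ℚ K] [Algebra K Ω]
    [Algebra ℚ Ω] [IsScalarTower ℚ K Ω] [IsAlgClosure K Ω] (s : PiOneSection ℚ K Ω) (x : K)
    (hx : Transcendental ℚ x) (L : Finset ℚ) (h : AgreesOn f s x L) (a : ℚ) (ha : a ∈ L) (b : ℚ)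
    (hb : b ∈ L) (g : ℚ[X]) (hg : g ∣ f.map (Int.castRingHom ℚ)) (hev : Even g.natDegree)
    (hL : ∀ c ∈ L, g.eval c ≠ 0) : IsSquare (g.eval a * g.eval b) := by
  obtain ⟨ρ, hρ, h1⟩ := h a ha g hg hev hL
  obtain ⟨ρ', hρ', h2⟩ := h b hb g hg hev hL
  have hg0 : g ≠ 0 := by
    rintro rfl
    exact hL a ha (eval_zero)
  have hgx : aeval x g ≠ 0 := fun h0 => hx ⟨g, hg0, h0⟩
  have hgx' : algebraMap K (UnivField ℚ K Ω) (aeval x g) ≠ 0 :=
    (map_ne_zero (algebraMap K (UnivField ℚ K Ω))).2 hgx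
  have hA : algebraMap K (UnivField ℚ K Ω) (algebraMap ℚ K (g.eval a)) ≠ 0 :=
    (map_ne_zero (algebraMap K (UnivField ℚ K Ω))).2
      ((map_ne_zero (algebraMap ℚ K)).2 (hL a ha))
  have hr : ρ ≠ 0 := by
    rintro rfl
    rw [zero_pow two_ne_zero, mul_zero] at h1
    exact hgx' h1
  have hr' : ρ' ≠ 0 := by
    rintro rfl
    rw [zero_pow two_ne_zero, mul_zero] at h2
    exact hgx' h2
  have h3 : IsSquare (g.eval a / g.eval b) := by
    refine sq_of_fixed s (ρ' / ρ) ?_ _ ?_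
    · intro σ
      rw [map_div₀, hρ σ, hρ' σ]
    · have hB : algebraMap K (UnivField ℚ K Ω) (algebraMap ℚ K (g.eval b)) ≠ 0 :=
        (map_ne_zero (algebraMap K (UnivField ℚ K Ω))).2
          ((map_ne_zero (algebraMap ℚ K)).2 (hL b hb))
      rw [map_div₀, map_div₀, div_pow, div_eq_div_iff (pow_ne_zero 2 hr) hB]
      rw [h1] at h2
      rw [h2]
      ring
  have h4 : g.eval a * g.eval b = (g.eval a / g.eval b) * (g.eval b * g.eval b) := by
    field_simp [hL b hb]
  rw [h4]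
  exact h3.mul ⟨g.eval b, rfl⟩

end Pool.Agent.SCY
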