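import Pool.Agent.SCY.Fin
import Pool.Agent.SCY.SqA

/-!
SCY module FIN2 (MP_896029_ag): the final statement.
-/

set_option linter.dupNamespace false

namespace Pool.Agent.SCY

open Polynomial Finset Pool.Agent.Helper36

theorem bad_equal (f : ℤ[X]) (m : ℕ) (d : ℤ)
    (h : ∃ (K Ω : Type) (_ : Field K) (_ : Field Ω) (_ : Algebra ℚ K) (_ : Algebra K Ω)
      (_ : Algebra ℚ Ω) (_ : IsScalarTower ℚ K Ω) (_ : IsAlgClosure K Ω) (x y : K),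
      Transcendental ℚ x ∧ (d : K) * y ^ 2 = aeval x f ∧ ∃ s : PiOneSection ℚ K Ω,
      ¬ ∃ L : Finset ℚ, L.Nonempty ∧ (L.card ≤ 2 ∨ (L.card = 4 ∧ m = 4)) ∧
        (∀ a ∈ L, aeval a f = 0) ∧ EqualModSquares f L ∧ AgreesOn f s x L) : BadTwist f m d := by
  obtain ⟨K, Ω, i1, i2, i3, i4, i5, i6, i7, x, y, hx, hxy, s, hs⟩ := h
  refine ⟨K, Ω, i1, i2, i3, i4, i5, i6, i7, x, y, hx, hxy, s, ?_⟩
  rintro ⟨L, h1, h2, h3, h4⟩
  exact hs ⟨L, h1, h2, h3, fun a ha b hb g hg hev hL =>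
    sq_of_agrees f s x hx L h4 a ha b hb g hg hev hL, h4⟩

open Classical in
theorem final2 (f : ℤ[X]) (hsq : Squarefree (f.map (Int.castRingHom ℚ)))
    (heven : Even f.natDegree) (h6 : 6 ≤ f.natDegree) (m : ℕ)
    (hm : m = Multiset.card ((UniqueFactorizationMonoid.normalizedFactors
      (f.map (Int.castRingHom ℚ))).filter (fun g => Odd g.natDegree)))
    (h : m ≠ 2 ∨ (∃ σ : AlgebraicClosure ℚ ≃ₐ[ℚ] AlgebraicClosure ℚ,
        ∀ x : AlgebraicClosure ℚ, aeval x f = 0 → σ x ≠ x) ∨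
      (f.natDegree = 6 ∧ ∀ x : ℚ, aeval x f ≠ 0)) :
    ∃ C δ : ℝ, 0 < δ ∧ ∀ N : ℕ, 2 ≤ N →
      (Nat.card {d : ℤ // |d| ≤ N ∧
        ∃ (K Ω : Type) (_ : Field K) (_ : Field Ω) (_ : Algebra ℚ K) (_ : Algebra K Ω)
          (_ : Algebra ℚ Ω) (_ : IsScalarTower ℚ K Ω) (_ : IsAlgClosure K Ω) (x y : K),
          Transcendental ℚ x ∧ (d : K) * y ^ 2 = aeval x f ∧ ∃ s : PiOneSection ℚ K Ω,
          ¬ ∃ L : Finset ℚ, L.Nonempty ∧ (L.card ≤ 2 ∨ (L.card = 4 ∧ m = 4)) ∧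
            (∀ a ∈ L, aeval a f = 0) ∧ EqualModSquares f L ∧ AgreesOn f s x L} : ℝ)
        ≤ C * N / (Real.log N) ^ δ := by
  subst hm
  obtain ⟨C, δ, hδ, hf⟩ := final f hsq heven h6 h
  refine ⟨C, δ, hδ, fun N hN => le_trans ?_ (hf N hN)⟩
  set m := Multiset.card ((UniqueFactorizationMonoid.normalizedFactors
      (f.map (Int.castRingHom ℚ))).filter (fun g => Odd g.natDegree)) with hm
  have hfin : {d : ℤ | |d| ≤ N ∧ BadTwist f m d}.Finite := by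
    refine (Set.finite_Icc (-(N : ℤ)) N).subset ?_
    rintro d ⟨hd, -⟩
    exact abs_le.mp hd
  have h1 : {d : ℤ | |d| ≤ N ∧
        ∃ (K Ω : Type) (_ : Field K) (_ : Field Ω) (_ : Algebra ℚ K) (_ : Algebra K Ω)
          (_ : Algebra ℚ Ω) (_ : IsScalarTower ℚ K Ω) (_ : IsAlgClosure K Ω) (x y : K),
          Transcendental ℚ x ∧ (d : K) * y ^ 2 = aeval x f ∧ ∃ s : PiOneSection ℚ K Ω,
          ¬ ∃ L : Finset ℚ, L.Nonempty ∧ (L.card ≤ 2 ∨ (L.card = 4 ∧ m = 4)) ∧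
            (∀ a ∈ L, aeval a f = 0) ∧ EqualModSquares f L ∧ AgreesOn f s x L} ⊆
      {d : ℤ | |d| ≤ N ∧ BadTwist f m d} := by
    rintro d ⟨hd, h⟩
    exact ⟨hd, bad_equal f m d h⟩
  have h2 := Set.ncard_le_ncard h1 hfin
  exact Nat.cast_le.mpr h2

end Pool.Agent.SCY
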