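import Mathlib

/-!
SCY module FACL (MP_896029_ag; plan /team-store/scy_plan.md): factorisation, linear factors allowed, and the divisors
over `ℚ`.

* `exists_factorsL`: the same as `exists_factors_odd` (SCX/FacO.lean; copy it with its private lemmas) without the
  part about rational roots.
* `dvs`: `g` divides a product of pairwise non-associated irreducible polynomials (separable product), so up to a
  constant it is the product of some of them.  For instance: `T = {j | F j ∣ g}` (over `ℚ`); the product of the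
  `F j`, `j ∈ T`, divides `g` (they are pairwise coprime, `Finset.prod_dvd_of_coprime`), and `g` divides the product over `T`:
  write `P = g * h`, every `F j` with `j ∉ T` divides `h` (prime, does not divide `g`), so `∏ j ∉ T, F j` divides `h` and
  `g * (h / ∏) = ∏ j ∈ T, F j`.
-/

set_option linter.dupNamespace false

namespace Pool.Agent.SCY

open Polynomial Finset

private theorem card_filter_of_rel {p : ℚ[X] → Prop} [DecidablePred p]
    (hp : ∀ a b : ℚ[X], Associated a b → (p a ↔ p b)) {S T : Multiset ℚ[X]}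
    (h : Multiset.Rel Associated S T) :
    (S.filter p).card = (T.filter p).card := by
  induction h with
  | zero => rfl
  | @cons a b S T hab _ ih =>
    by_cases ha : p a
    · rw [Multiset.filter_cons_of_pos _ ha, Multiset.filter_cons_of_pos _ ((hp a b hab).1 ha),
        Multiset.card_cons, Multiset.card_cons, ih]
    · rw [Multiset.filter_cons_of_neg _ ha,
        Multiset.filter_cons_of_neg _ (fun hb => ha ((hp a b hab).2 hb)), ih]

private theorem exists_factorsL_aux (f : ℤ[X]) (hsq : Squarefree (f.map (Int.castRingHom ℚ)))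
    (h6 : 6 ≤ f.natDegree) :
    ∃ (n : ℕ) (F : Fin n → ℤ[X]) (c : ℤ), c ≠ 0 ∧ f = C c * ∏ j, F j ∧
      (∀ j, Irreducible ((F j).map (Int.castRingHom ℚ))) ∧
      (∏ j, F j).natDegree = f.natDegree ∧
      ((∏ j, F j).map (Int.castRingHom ℚ)).Separable ∧
      (Finset.univ.filter (fun j => Odd (F j).natDegree)).card =
        ((UniqueFactorizationMonoid.normalizedFactors
          (f.map (Int.castRingHom ℚ))).filter (fun g => Odd g.natDegree)).card := by
  have hf0 : f ≠ 0 := by
    rintro rfl
    simp at h6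
  have hinj : Function.Injective (Int.castRingHom ℚ) := (Int.castRingHom ℚ).injective_int
  have hfq0 : f.map (Int.castRingHom ℚ) ≠ 0 := (Polynomial.map_ne_zero_iff hinj).2 hf0
  have hpp0 : f.primPart ≠ 0 := f.isPrimitive_primPart.ne_zero
  obtain ⟨S, hS, hass⟩ := WfDvdMonoid.exists_factors f.primPart hpp0
  obtain ⟨u, hu⟩ := hass.symm
  obtain ⟨e, he, heu⟩ := Polynomial.isUnit_iff.1 u⁻¹.isUnit
  have hprod : f.primPart = C e * S.prod := by
    rw [← hu, heu]
    have : (↑(u⁻¹) : ℤ[X]) * (f.primPart * ↑u) = f.primPart := by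
      rw [mul_comm f.primPart, ← mul_assoc, Units.inv_mul, one_mul]
    exact this.symm
  have hSprod : ∏ j : Fin S.toList.length, S.toList[j.1] = S.prod := by
    rw [Fin.prod_univ_getElem, Multiset.prod_toList]
  have hmem : ∀ j : Fin S.toList.length, S.toList[j.1] ∈ S := fun j =>
    Multiset.mem_toList.1 (List.getElem_mem _)
  have hfc : f = C (f.content * e) * ∏ j : Fin S.toList.length, S.toList[j.1] := by
    rw [hSprod]
    conv_lhs => rw [f.eq_C_content_mul_primPart, hprod]
    rw [C_mul, mul_assoc]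
  have hc0 : f.content * e ≠ 0 := mul_ne_zero (by rwa [Ne, content_eq_zero_iff]) he.ne_zero
  have hdvd : ∀ b ∈ S, b ∣ f.primPart := fun b hb =>
    (Multiset.dvd_prod hb).trans hass.dvd
  have hirr : ∀ b ∈ S, Irreducible (b.map (Int.castRingHom ℚ)) := fun b hb =>
    (IsPrimitive.Int.irreducible_iff_irreducible_map_cast
      (isPrimitive_of_dvd f.isPrimitive_primPart (hdvd b hb))).1 (hS b hb)
  refine ⟨S.toList.length, fun j => S.toList[j.1], f.content * e, hc0, hfc,
    fun j => hirr _ (hmem j), ?_, ?_, ?_⟩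
  · conv_rhs => rw [hfc]
    rw [natDegree_C_mul hc0]
  · rw [PerfectField.separable_iff_squarefree]
    refine hsq.squarefree_of_dvd (Polynomial.map_dvd _ ?_)
    exact ⟨C (f.content * e), by conv_lhs => rw [hfc, mul_comm]⟩
  · set S' : Multiset ℚ[X] := S.map (fun b => b.map (Int.castRingHom ℚ)) with hS'
    have hrel : Multiset.Rel Associated S'
        (UniqueFactorizationMonoid.normalizedFactors (f.map (Int.castRingHom ℚ))) := by
      refine UniqueFactorizationMonoid.factors_unique ?_ ?_ ?_
      · intro x hx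
        obtain ⟨b, hb, rfl⟩ := Multiset.mem_map.1 hx
        exact hirr b hb
      · intro x hx
        exact UniqueFactorizationMonoid.irreducible_of_normalized_factor x hx
      · have h1 : Associated (f.map (Int.castRingHom ℚ)) S'.prod := by
          have h2 : f.map (Int.castRingHom ℚ) =
              C (((f.content * e : ℤ)) : ℚ) * S'.prod := by
            have h3 : S'.prod = (S.prod).map (Int.castRingHom ℚ) := by
              rw [hS', ← Polynomial.coe_mapRingHom, map_multiset_prod]
            rw [h3]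
            conv_lhs => rw [hfc, hSprod]
            rw [Polynomial.map_mul, map_C]
            rfl
          rw [h2]
          have hu' : IsUnit (C (((f.content * e : ℤ)) : ℚ) : ℚ[X]) := by
            rw [isUnit_C]
            exact (Int.cast_ne_zero.2 hc0).isUnit
          exact associated_unit_mul_left _ _ hu'
        exact h1.symm.trans
          (UniqueFactorizationMonoid.prod_normalizedFactors hfq0).symm
    have hcard := card_filter_of_rel (p := fun g : ℚ[X] => Odd g.natDegree)
      (fun a b hab => by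
        have : a.natDegree = b.natDegree := natDegree_eq_of_degree_eq (degree_eq_degree_of_associated hab)
        show Odd a.natDegree ↔ Odd b.natDegree
        rw [this]) hrel
    rw [← hcard, hS', Multiset.filter_map, Multiset.card_map]
    have h4 : (S.filter ((fun g : ℚ[X] => Odd g.natDegree) ∘
        fun b : ℤ[X] => b.map (Int.castRingHom ℚ))) = S.filter (fun b => Odd b.natDegree) := by
      refine Multiset.filter_congr ?_
      intro b _
      show Odd (b.map (Int.castRingHom ℚ)).natDegree ↔ Odd b.natDegree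
      rw [natDegree_map_eq_of_injective hinj]
    rw [h4]
    have h5 : S = (Finset.univ : Finset (Fin S.toList.length)).val.map
        (fun j => S.toList[j.1]) := by
      have h6 : (List.ofFn (fun j : Fin S.toList.length => S.toList[j.1])) = S.toList :=
        List.ofFn_getElem
      rw [Fin.univ_val_map, h6, Multiset.coe_toList]
    conv_rhs => rw [h5]
    rw [Multiset.filter_map, Multiset.card_map]
    rfl

open Classical in
theorem exists_factorsL (f : ℤ[X]) (hsq : Squarefree (f.map (Int.castRingHom ℚ)))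
    (h6 : 6 ≤ f.natDegree) :
    ∃ (n : ℕ) (F : Fin n → ℤ[X]) (c : ℤ), c ≠ 0 ∧ f = C c * ∏ j, F j ∧
      (∀ j, Irreducible ((F j).map (Int.castRingHom ℚ))) ∧
      (∏ j, F j).natDegree = f.natDegree ∧ ((∏ j, F j).map (Int.castRingHom ℚ)).Separable ∧
      (univ.filter (fun j => Odd (F j).natDegree)).card =
        Multiset.card ((UniqueFactorizationMonoid.normalizedFactors
          (f.map (Int.castRingHom ℚ))).filter (fun g => Odd g.natDegree)) :=
  exists_factorsL_aux f hsq h6

theorem dvs {ι : Type} [Fintype ι] [DecidableEq ι] (F : ι → ℤ[X])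
    (hirr : ∀ j, Irreducible ((F j).map (Int.castRingHom ℚ)))
    (hsep : ((∏ j, F j).map (Int.castRingHom ℚ)).Separable) (g : ℚ[X])
    (hg : g ∣ (∏ j, F j).map (Int.castRingHom ℚ)) :
    ∃ (T : Finset ι) (c : ℚ), c ≠ 0 ∧ g = C c * (∏ j ∈ T, F j).map (Int.castRingHom ℚ) := by
  classical
  obtain ⟨Q, hQ⟩ : ∃ Q : ι → ℚ[X], Q = fun j => (F j).map (Int.castRingHom ℚ) := ⟨_, rfl⟩
  have hmap : ∀ T : Finset ι, (∏ j ∈ T, F j).map (Int.castRingHom ℚ) = ∏ j ∈ T, Q j := by
    intro T
    rw [hQ, Polynomial.map_prod]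
  have hQirr : ∀ j, Irreducible (Q j) := by
    intro j
    rw [hQ]
    exact hirr j
  rw [hmap] at hsep hg
  have hcop : ∀ i j, i ≠ j → IsCoprime (Q i) (Q j) := by
    intro i j hij
    have h1 : (Q i * ∏ k ∈ univ.erase i, Q k).Separable := by
      rwa [Finset.mul_prod_erase univ Q (mem_univ i)]
    exact IsCoprime.of_isCoprime_of_dvd_right h1.isCoprime
      (Finset.dvd_prod_of_mem Q (mem_erase.2 ⟨hij.symm, mem_univ j⟩))
  have hpw : ∀ T : Finset ι, (T : Set ι).Pairwise (Function.onFun IsCoprime Q) :=
    fun T i _ j _ hij => hcop i j hij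
  obtain ⟨T, hT⟩ : ∃ T : Finset ι, T = univ.filter (fun j => Q j ∣ g) := ⟨_, rfl⟩
  obtain ⟨h, hh⟩ := hg
  have h1 : ∏ j ∈ T, Q j ∣ g := by
    refine Finset.prod_dvd_of_coprime (hpw T) fun j hj => ?_
    rw [hT] at hj
    exact (mem_filter.1 hj).2
  have h2 : ∏ j ∈ Tᶜ, Q j ∣ h := by
    refine Finset.prod_dvd_of_coprime (hpw Tᶜ) fun j hj => ?_
    have h3 : Q j ∣ g * h := by
      rw [← hh]
      exact Finset.dvd_prod_of_mem Q (mem_univ j)
    rcases (hQirr j).prime.dvd_or_dvd h3 with h4 | h4
    · exfalso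
      rw [Finset.mem_compl, hT] at hj
      exact hj (mem_filter.2 ⟨mem_univ j, h4⟩)
    · exact h4
  obtain ⟨g', hg'⟩ := h1
  obtain ⟨h', hh'⟩ := h2
  have hT0 : ∏ j ∈ T, Q j ≠ 0 := Finset.prod_ne_zero_iff.2 fun j _ => (hQirr j).ne_zero
  have hTc0 : ∏ j ∈ Tᶜ, Q j ≠ 0 := Finset.prod_ne_zero_iff.2 fun j _ => (hQirr j).ne_zero
  have h5 : (∏ j ∈ T, Q j) * ∏ j ∈ Tᶜ, Q j = (∏ j ∈ T, Q j) * (∏ j ∈ Tᶜ, Q j) * (g' * h') := by
    conv_lhs => rw [Finset.prod_mul_prod_compl, hh, hg', hh']
    ring
  have h6 : g' * h' = 1 := by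
    have h7 := mul_ne_zero hT0 hTc0
    refine mul_left_cancel₀ h7 ?_
    rw [mul_one]
    exact h5.symm
  obtain ⟨c, hc, hc'⟩ := Polynomial.isUnit_iff.1 (IsUnit.of_mul_eq_one _ h6)
  refine ⟨T, c, hc.ne_zero, ?_⟩
  rw [hmap, hg', ← hc', mul_comm]

end Pool.Agent.SCY
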