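import Mathlib

/-!
SCY module TRIV (MP_896029_ag; plan /team-store/scy_plan.md): trivial solutions.  `u i j` stands for the value of
`lead(F j) * F j` at the root of the linear factor `F i` (up to squares), `e j` for the class of a section at `F j`.
-/

set_option linter.dupNamespace false

namespace Pool.Agent.SCY

open Finset

variable {ι : Type} [DecidableEq ι]

/-- the classes `e` agree with the ones of the Weierstrass points `i ∈ L` on the products of even degree which
have no factor in `L` -/
def Triv (O : Finset ι) (u : ι → ι → ℤ) (L : Finset ι) (e : ι → ℤ) : Prop :=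
  ∀ i ∈ L, ∀ T : Finset ι, Even (T ∩ O).card → Disjoint T L → IsSquare (∏ j ∈ T, (e j * u i j))

/-- `e` is not trivial for any of the admissible sets `L` of linear factors -/
def NonTriv (O lin : Finset ι) (u : ι → ι → ℤ) (e : ι → ℤ) : Prop :=
  ∀ L : Finset ι, L ⊆ lin → L.Nonempty → (L.card ≤ 2 ∨ (L = O ∧ O.card = 4)) → ¬ Triv O u L e

end Pool.Agent.SCY
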