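import Pool.Agent.SCY.Names
import Pool.Agent.SCY.Triv
import Pool.Agent.SCY.FacL

/-!
SCY module AGR (MP_896029_ag; plan /team-store/scy_plan.md): from a trivial solution to `AgreesOn`.

Proof.  For `i ∈ L` (`(F i).natDegree = 1`) let `a i` be the rational root of `F i`; `L' = image of a` (the `a i` are different by
separability, so `L'.card = L.card`).  `AgreesOn`: let `a = a i ∈ L'`, `g` as there; by `dvs` `g = C c' * F_T`,
`F_T = ∏ j ∈ T, F j` over `ℚ`; `T` is disjoint from `L` (if `j ∈ T ∩ L` then `g (a j) = 0`) and `Even (T ∩ O).card` (degree of `g` even,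
`natDegree_prod`).  `Triv` gives `∏ j ∈ T, (E j * u i j)` a square; with `heE T` and `E j ≠ 0`: `e T * ∏ j ∈ T, u i j` is a square, so by
`hut` `e T * lead(F_T) * F_T(a) = τ ^ 2` with `τ ∈ ℚ`, nonzero.  With `ρ` of `hρ T`:
`F_T(x) = lead ρ ^ 2 / e T`, so `g(x) / g(a) = F_T(x) / F_T(a) = (lead * ρ / τ) ^ 2`; take `ρ' = (lead / τ) * ρ`, fixed by `s` (an
element of `K` times a fixed element; `s.hom σ` is a `K`-algebra automorphism).
-/

set_option linter.dupNamespace false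

namespace Pool.Agent.SCY

open Polynomial Finset Pool.Agent.Helper36

variable {ι : Type} [Fintype ι] [DecidableEq ι]

omit [DecidableEq ι] in
private theorem exists_root_one {f : ℤ[X]} (hf : f.natDegree = 1) :
    ∃ a : ℚ, aeval a f = 0 := by
  have h1 : (f.map (Int.castRingHom ℚ)).degree = 1 := by
    rw [Polynomial.degree_map_eq_of_injective (Int.castRingHom ℚ).injective_int]
    rw [Polynomial.degree_eq_natDegree (by rintro rfl; simp at hf), hf]
    rfl
  obtain ⟨a, ha⟩ := Polynomial.exists_root_of_degree_eq_one h1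
  refine ⟨a, ?_⟩
  rw [IsRoot, eval_map] at ha
  rw [aeval_def]
  exact ha

theorem agrees_of (F : ι → ℤ[X]) (hirr : ∀ j, Irreducible ((F j).map (Int.castRingHom ℚ)))
    (hsep : ((∏ j, F j).map (Int.castRingHom ℚ)).Separable) (O lin : Finset ι)
    (hO : ∀ j, j ∈ O ↔ Odd (F j).natDegree) (hlin : ∀ j, j ∈ lin ↔ (F j).natDegree = 1)
    (u : ι → ι → ℤ) (hut : ∀ i, (F i).natDegree = 1 → ∀ a : ℚ, aeval a (F i) = 0 → ∀ j, j ≠ i →
      ∃ t : ℚ, t ≠ 0 ∧ (u i j : ℚ) = (F j).leadingCoeff * aeval a (F j) * t ^ 2)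
    (e : Finset ι → ℤ) (he : ∀ T, Squarefree (e T)) (E : ι → ℤ) (hE : ∀ j, Squarefree (E j))
    (heE : ∀ T, Even (T ∩ O).card → IsSquare (e T * ∏ j ∈ T, E j))
    {K Ω : Type} [Field K] [Field Ω] [Algebra ℚ K] [Algebra K Ω] [Algebra ℚ Ω]
    [IsScalarTower ℚ K Ω] (x : K) (s : PiOneSection ℚ K Ω)
    (hρ : ∀ T, Even (T ∩ O).card → ∃ ρ : UnivField ℚ K Ω, (∀ σ, s.hom σ ρ = ρ) ∧
      algebraMap K (UnivField ℚ K Ω) ((∏ j ∈ T, F j).leadingCoeff : K) * ρ ^ 2 =
        algebraMap K (UnivField ℚ K Ω) ((e T : K) * aeval x (∏ j ∈ T, F j)))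
    (L : Finset ι) (hL : L ⊆ lin) (hT : Triv O u L E) :
    ∃ L' : Finset ℚ, L'.card = L.card ∧ (∀ a ∈ L', aeval a (∏ j, F j) = 0) ∧
      AgreesOn (∏ j, F j) s x L' := by
  classical
  have hdeg : ∀ i, i ∈ L → (F i).natDegree = 1 := fun i hi => (hlin i).1 (hL hi)
  have hex : ∀ i, ∃ a : ℚ, i ∈ L → aeval a (F i) = 0 := by
    intro i
    by_cases hi : i ∈ L
    · obtain ⟨a, ha⟩ := exists_root_one (hdeg i hi)
      exact ⟨a, fun _ => ha⟩
    · exact ⟨0, fun h => absurd h hi⟩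
  choose a ha using hex
  -- coprimality
  have hcop : ∀ i j, i ≠ j → IsCoprime ((F i).map (Int.castRingHom ℚ))
      ((F j).map (Int.castRingHom ℚ)) := by
    intro i j hij
    rw [Polynomial.map_prod] at hsep
    have h1 : ((F i).map (Int.castRingHom ℚ) *
        ∏ k ∈ univ.erase i, (F k).map (Int.castRingHom ℚ)).Separable := by
      rwa [Finset.mul_prod_erase univ (fun k => (F k).map (Int.castRingHom ℚ)) (mem_univ i)]
    exact IsCoprime.of_isCoprime_of_dvd_right h1.isCoprime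
      (Finset.dvd_prod_of_mem (fun k => (F k).map (Int.castRingHom ℚ))
        (mem_erase.2 ⟨hij.symm, mem_univ j⟩))
  have hinj : Set.InjOn a (L : Set ι) := by
    intro i hi j hj hij
    by_contra hne
    obtain ⟨p, q, hpq⟩ := hcop i j hne
    have h1 := congrArg (fun P : ℚ[X] => P.eval (a i)) hpq
    have h2 : ((F i).map (Int.castRingHom ℚ)).eval (a i) = 0 := by
      rw [eval_map]; exact ha i hi
    have h3 : ((F j).map (Int.castRingHom ℚ)).eval (a i) = 0 := by
      rw [hij, eval_map]; exact ha j hj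
    simp [h2, h3] at h1
  refine ⟨L.image a, Finset.card_image_of_injOn hinj, ?_, ?_⟩
  · intro b hb
    obtain ⟨i, hi, rfl⟩ := Finset.mem_image.1 hb
    rw [map_prod]
    exact Finset.prod_eq_zero (mem_univ i) (ha i hi)
  · intro b hb g hg hgev hgL
    obtain ⟨i, hi, rfl⟩ := Finset.mem_image.1 hb
    obtain ⟨T, c, hc, hgT⟩ := dvs F hirr hsep g hg
    have hev : ∀ r : ℚ, g.eval r = c * aeval r (∏ j ∈ T, F j) := by
      intro r
      rw [hgT, eval_mul, eval_C, eval_map]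
      rfl
    have hdis : Disjoint T L := by
      rw [Finset.disjoint_left]
      intro j hjT hjL
      refine hgL (a j) (Finset.mem_image_of_mem a hjL) ?_
      rw [hev, map_prod, Finset.prod_eq_zero hjT (ha j hjL), mul_zero]
    have hF0 : ∀ j, F j ≠ 0 := by
      intro j h0
      have := (hirr j).ne_zero
      rw [h0] at this
      simp at this
    have heven : Even (T ∩ O).card := by
      have h1 : g.natDegree = ∑ j ∈ T, (F j).natDegree := by
        rw [hgT, natDegree_C_mul hc,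
          natDegree_map_eq_of_injective (Int.castRingHom ℚ).injective_int,
          natDegree_prod _ _ (fun j _ => hF0 j)]
      rw [h1, Finset.even_sum_iff_even_card_odd] at hgev
      have h2 : T ∩ O = T.filter (fun j => Odd (F j).natDegree) := by
        ext j
        rw [mem_inter, mem_filter, hO]
      rw [h2]
      exact hgev
    -- the squares
    obtain ⟨w1, hw1⟩ := hT i hi T heven hdis
    obtain ⟨w2, hw2⟩ := heE T heven
    have hE0 : ∏ j ∈ T, (E j : ℚ) ≠ 0 := by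
      refine Finset.prod_ne_zero_iff.2 fun j _ => ?_
      exact_mod_cast (hE j).ne_zero
    have he0 : (e T : ℚ) ≠ 0 := by exact_mod_cast (he T).ne_zero
    have hex : ∀ j, ∃ t : ℚ, j ∈ T → t ≠ 0 ∧
        (u i j : ℚ) = (F j).leadingCoeff * aeval (a i) (F j) * t ^ 2 := by
      intro j
      by_cases hj : j ∈ T
      · have hji : j ≠ i := by
          rintro rfl
          exact (Finset.disjoint_left.1 hdis hj) hi
        obtain ⟨t, ht, h⟩ := hut i (hdeg i hi) (a i) (ha i hi) j hji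
        exact ⟨t, fun _ => ⟨ht, h⟩⟩
      · exact ⟨0, fun h => absurd h hj⟩
    choose t ht using hex
    have ht0 : ∏ j ∈ T, t j ≠ 0 := Finset.prod_ne_zero_iff.2 fun j hj => (ht j hj).1
    have hu : ∏ j ∈ T, (u i j : ℚ) = ((∏ j ∈ T, F j).leadingCoeff : ℚ) *
        aeval (a i) (∏ j ∈ T, F j) * (∏ j ∈ T, t j) ^ 2 := by
      rw [Finset.prod_congr rfl (fun j hj => (ht j hj).2), Finset.prod_mul_distrib,
        Finset.prod_mul_distrib, Finset.prod_pow, map_prod, leadingCoeff_prod]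
      push_cast
      ring
    have hval0 : aeval (a i) (∏ j ∈ T, F j) ≠ 0 := by
      intro h0
      refine hgL (a i) (Finset.mem_image_of_mem a hi) ?_
      rw [hev, h0, mul_zero]
    obtain ⟨A, hA⟩ : ∃ A : ℚ, A = aeval (a i) (∏ j ∈ T, F j) := ⟨_, rfl⟩
    obtain ⟨l, hl⟩ : ∃ l : ℤ, l = (∏ j ∈ T, F j).leadingCoeff := ⟨_, rfl⟩
    rw [← hA] at hval0 hu
    rw [← hl] at hu
    have hl0 : (l : ℚ) ≠ 0 := by
      rw [hl]
      have : (∏ j ∈ T, F j) ≠ 0 := Finset.prod_ne_zero_iff.2 fun j _ => hF0 j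
      exact_mod_cast leadingCoeff_ne_zero.2 this
    obtain ⟨τ, hτ⟩ : ∃ τ : ℚ, (e T : ℚ) * l * A = τ ^ 2 := by
      have hw1' : (∏ j ∈ T, (E j : ℚ)) * ∏ j ∈ T, (u i j : ℚ) = (w1 : ℚ) * w1 := by
        rw [← Finset.prod_mul_distrib]
        exact_mod_cast hw1
      have hw2' : (e T : ℚ) * ∏ j ∈ T, (E j : ℚ) = (w2 : ℚ) * w2 := by
        exact_mod_cast hw2
      refine ⟨(w1 : ℚ) * w2 / ((∏ j ∈ T, (E j : ℚ)) * ∏ j ∈ T, t j), ?_⟩
      rw [hu] at hw1'
      field_simp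
      calc (e T : ℚ) * l * A * (∏ j ∈ T, (E j : ℚ)) ^ 2 * (∏ j ∈ T, t j) ^ 2
          = ((e T : ℚ) * ∏ j ∈ T, (E j : ℚ)) *
            ((∏ j ∈ T, (E j : ℚ)) * (l * A * (∏ j ∈ T, t j) ^ 2)) := by ring
        _ = _ := by rw [hw1', hw2']; ring
    have hτ0 : τ ≠ 0 := by
      rintro rfl
      have h0 : (e T : ℚ) * l * A ≠ 0 := mul_ne_zero (mul_ne_zero he0 hl0) hval0
      exact h0 (by rw [hτ]; ring)
    obtain ⟨ρ, hρs, hρe⟩ := hρ T heven
    rw [← hl] at hρe
    refine ⟨algebraMap K (UnivField ℚ K Ω) (algebraMap ℚ K (l / τ)) * ρ, ?_, ?_⟩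
    · intro σ
      rw [map_mul, hρs, AlgEquiv.commutes]
    · obtain ⟨X0, hX0⟩ : ∃ X0 : K, X0 = aeval x (∏ j ∈ T, F j) := ⟨_, rfl⟩
      have hgx : aeval x g = algebraMap ℚ K c * X0 := by
        rw [hgT, map_mul, aeval_C, hX0]
        congr 1
        exact aeval_map_algebraMap ℚ x (∏ j ∈ T, F j)
      rw [hgx, hev, ← hA]
      rw [← hX0] at hρe
      have heq : (e T : K) = algebraMap ℚ K (e T : ℚ) := by simp
      have hlq : (l : K) = algebraMap ℚ K (l : ℚ) := by simp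
      rw [heq, hlq] at hρe
      simp only [map_mul] at hρe ⊢
      obtain ⟨φ, hφ⟩ : ∃ φ : ℚ →+* UnivField ℚ K Ω,
          φ = (algebraMap K (UnivField ℚ K Ω)).comp (algebraMap ℚ K) := ⟨_, rfl⟩
      have hφ' : ∀ q : ℚ, algebraMap K (UnivField ℚ K Ω) (algebraMap ℚ K q) = φ q := by
        intro q; rw [hφ]; rfl
      simp only [hφ'] at hρe ⊢
      have h1 : φ (e T : ℚ) * φ l * φ A = φ τ ^ 2 := by
        rw [← map_mul, ← map_mul, hτ, map_pow]
      have hτ1 : φ τ ≠ 0 := (map_ne_zero φ).2 hτ0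
      have he1 : φ (e T : ℚ) ≠ 0 := (map_ne_zero φ).2 he0
      rw [map_div₀]
      have h2 : φ (e T : ℚ) * (φ c * algebraMap K (UnivField ℚ K Ω) X0) =
          φ (e T : ℚ) * (φ c * φ A * (φ l / φ τ * ρ) ^ 2) := by
        have h3 : (φ l / φ τ * ρ) ^ 2 = φ l * (φ l * ρ ^ 2) / φ τ ^ 2 := by
          field_simp
        rw [h3, hρe, ← h1]
        have hl1 : φ (l : ℚ) ≠ 0 := (map_ne_zero φ).2 hl0
        have hA1 : φ A ≠ 0 := (map_ne_zero φ).2 hval0
        field_simp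
      exact mul_left_cancel₀ he1 h2

end Pool.Agent.SCY
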