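import Mathlib

/-!
SCY module ANA (MP_896029_ag; plan /team-store/scy_plan.md): choice of the parameters.

Proof (compare `cnt_ev`, `cnt_ev2`, `cnt_ana` in SCT/Count.lean, which can be copied).  Let `x = log N` and
`η = δ / (8 * (M + 1) * (m + 2) * ...)` small, e.g. `η = δ / (4 * (M + m + 2))`; `Z = ⌈exp (x ^ η)⌉₊`, so
`exp (x ^ η) ≤ Z ≤ exp (2 * x ^ η)`, and `K = Nat.log 2 (Z ^ M) + 1`, so `Z ^ M < 2 ^ K ≤ 2 * Z ^ M` and
`log (2 ^ K) ≤ log 2 + 2 * M * x ^ η`.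
* `(2 ^ K) ^ m * (Z ^ (2 M) + 4) ≤ 2 ^ m * Z ^ (M m) * 5 * Z ^ (2 M) ≤ 5 * 2 ^ m * exp (2 * (M m + 2 M) * x ^ η) ≤ exp (x / 2) = √N`
  for large `x`.
* `(1 + log (2 ^ K)) ^ (m + 1) * (1 + log Z) ^ M ≤ C * x ^ (η * (m + 1 + M)) ≤ C * x ^ (δ / 2)`.
* `Z ^ (-1/6) ≤ exp (- x ^ η / 6)` beats every power of `x`.
* `√N ≤ N * x ^ (-δ/2)` for large `N`.
-/

set_option linter.dupNamespace false

namespace Pool.Agent.SCY

private theorem anaF_ev (a A δ η : ℝ) (hη : 0 < η) : ∀ᶠ x : ℝ in Filter.atTop,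
    (3 * x) ^ a * (3 * x) ^ A * Real.exp (-(x ^ η) / 6) ≤ x ^ (-(δ / 2)) := by
  have h1 := tendsto_rpow_mul_exp_neg_mul_atTop_nhds_zero ((a + A + δ / 2) / η) (1 / 6) (by norm_num)
  have h2 := h1.comp (tendsto_rpow_atTop hη)
  have h3 : (0 : ℝ) < (3 ^ (a + A))⁻¹ := by positivity
  have h4 := h2.eventually (gt_mem_nhds h3)
  filter_upwards [h4, Filter.eventually_gt_atTop (0 : ℝ)] with x hx hx0
  simp only [Function.comp] at hx
  rw [← Real.rpow_mul hx0.le, mul_div_cancel₀ _ hη.ne'] at hx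
  rw [← Real.rpow_add (by positivity), Real.mul_rpow (by norm_num) hx0.le]
  have h5 : x ^ (a + A) = x ^ (a + A + δ / 2) * x ^ (-(δ / 2)) := by
    rw [← Real.rpow_add hx0]
    congr 1
    ring
  have h6 : Real.exp (-(x ^ η) / 6) = Real.exp (-(1 / 6) * x ^ η) := by
    congr 1
    ring
  rw [h5, h6]
  have h7 : (0 : ℝ) < 3 ^ (a + A) := by positivity
  have h8 : 3 ^ (a + A) * (x ^ (a + A + δ / 2) * Real.exp (-(1 / 6) * x ^ η)) ≤ 1 := by
    have := mul_le_mul_of_nonneg_left hx.le h7.le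
    rwa [mul_inv_cancel₀ h7.ne'] at this
  have h9 : 0 ≤ x ^ (-(δ / 2)) := by positivity
  calc 3 ^ (a + A) * (x ^ (a + A + δ / 2) * x ^ (-(δ / 2))) * Real.exp (-(1 / 6) * x ^ η)
      = (3 ^ (a + A) * (x ^ (a + A + δ / 2) * Real.exp (-(1 / 6) * x ^ η))) * x ^ (-(δ / 2)) := by
        ring
    _ ≤ 1 * x ^ (-(δ / 2)) := mul_le_mul_of_nonneg_right h8 h9
    _ = x ^ (-(δ / 2)) := one_mul _

private theorem anaF_ev2 (c η : ℝ) (hη1 : η < 1) : ∀ᶠ x : ℝ in Filter.atTop, c * x ^ η ≤ x := by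
  have h1 := tendsto_rpow_atTop (sub_pos.mpr hη1)
  filter_upwards [h1.eventually_ge_atTop c, Filter.eventually_gt_atTop (0 : ℝ)] with x hx hx0
  calc c * x ^ η ≤ x ^ (1 - η) * x ^ η := mul_le_mul_of_nonneg_right hx (by positivity)
    _ = x := by
      rw [← Real.rpow_add hx0]
      simp

theorem anaF (M m : ℕ) (A δ : ℝ) (hδ : 0 < δ) (hδ1 : δ ≤ 1) (hA : 0 ≤ A) :
    ∃ (N0 : ℕ) (C : ℝ), 0 ≤ C ∧ ∀ N : ℕ, N0 ≤ N → 16 ≤ N ∧ ∃ Z K : ℕ, 1 ≤ Z ∧ Z ^ M < 2 ^ K ∧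
      ((2 : ℝ) ^ K) ^ m * ((Z : ℝ) ^ (2 * M) + 4) ≤ √(N : ℝ) ∧
      (Real.log N) ^ (-δ) * (1 + Real.log (2 ^ K)) ^ (m + 1) * (1 + Real.log Z) ^ M ≤
        C * (Real.log N) ^ (-(δ / 2)) ∧
      (1 + Real.log (2 ^ K)) ^ m * ((1 + Real.log N) ^ A * (Z : ℝ) ^ (-(1 : ℝ) / 6)) ≤
        C * (Real.log N) ^ (-(δ / 2)) ∧
      √(N : ℝ) ≤ C * N * (Real.log N) ^ (-(δ / 2)) := by
  have hM0 : (0 : ℝ) ≤ M := Nat.cast_nonneg _
  have hm0 : (0 : ℝ) ≤ m := Nat.cast_nonneg _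
  set η : ℝ := δ / (4 * (M + m + 2)) with hη
  have hη0 : 0 < η := by positivity
  have hη1 : η < 1 := by
    rw [hη, div_lt_one (by positivity)]
    linarith
  have hηv : η * ((m + 1 : ℕ) + M) ≤ δ / 2 := by
    rw [hη, div_mul_eq_mul_div, div_le_div_iff₀ (by positivity) (by norm_num)]
    push_cast
    nlinarith [mul_nonneg hδ.le hM0, mul_nonneg hδ.le hm0]
  set P : ℝ := 2 * M + 2 with hP
  have hP1 : 1 ≤ P := by linarith
  have hx := ((anaF_ev (m : ℝ) A δ η hη0).and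
    ((anaF_ev2 (2 * ((m : ℝ) + 2 + 2 * (M * m + 2 * M))) η hη1).and
    (Filter.eventually_ge_atTop (3 : ℝ))))
  have hlog : Filter.Tendsto (fun N : ℕ => Real.log (N : ℝ)) Filter.atTop Filter.atTop :=
    Real.tendsto_log_atTop.comp tendsto_natCast_atTop_atTop
  obtain ⟨N0, hN0⟩ := Filter.eventually_atTop.mp (hlog.eventually hx)
  have hC1 : 0 ≤ P ^ (m + 1) * 3 ^ M := by positivity
  have hC2 : 0 ≤ P ^ m := by positivity
  refine ⟨max N0 16, P ^ (m + 1) * 3 ^ M + P ^ m + 1, by positivity, fun N hN => ?_⟩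
  obtain ⟨h1, h2, h3⟩ := hN0 N (le_trans (le_max_left _ _) hN)
  have hN16 : 16 ≤ N := le_trans (le_max_right _ _) hN
  refine ⟨hN16, ?_⟩
  set x := Real.log (N : ℝ) with hx
  have hx0 : 0 < x := by linarith
  have hN0 : (0 : ℝ) < N := by
    have : (16 : ℝ) ≤ N := by exact_mod_cast hN16
    linarith
  have hNx : (N : ℝ) = Real.exp x := (Real.exp_log hN0).symm
  have hxη : 1 ≤ x ^ η := Real.one_le_rpow (by linarith) hη0.le
  set Z : ℕ := ⌈Real.exp (x ^ η)⌉₊ with hZ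
  have hZ1 : Real.exp (x ^ η) ≤ (Z : ℝ) := Nat.le_ceil _
  have hZ2 : (Z : ℝ) ≤ Real.exp (2 * x ^ η) := by
    have h4 : (⌈Real.exp (x ^ η)⌉₊ : ℝ) < Real.exp (x ^ η) + 1 :=
      Nat.ceil_lt_add_one (Real.exp_pos _).le
    have h5 : 1 ≤ Real.exp (x ^ η) - 1 := by
      have := Real.add_one_le_exp (x ^ η)
      linarith
    have h6 : Real.exp (2 * x ^ η) = Real.exp (x ^ η) * Real.exp (x ^ η) := by
      rw [← Real.exp_add]
      congr 1
      ring
    rw [h6]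
    rw [← hZ] at h4
    nlinarith
  have hZ0 : (0 : ℝ) < (Z : ℝ) := lt_of_lt_of_le (Real.exp_pos _) hZ1
  have hZr1 : (1 : ℝ) ≤ (Z : ℝ) := le_trans (Real.one_le_exp (by positivity)) hZ1
  have hZn : 1 ≤ Z := by exact_mod_cast hZr1
  have hZp : Z ^ M ≠ 0 := pow_ne_zero _ (by omega)
  set K : ℕ := Nat.log 2 (Z ^ M) + 1 with hK
  have hK1 : Z ^ M < 2 ^ K := Nat.lt_pow_succ_log_self (by norm_num) _
  have hK2 : 2 ^ K ≤ 2 * Z ^ M := by
    rw [hK, pow_succ, mul_comm]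
    exact Nat.mul_le_mul_left 2 (Nat.pow_log_le_self 2 hZp)
  have hK2' : (2 : ℝ) ^ K ≤ 2 * (Z : ℝ) ^ M := by exact_mod_cast hK2
  have hlZ : Real.log Z ≤ 2 * x ^ η := by
    rw [Real.log_le_iff_le_exp hZ0]
    exact hZ2
  have hlZ0 : 0 ≤ Real.log Z := Real.log_nonneg hZr1
  have hlK : Real.log ((2 : ℝ) ^ K) ≤ 1 + M * (2 * x ^ η) := by
    have h4 := Real.log_le_log (by positivity) hK2'
    rw [Real.log_mul (by norm_num) (by positivity), Real.log_pow (Z : ℝ) M] at h4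
    have h5 : Real.log 2 ≤ 1 := by
      have := Real.log_two_lt_d9
      linarith
    have h6 : (M : ℝ) * Real.log Z ≤ M * (2 * x ^ η) := mul_le_mul_of_nonneg_left hlZ hM0
    linarith
  have hlK0 : 0 ≤ Real.log ((2 : ℝ) ^ K) :=
    Real.log_nonneg (one_le_pow₀ (by norm_num))
  have hlKP : 1 + Real.log ((2 : ℝ) ^ K) ≤ P * x ^ η := by
    rw [hP]
    nlinarith
  refine ⟨Z, K, hZn, hK1, ?_, ?_, ?_, ?_⟩
  · -- the sizes
    have h4 : ((2 : ℝ) ^ K) ^ m ≤ 2 ^ m * (Z : ℝ) ^ (M * m) := by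
      calc ((2 : ℝ) ^ K) ^ m ≤ (2 * (Z : ℝ) ^ M) ^ m := pow_le_pow_left₀ (by positivity) hK2' m
        _ = 2 ^ m * (Z : ℝ) ^ (M * m) := by rw [mul_pow, ← pow_mul]
    have h5 : (Z : ℝ) ^ (2 * M) + 4 ≤ 5 * (Z : ℝ) ^ (2 * M) := by
      have : (1 : ℝ) ≤ (Z : ℝ) ^ (2 * M) := one_le_pow₀ hZr1
      linarith
    have h6 : (5 : ℝ) * 2 ^ m ≤ Real.exp (((m : ℝ) + 2) * x ^ η) := by
      have e2 : (2 : ℝ) ≤ Real.exp 1 := by
        have := Real.add_one_le_exp (1 : ℝ)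
        linarith
      have e5 : (5 : ℝ) ≤ Real.exp 2 := by
        have e1 := Real.exp_one_gt_d9
        have : Real.exp 2 = Real.exp 1 * Real.exp 1 := by
          rw [← Real.exp_add]
          norm_num
        rw [this]
        nlinarith
      calc (5 : ℝ) * 2 ^ m ≤ Real.exp 2 * (Real.exp 1) ^ m :=
            mul_le_mul e5 (pow_le_pow_left₀ (by norm_num) e2 m) (by positivity) (by positivity)
        _ = Real.exp (((m : ℝ) + 2) * 1) := by
            rw [← Real.exp_nat_mul, ← Real.exp_add]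
            congr 1
            ring
        _ ≤ Real.exp (((m : ℝ) + 2) * x ^ η) :=
            Real.exp_le_exp.mpr (mul_le_mul_of_nonneg_left hxη (by positivity))
    have h7 : (Z : ℝ) ^ (M * m) * (Z : ℝ) ^ (2 * M) ≤
        Real.exp (2 * ((M : ℝ) * m + 2 * M) * x ^ η) := by
      calc (Z : ℝ) ^ (M * m) * (Z : ℝ) ^ (2 * M) = (Z : ℝ) ^ (M * m + 2 * M) := by rw [pow_add]
        _ ≤ (Real.exp (2 * x ^ η)) ^ (M * m + 2 * M) := pow_le_pow_left₀ hZ0.le hZ2 _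
        _ = Real.exp (2 * ((M : ℝ) * m + 2 * M) * x ^ η) := by
            rw [← Real.exp_nat_mul]
            congr 1
            push_cast
            ring
    calc ((2 : ℝ) ^ K) ^ m * ((Z : ℝ) ^ (2 * M) + 4)
        ≤ (2 ^ m * (Z : ℝ) ^ (M * m)) * (5 * (Z : ℝ) ^ (2 * M)) :=
          mul_le_mul h4 h5 (by positivity) (by positivity)
      _ = (5 * 2 ^ m) * ((Z : ℝ) ^ (M * m) * (Z : ℝ) ^ (2 * M)) := by ring
      _ ≤ Real.exp (((m : ℝ) + 2) * x ^ η) * Real.exp (2 * ((M : ℝ) * m + 2 * M) * x ^ η) :=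
          mul_le_mul h6 h7 (by positivity) (by positivity)
      _ = Real.exp ((2 * ((m : ℝ) + 2 + 2 * (M * m + 2 * M)) * x ^ η) / 2) := by
          rw [← Real.exp_add]
          congr 1
          ring
      _ ≤ Real.exp (x / 2) := Real.exp_le_exp.mpr (by linarith)
      _ = √(N : ℝ) := by rw [hNx, Real.exp_half]
  · -- the main term
    have h4 : (1 + Real.log ((2 : ℝ) ^ K)) ^ (m + 1) ≤ (P * x ^ η) ^ (m + 1) :=
      pow_le_pow_left₀ (by linarith) hlKP _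
    have h5 : (1 + Real.log Z) ^ M ≤ (3 * x ^ η) ^ M :=
      pow_le_pow_left₀ (by linarith) (by linarith) _
    have h6 : x ^ (-δ) * (P * x ^ η) ^ (m + 1) * (3 * x ^ η) ^ M ≤
        P ^ (m + 1) * 3 ^ M * x ^ (-(δ / 2)) := by
      have e : x ^ (-δ) * (P * x ^ η) ^ (m + 1) * (3 * x ^ η) ^ M =
          P ^ (m + 1) * 3 ^ M * x ^ (-δ + η * ((m + 1 : ℕ) + M)) := by
        rw [mul_pow, mul_pow, ← Real.rpow_mul_natCast hx0.le, ← Real.rpow_mul_natCast hx0.le,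
          Real.rpow_add hx0, mul_add η, Real.rpow_add hx0]
        ring
      rw [e]
      refine mul_le_mul_of_nonneg_left ?_ hC1
      exact Real.rpow_le_rpow_of_exponent_le (by linarith) (by linarith)
    have h7 : 0 ≤ x ^ (-(δ / 2)) := by positivity
    calc x ^ (-δ) * (1 + Real.log ((2 : ℝ) ^ K)) ^ (m + 1) * (1 + Real.log Z) ^ M
        ≤ x ^ (-δ) * (P * x ^ η) ^ (m + 1) * (3 * x ^ η) ^ M :=
          mul_le_mul (mul_le_mul_of_nonneg_left h4 (by positivity)) h5 (by positivity)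
            (by positivity)
      _ ≤ P ^ (m + 1) * 3 ^ M * x ^ (-(δ / 2)) := h6
      _ ≤ (P ^ (m + 1) * 3 ^ M + P ^ m + 1) * x ^ (-(δ / 2)) :=
          mul_le_mul_of_nonneg_right (by linarith) h7
  · -- the linked term
    have h7 : 0 ≤ x ^ (-(δ / 2)) := by positivity
    have hyx : x ^ η ≤ 3 * x := by
      calc x ^ η ≤ x ^ (1 : ℝ) := Real.rpow_le_rpow_of_exponent_le (by linarith) hη1.le
        _ = x := Real.rpow_one x
        _ ≤ 3 * x := by linarith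
    have h4 : (1 + Real.log ((2 : ℝ) ^ K)) ^ m ≤ P ^ m * (3 * x) ^ (m : ℝ) := by
      rw [Real.rpow_natCast]
      calc (1 + Real.log ((2 : ℝ) ^ K)) ^ m ≤ (P * (3 * x)) ^ m := by
            refine pow_le_pow_left₀ (by linarith) (hlKP.trans ?_) _
            exact mul_le_mul_of_nonneg_left hyx (by linarith)
        _ = P ^ m * (3 * x) ^ m := mul_pow _ _ _
    have h5 : (1 + x) ^ A ≤ (3 * x) ^ A := Real.rpow_le_rpow (by linarith) (by linarith) hA
    have h6 : (Z : ℝ) ^ (-(1 : ℝ) / 6) ≤ Real.exp (-(x ^ η) / 6) := by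
      calc (Z : ℝ) ^ (-(1 : ℝ) / 6) ≤ (Real.exp (x ^ η)) ^ (-(1 : ℝ) / 6) :=
            Real.rpow_le_rpow_of_nonpos (Real.exp_pos _) hZ1 (by norm_num)
        _ = Real.exp (-(x ^ η) / 6) := by
            rw [← Real.exp_mul]
            congr 1
            ring
    calc (1 + Real.log ((2 : ℝ) ^ K)) ^ m * ((1 + x) ^ A * (Z : ℝ) ^ (-(1 : ℝ) / 6))
        ≤ (P ^ m * (3 * x) ^ (m : ℝ)) * ((3 * x) ^ A * Real.exp (-(x ^ η) / 6)) :=
          mul_le_mul h4 (mul_le_mul h5 h6 (by positivity) (by positivity)) (by positivity)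
            (by positivity)
      _ = P ^ m * ((3 * x) ^ (m : ℝ) * (3 * x) ^ A * Real.exp (-(x ^ η) / 6)) := by ring
      _ ≤ P ^ m * x ^ (-(δ / 2)) := mul_le_mul_of_nonneg_left h1 hC2
      _ ≤ (P ^ (m + 1) * 3 ^ M + P ^ m + 1) * x ^ (-(δ / 2)) :=
          mul_le_mul_of_nonneg_right (by linarith) h7
  · -- the square root
    have h4 : x ^ (δ / 2) ≤ Real.exp (x / 2) := by
      have e1 : x ^ (δ / 2) ≤ x := by
        calc x ^ (δ / 2) ≤ x ^ (1 : ℝ) :=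
              Real.rpow_le_rpow_of_exponent_le (by linarith) (by linarith)
          _ = x := Real.rpow_one x
      have e2 : x ≤ Real.exp (x / 2) := by
        have e3 := Real.add_one_le_exp (x / 4)
        have e4 : Real.exp (x / 2) = Real.exp (x / 4) * Real.exp (x / 4) := by
          rw [← Real.exp_add]
          congr 1
          ring
        rw [e4]
        nlinarith [sq_nonneg (x / 4 - 1)]
      exact e1.trans e2
    have h5 : (N : ℝ) = Real.exp (x / 2) * Real.exp (x / 2) := by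
      rw [hNx, ← Real.exp_add]
      congr 1
      ring
    have h6 : √(N : ℝ) = Real.exp (x / 2) := by rw [hNx, Real.exp_half]
    rw [h6]
    have h7 : 1 ≤ Real.exp (x / 2) * x ^ (-(δ / 2)) := by
      have e5 : x ^ (δ / 2) * x ^ (-(δ / 2)) = 1 := by
        rw [← Real.rpow_add hx0]
        simp
      calc (1 : ℝ) = x ^ (δ / 2) * x ^ (-(δ / 2)) := e5.symm
        _ ≤ Real.exp (x / 2) * x ^ (-(δ / 2)) := mul_le_mul_of_nonneg_right h4 (by positivity)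
    have h8 : (1 : ℝ) ≤ P ^ (m + 1) * 3 ^ M + P ^ m + 1 := by linarith
    calc Real.exp (x / 2) = 1 * (Real.exp (x / 2) * 1) := by ring
      _ ≤ (P ^ (m + 1) * 3 ^ M + P ^ m + 1) *
          (Real.exp (x / 2) * (Real.exp (x / 2) * x ^ (-(δ / 2)))) :=
          mul_le_mul h8 (mul_le_mul_of_nonneg_left h7 (Real.exp_pos _).le) (by positivity)
            (by linarith)
      _ = (P ^ (m + 1) * 3 ^ M + P ^ m + 1) * N * x ^ (-(δ / 2)) := by
          rw [h5]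
          ring

end Pool.Agent.SCY
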