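import Pool.Agent.SCX.ArithO

/-!
SCY module ARE (MP_896029_ag; plan /team-store/scy_plan.md): as `arithO`, with the relation of the `E j` to the
`e T`.

Proof: the same as `arithO` (SCX/ArithO.lean; copy it with its private lemmas).  New: `IsSquare (e T * ∏ j ∈ T, E j)` for
`Even (T ∩ O).card`.  There `E o = D`, `E j * D = e {o, j}` for `j ∈ O`, `j ≠ o`, `E j = e {j}` for `j ∉ O`.  Induction on the
number of elements of `T`:
* `T = ∅`: `hmul ∅ ∅` gives that `e ∅ ^ 3` is a square, so `e ∅` is one (`e ∅ ≠ 0`; `e ∅ ^ 3 = t ^ 2` implies `e ∅ = (t / e ∅) ^ 2`,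
  a rational square which is an integer; or `e ∅` squarefree with `e ∅ ^ 3` a square is a unit `= 1`).
* some `j ∈ T`, `j ∉ O`: `T = symmDiff (T.erase j) {j}`, `hmul (T.erase j) {j}`: `e (T.erase j) * e {j} * e T` is a square.
* otherwise `T ⊆ O` has two different elements `j, k`; if one of them is `o`, say `k = o`: `e {o, j} = E j * E o`.  If both are
  different from `o`: `hmul {o, j} {o, k}` gives `e {o, j} * e {o, k} * e {j, k}` a square, so `E j * E k * e {j, k}` is a square.  Then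
  `hmul (T \ {j, k}) {j, k}`.
Use: if `a * b` and `b * c` are squares and `b ≠ 0` then `a * c` is a square (integers).
-/

set_option linter.dupNamespace false

namespace Pool.Agent.SCY

open Finset Pool.Agent.SCT Pool.Agent.SCX

variable {ι : Type} [Fintype ι] [DecidableEq ι]

omit [Fintype ι] in
private theorem even_single {O : Finset ι} {j : ι} (hj : j ∉ O) :
    Even (({j} : Finset ι) ∩ O).card := by
  have h1 : ({j} : Finset ι) ∩ O = ∅ := by
    ext x
    simp only [mem_inter, mem_singleton, notMem_empty, iff_false, not_and]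
    intro hx
    rw [hx]
    exact hj
  rw [h1, card_empty]
  exact Even.zero

omit [Fintype ι] in
private theorem even_pair {O : Finset ι} {j k : ι} (hj : j ∈ O) (hk : k ∈ O) (hjk : j ≠ k) :
    Even (({j, k} : Finset ι) ∩ O).card := by
  have h1 : ({j, k} : Finset ι) ∩ O = {j, k} := by
    refine Finset.inter_eq_left.2 ?_
    intro x hx
    rcases mem_insert.1 hx with h | h
    · rw [h]
      exact hj
    · rw [mem_singleton.1 h]
      exact hk
  rw [h1, card_pair hjk]
  exact even_two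

omit [Fintype ι] in
private theorem sep {O : Finset ι} (hO3 : 3 ≤ O.card) {i o : ι} (hio : i ≠ o) :
    ∃ T : Finset ι, Even (T ∩ O).card ∧ i ∈ T ∧ o ∉ T := by
  by_cases hi : i ∈ O
  · have h1 : 0 < ((O.erase i).erase o).card := by
      have h2 := Finset.pred_card_le_card_erase (s := O) (a := i)
      have h3 := Finset.pred_card_le_card_erase (s := O.erase i) (a := o)
      omega
    obtain ⟨k, hk⟩ := Finset.card_pos.1 h1
    rw [mem_erase, mem_erase] at hk
    refine ⟨{i, k}, even_pair hi hk.2.2 (fun h => hk.2.1 h.symm), mem_insert_self _ _, ?_⟩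
    rw [mem_insert, mem_singleton]
    rintro (h | h)
    · exact hio h.symm
    · exact hk.1 h.symm
  · refine ⟨{i}, even_single hi, mem_singleton_self _, ?_⟩
    rw [mem_singleton]
    exact fun h => hio h.symm

omit [Fintype ι] in
private theorem symm_pair {o j k : ι} (hoj : j ≠ o) (hok : k ≠ o) (hjk : j ≠ k) :
    symmDiff ({o, j} : Finset ι) {o, k} = {j, k} := by
  ext x
  rw [Finset.mem_symmDiff]
  simp only [mem_insert, mem_singleton]
  constructor
  · rintro (⟨h1 | h1, h2⟩ | ⟨h1 | h1, h2⟩)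
    · exact absurd (Or.inl h1) h2
    · exact Or.inl h1
    · exact absurd (Or.inl h1) h2
    · exact Or.inr h1
  · rintro (h | h)
    · refine Or.inl ⟨Or.inr h, ?_⟩
      rintro (h2 | h2)
      · exact hoj (h.symm.trans h2)
      · exact hjk (h.symm.trans h2)
    · refine Or.inr ⟨Or.inr h, ?_⟩
      rintro (h2 | h2)
      · exact hok (h.symm.trans h2)
      · exact hjk (h2.symm.trans h)

private theorem gcd_of_not_dvd {q : ℕ} (hq : q.Prime) {a : ℤ} (h : ¬ (q : ℤ) ∣ a) :
    a.gcd q = 1 := by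
  have h1 : IsCoprime (q : ℤ) a :=
    (Prime.coprime_iff_not_dvd (Nat.prime_iff_prime_int.1 hq)).2 h
  exact Int.isCoprime_iff_gcd_eq_one.1 h1.symm

private theorem jac_sq {q : ℕ} (hq : q.Prime) {a : ℤ} (h : ¬ (q : ℤ) ∣ a) :
    jacobiSym a q * jacobiSym a q = 1 := by
  have h1 := jacobiSym.sq_one (gcd_of_not_dvd hq h)
  rwa [sq] at h1

private theorem jac_pm {q : ℕ} (hq : q.Prime) {a : ℤ} (h : ¬ (q : ℤ) ∣ a) :
    jacobiSym a q = 1 ∨ jacobiSym a q = -1 :=
  jacobiSym.eq_one_or_neg_one (gcd_of_not_dvd hq h)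

private theorem zsq (z : ℤˣ) : (z : ℤ) * (z : ℤ) = 1 := by
  rcases Int.units_eq_one_or z with h | h
  · rw [h]
    rfl
  · rw [h]
    rfl

private theorem zpm (z : ℤˣ) : (z : ℤ) = 1 ∨ (z : ℤ) = -1 := by
  rcases Int.units_eq_one_or z with h | h
  · rw [h]
    exact Or.inl rfl
  · rw [h]
    exact Or.inr rfl

/-- the last step: from a common sign to a member of `flipSet` -/
private theorem fin (O : Finset ι) (i : ι) (P : Finset (ι → ℤˣ)) (z : ι → ℤˣ) (hz : z ∈ P)
    (J : ι → ℤ) (ε : ℤ) (hε : ε = 1 ∨ ε = -1)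
    (h1 : ∀ j ∈ O, j ≠ i → J j = ε * ((z j : ℤˣ) : ℤ))
    (h2 : ∀ j, j ∉ O → j ≠ i → J j = ((z j : ℤˣ) : ℤ)) :
    ∃ y ∈ flipSet O i P, ∀ j, j ≠ i → J j = ((y j : ℤˣ) : ℤ) := by
  rcases hε with rfl | rfl
  · refine ⟨z, mem_flipSet.2 (Or.inl hz), fun j hj => ?_⟩
    by_cases hjO : j ∈ O
    · rw [h1 j hjO hj, one_mul]
    · exact h2 j hjO hj
  · refine ⟨flp O i z, mem_flipSet.2 (Or.inr ⟨z, hz, rfl⟩), fun j hj => ?_⟩
    unfold flp
    by_cases hjO : j ∈ O
    · rw [h1 j hjO hj, if_pos ⟨hjO, hj⟩, Units.val_neg]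
      ring
    · rw [h2 j hjO hj, if_neg (fun h => hjO h.1)]

private theorem isq_cancel {a b : ℤ} (ha : a ≠ 0) (h : IsSquare (a * a * b)) : IsSquare b := by
  obtain ⟨s, hs⟩ := h
  have h2 : a ^ 2 ∣ s ^ 2 := by
    refine ⟨b, ?_⟩
    rw [sq s, ← hs]
    ring
  obtain ⟨t, ht⟩ := (Int.pow_dvd_pow_iff two_ne_zero).1 h2
  refine ⟨t, ?_⟩
  have h5 : a ^ 2 * b = a ^ 2 * (t * t) := by
    rw [ht] at hs
    linear_combination hs
  exact mul_left_cancel₀ (pow_ne_zero 2 ha) h5

private theorem isq_trans {a b c : ℤ} (hb : b ≠ 0) (h1 : IsSquare (b * a)) (h2 : IsSquare (b * c)) :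
    IsSquare (a * c) := by
  refine isq_cancel hb ?_
  have h3 : b * b * (a * c) = (b * a) * (b * c) := by ring
  rw [h3]
  exact h1.mul h2

omit [Fintype ι] in
private theorem sqpart (O : Finset ι) {o : ι} (ho : o ∈ O) (e : Finset ι → ℤ) (he : ∀ T, e T ≠ 0)
    (hmul : ∀ T T' : Finset ι, Even (T ∩ O).card → Even (T' ∩ O).card →
      IsSquare (e T * e T' * e (symmDiff T T'))) (D : ℤ) (hD : D ≠ 0) (E : ι → ℤ) (hEo : E o = D)
    (hEO : ∀ j ∈ O, j ≠ o → E j * D = e {o, j}) (hEn : ∀ j, j ∉ O → E j = e {j}) :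
    ∀ T, Even (T ∩ O).card → IsSquare (e T * ∏ j ∈ T, E j) := by
  have hpair : ∀ j ∈ O, ∀ k ∈ O, j ≠ k → IsSquare (e {j, k} * (E j * E k)) := by
    intro j hj k hk hjk
    by_cases hjo : j = o
    · have hko : k ≠ o := fun h => hjk (hjo.trans h.symm)
      rw [hjo, ← hEO k hk hko, hEo]
      exact ⟨E k * D, by ring⟩
    · by_cases hko : k = o
      · rw [hko, Finset.pair_comm, ← hEO j hj hjo, hEo]
        exact ⟨E j * D, by ring⟩
      · have h1 := hmul {o, j} {o, k} (even_pair ho hj (fun h => hjo h.symm))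
          (even_pair ho hk (fun h => hko h.symm))
        rw [symm_pair hjo hko hjk, ← hEO j hj hjo, ← hEO k hk hko] at h1
        refine isq_cancel hD ?_
        have h2 : D * D * (e {j, k} * (E j * E k)) = E j * D * (E k * D) * e {j, k} := by ring
        rw [h2]
        exact h1
  have hmain : ∀ n : ℕ, ∀ T : Finset ι, T.card ≤ n → Even (T ∩ O).card →
      IsSquare (e T * ∏ j ∈ T, E j) := by
    intro n
    induction n with
    | zero =>
      intro T hT hTe
      have hT0 : T = ∅ := Finset.card_eq_zero.1 (Nat.le_zero.1 hT)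
      subst hT0
      rw [Finset.prod_empty, mul_one]
      have h1 := hmul ∅ ∅ hTe hTe
      rw [symmDiff_self] at h1
      exact isq_cancel (he ∅) h1
    | succ n ih =>
      intro T hT hTe
      by_cases h0 : T = ∅
      · exact ih T (by rw [h0]; simp) hTe
      by_cases hTO : T ⊆ O
      · have hTi : T ∩ O = T := Finset.inter_eq_left.2 hTO
        rw [hTi] at hTe
        have hpos : 0 < T.card := Finset.card_pos.2 (Finset.nonempty_iff_ne_empty.2 h0)
        have h2 : 1 < T.card := by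
          obtain ⟨m, hm⟩ := hTe
          omega
        obtain ⟨j, hj, k, hk, hjk⟩ := Finset.one_lt_card.1 h2
        have hsd : symmDiff (T \ {j, k}) {j, k} = T := by
          ext x
          rw [Finset.mem_symmDiff]
          simp only [mem_sdiff, mem_insert, mem_singleton]
          constructor
          · rintro (⟨⟨h3, -⟩, -⟩ | ⟨h3 | h3, -⟩)
            · exact h3
            · rw [h3]
              exact hj
            · rw [h3]
              exact hk
          · intro h3
            by_cases h4 : x = j ∨ x = k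
            · exact Or.inr ⟨h4, fun h5 => h5.2 h4⟩
            · exact Or.inl ⟨⟨h3, h4⟩, h4⟩
        have hsub : ({j, k} : Finset ι) ⊆ T := by
          intro x hx
          rcases mem_insert.1 hx with h3 | h3
          · rw [h3]
            exact hj
          · rw [mem_singleton.1 h3]
            exact hk
        have hcard : (T \ {j, k}).card = T.card - 2 := by
          rw [Finset.card_sdiff_of_subset hsub, card_pair hjk]
        have hev : Even ((T \ {j, k}) ∩ O).card := by
          rw [Finset.inter_eq_left.2 (Finset.sdiff_subset.trans hTO), hcard]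
          obtain ⟨m, hm⟩ := hTe
          exact ⟨m - 1, by omega⟩
        have h3 := ih (T \ {j, k}) (by omega) hev
        have h4 := hmul (T \ {j, k}) {j, k} hev (even_pair (hTO hj) (hTO hk) hjk)
        rw [hsd, mul_assoc] at h4
        have h5 := isq_trans (he _) h4 h3
        have h6 := hpair j (hTO hj) k (hTO hk) hjk
        have h7 : e {j, k} * e T * ∏ i ∈ T \ {j, k}, E i =
          e {j, k} * (e T * ∏ i ∈ T \ {j, k}, E i) := by ring
        rw [h7] at h5
        have h8 := isq_trans (he _) h5 h6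
        have h9 : ∏ i ∈ T, E i = (∏ i ∈ T \ {j, k}, E i) * (E j * E k) := by
          rw [← Finset.prod_pair hjk]
          exact (Finset.prod_sdiff hsub).symm
        rw [h9]
        rwa [mul_assoc] at h8
      · obtain ⟨j, hj, hjO⟩ := Finset.not_subset.1 hTO
        have hsd : symmDiff (T.erase j) {j} = T := by
          ext x
          rw [Finset.mem_symmDiff]
          simp only [mem_erase, mem_singleton]
          constructor
          · rintro (⟨⟨-, h3⟩, -⟩ | ⟨h3, -⟩)
            · exact h3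
            · rw [h3]
              exact hj
          · intro h3
            by_cases h4 : x = j
            · exact Or.inr ⟨h4, fun h5 => h5.1 h4⟩
            · exact Or.inl ⟨⟨h4, h3⟩, h4⟩
        have hie : (T.erase j) ∩ O = T ∩ O := by
          ext x
          simp only [mem_inter, mem_erase]
          constructor
          · rintro ⟨⟨-, h3⟩, h4⟩
            exact ⟨h3, h4⟩
          · rintro ⟨h3, h4⟩
            exact ⟨⟨fun h5 => hjO (by rw [← h5]; exact h4), h3⟩, h4⟩
        have hev : Even ((T.erase j) ∩ O).card := by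
          rw [hie]
          exact hTe
        have hcard : (T.erase j).card = T.card - 1 := Finset.card_erase_of_mem hj
        have h3 := ih (T.erase j) (by omega) hev
        have h4 := hmul (T.erase j) {j} hev (even_single hjO)
        rw [hsd, mul_assoc] at h4
        have h5 := isq_trans (he _) h4 h3
        have h9 : ∏ i ∈ T, E i = E j * ∏ i ∈ T.erase j, E i := (Finset.mul_prod_erase T E hj).symm
        rw [h9, hEn j hjO]
        have h10 : e T * (e {j} * ∏ i ∈ T.erase j, E i) =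
          e {j} * e T * ∏ i ∈ T.erase j, E i := by ring
        rw [h10]
        exact h5
  exact fun T hTe => hmain T.card T le_rfl hTe

theorem arithE (O : Finset ι) (hO3 : 3 ≤ O.card) (Pat : ι → ℕ → Finset (ι → ℤˣ))
    (B : ℕ) (d : ℤ) (hd : Squarefree d) (e : Finset ι → ℤ) (he : ∀ T, Squarefree (e T))
    (hmul : ∀ T T' : Finset ι, Even (T ∩ O).card → Even (T' ∩ O).card →
      IsSquare (e T * e T' * e (symmDiff T T')))
    (h : ∀ q : ℕ, q.Prime → B < q →
      (¬ (q : ℤ) ∣ d → ∀ T, Even (T ∩ O).card → ¬ (q : ℤ) ∣ e T) ∧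
      ((q : ℤ) ∣ d → ∃ i : ι, ∃ z : ι → ℤˣ, z ∈ Pat i q ∧
        ∀ T, Even (T ∩ O).card → (i ∈ T → (q : ℤ) ∣ e T) ∧
          (i ∉ T → ¬ (q : ℤ) ∣ e T ∧ jacobiSym (e T) q = ∏ j ∈ T, ((z j : ℤˣ) : ℤ)))) :
    ∃ E : ι → ℤ, (∀ j, Squarefree (E j)) ∧
      (∀ T, Even (T ∩ O).card → IsSquare (e T * ∏ j ∈ T, E j)) ∧
      ∀ q : ℕ, q.Prime → B < q →
      (¬ (q : ℤ) ∣ d → ∀ j, ¬ (q : ℤ) ∣ E j) ∧
      ((q : ℤ) ∣ d → ∃ i : ι, (q : ℤ) ∣ E i ∧ (∀ j, j ≠ i → ¬ (q : ℤ) ∣ E j) ∧
        ∃ z : ι → ℤˣ, z ∈ flipSet O i (Pat i q) ∧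
          ∀ j, j ≠ i → jacobiSym (E j) q = ((z j : ℤˣ) : ℤ)) := by
  classical
  obtain ⟨o, ho⟩ : O.Nonempty := Finset.card_pos.1 (by omega)
  have hd0 : d ≠ 0 := hd.ne_zero
  -- the types
  have hK : ∀ q : ℕ, q.Prime → B < q → (q : ℤ) ∣ d → ∃ i : ι, ∃ z : ι → ℤˣ, z ∈ Pat i q ∧
      (∀ T, Even (T ∩ O).card → ((q : ℤ) ∣ e T ↔ i ∈ T)) ∧
      ∀ T, Even (T ∩ O).card → i ∉ T → jacobiSym (e T) q = ∏ j ∈ T, ((z j : ℤˣ) : ℤ) := by
    intro q hq hB hqd
    obtain ⟨i, z, hz, hT⟩ := (h q hq hB).2 hqd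
    refine ⟨i, z, hz, fun T hT2 => ⟨fun h1 => ?_, (hT T hT2).1⟩, fun T hT2 hi =>
      ((hT T hT2).2 hi).2⟩
    by_contra hi
    exact ((hT T hT2).2 hi).1 h1
  obtain ⟨So, hSo⟩ : ∃ So : Finset ℕ, So = d.natAbs.primeFactors.filter
    (fun q => B < q ∧ ∀ T : Finset ι, Even (T ∩ O).card → ((q : ℤ) ∣ e T ↔ o ∈ T)) := ⟨_, rfl⟩
  have hSomem : ∀ q, q ∈ So ↔ (q.Prime ∧ (q : ℤ) ∣ d) ∧
      (B < q ∧ ∀ T : Finset ι, Even (T ∩ O).card → ((q : ℤ) ∣ e T ↔ o ∈ T)) := by
    intro q
    rw [hSo, mem_filter, Nat.mem_primeFactors]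
    refine and_congr_left fun _ => ?_
    constructor
    · exact fun h1 => ⟨h1.1, Int.natCast_dvd.2 h1.2.1⟩
    · exact fun h1 => ⟨h1.1, Int.natCast_dvd.1 h1.2, Int.natAbs_ne_zero.2 hd0⟩
  obtain ⟨D, hD⟩ : ∃ D : ℕ, D = ∏ q ∈ So, q := ⟨_, rfl⟩
  have hprod : ∀ a : ℤ, (∀ q ∈ So, (q : ℤ) ∣ a) → (D : ℤ) ∣ a := by
    intro a ha
    rw [Int.natCast_dvd, hD]
    refine Finset.prod_primes_dvd _ (fun q hq => ((hSomem q).1 hq).1.1.prime) fun q hq => ?_
    exact Int.natCast_dvd.1 (ha q hq)
  have hDd : (D : ℤ) ∣ d := hprod d fun q hq => ((hSomem q).1 hq).1.2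
  have hDsf : Squarefree (D : ℤ) := hd.squarefree_of_dvd hDd
  have hD0 : (D : ℤ) ≠ 0 := hDsf.ne_zero
  have hqD : ∀ q : ℕ, q.Prime → ((q : ℤ) ∣ (D : ℤ) ↔ q ∈ So) := by
    intro q hq
    rw [Int.natCast_dvd_natCast, hD]
    constructor
    · intro h1
      obtain ⟨a, ha, h2⟩ := (hq.prime.dvd_finset_prod_iff _).1 h1
      rw [(Nat.prime_dvd_prime_iff_eq hq ((hSomem a).1 ha).1.1).1 h2]
      exact ha
    · exact fun h1 => Finset.dvd_prod_of_mem _ h1
  have hDe : ∀ j ∈ O, j ≠ o → (D : ℤ) ∣ e {o, j} := by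
    intro j hj hjo
    refine hprod _ fun q hq => ?_
    exact (((hSomem q).1 hq).2.2 _ (even_pair ho hj (fun h => hjo h.symm))).2
      (mem_insert_self _ _)
  obtain ⟨E, hE⟩ : ∃ E : ι → ℤ, E = fun j => if j = o then (D : ℤ) else
    if j ∈ O then e {o, j} / (D : ℤ) else e {j} := ⟨_, rfl⟩
  have hEo : E o = D := by
    rw [hE]
    exact if_pos rfl
  have hEO : ∀ j ∈ O, j ≠ o → E j * D = e {o, j} := by
    intro j hj hjo
    rw [hE]
    show (if j = o then (D : ℤ) else if j ∈ O then e {o, j} / (D : ℤ) else e {j}) * D = _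
    rw [if_neg hjo, if_pos hj]
    exact Int.ediv_mul_cancel (hDe j hj hjo)
  have hEn : ∀ j, j ∉ O → E j = e {j} := by
    intro j hj
    rw [hE]
    show (if j = o then (D : ℤ) else if j ∈ O then e {o, j} / (D : ℤ) else e {j}) = _
    rw [if_neg (fun h1 => hj (by rw [h1]; exact ho)), if_neg hj]
  refine ⟨E, ?_, ?_, ?_⟩
  · intro j
    by_cases hjo : j = o
    · rw [hjo, hEo]
      exact hDsf
    · by_cases hj : j ∈ O
      · exact (he {o, j}).squarefree_of_dvd ⟨_, (hEO j hj hjo).symm⟩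
      · rw [hEn j hj]
        exact he _
  · exact sqpart O ho e (fun T => (he T).ne_zero) hmul D hD0 E hEo hEO hEn
  intro q hq hB
  have hqp : Prime (q : ℤ) := Nat.prime_iff_prime_int.1 hq
  constructor
  · intro hqd j
    by_cases hjo : j = o
    · rw [hjo, hEo]
      exact fun h1 => hqd (h1.trans hDd)
    · by_cases hj : j ∈ O
      · intro h1
        refine (h q hq hB).1 hqd {o, j} (even_pair ho hj (fun h => hjo h.symm)) ?_
        rw [← hEO j hj hjo]
        exact h1.mul_right _
      · rw [hEn j hj]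
        exact (h q hq hB).1 hqd _ (even_single hj)
  intro hqd
  obtain ⟨i, z, hz, hi1, hi2⟩ := hK q hq hB hqd
  -- `q` divides `D` iff the type is `o`
  have hqDo : (q : ℤ) ∣ (D : ℤ) ↔ i = o := by
    rw [hqD q hq, hSomem]
    constructor
    · rintro ⟨-, -, h1⟩
      by_contra hio
      obtain ⟨T, hT1, hT2, hT3⟩ := sep hO3 hio
      exact hT3 ((h1 T hT1).1 ((hi1 T hT1).2 hT2))
    · intro hio
      rw [hio] at hi1
      exact ⟨⟨hq, hqd⟩, hB, hi1⟩
  have hqE : ∀ j, (q : ℤ) ∣ E j ↔ i = j := by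
    intro j
    by_cases hjo : j = o
    · rw [hjo, hEo]
      exact hqDo
    · by_cases hj : j ∈ O
      · have h1 := hi1 {o, j} (even_pair ho hj (fun h => hjo h.symm))
        rw [← hEO j hj hjo, mem_insert, mem_singleton] at h1
        constructor
        · intro h2
          rcases h1.1 (h2.mul_right _) with h3 | h3
          · exfalso
            have h4 : (q : ℤ) * q ∣ e {o, j} := by
              rw [← hEO j hj hjo]
              exact mul_dvd_mul h2 (hqDo.2 h3)
            exact hqp.not_unit (he _ _ h4)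
          · exact h3
        · intro h2
          rcases hqp.dvd_or_dvd (h1.2 (Or.inr h2)) with h3 | h3
          · exact h3
          · exact absurd ((hqDo.1 h3).symm.trans h2) (fun h => hjo h.symm)
      · rw [hEn j hj]
        have h1 := hi1 {j} (even_single hj)
        rw [mem_singleton] at h1
        exact h1
  refine ⟨i, (hqE i).2 rfl, fun j hj h1 => hj ((hqE j).1 h1).symm, ?_⟩
  have hnE : ∀ j, j ≠ i → ¬ (q : ℤ) ∣ E j := fun j hj h1 => hj ((hqE j).1 h1).symm
  have hout : ∀ j, j ∉ O → j ≠ i → jacobiSym (E j) q = ((z j : ℤˣ) : ℤ) := by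
    intro j hj hji
    rw [hEn j hj, hi2 {j} (even_single hj) (by rw [mem_singleton]; exact fun h => hji h.symm),
      prod_singleton]
  have hpair : ∀ j ∈ O, ∀ k ∈ O, j ≠ k → j ≠ i → k ≠ i →
      jacobiSym (e {j, k}) q = ((z j : ℤˣ) : ℤ) * ((z k : ℤˣ) : ℤ) := by
    intro j hj k hk hjk hji hki
    rw [hi2 {j, k} (even_pair hj hk hjk) ?_, prod_pair hjk]
    rw [mem_insert, mem_singleton]
    rintro (h1 | h1)
    · exact hji h1.symm
    · exact hki h1.symm
  by_cases hio : i = o
  · -- type `o`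
    have h1 : 0 < (O.erase o).card := by
      have h2 := Finset.pred_card_le_card_erase (s := O) (a := o)
      omega
    obtain ⟨k, hk⟩ := Finset.card_pos.1 h1
    rw [mem_erase] at hk
    obtain ⟨hko, hkO⟩ := hk
    have hki : k ≠ i := fun h => hko (h.trans hio)
    have hkne := hnE k hki
    refine fin O i (Pat i q) z hz (fun j => jacobiSym (E j) q)
      (jacobiSym (E k) q * ((z k : ℤˣ) : ℤ)) ?_ ?_ hout
    · rcases jac_pm hq hkne with h2 | h2 <;> rcases zpm (z k) with h3 | h3 <;>
        rw [h2, h3] <;> norm_num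
    · intro j hj hji
      have hjo : j ≠ o := fun h => hji (h.trans hio.symm)
      have hzk := zsq (z k)
      by_cases hjk : j = k
      · rw [hjk]
        show jacobiSym (E k) q = _
        calc jacobiSym (E k) q = jacobiSym (E k) q * (((z k : ℤˣ) : ℤ) * ((z k : ℤˣ) : ℤ)) := by
              rw [hzk, mul_one]
          _ = _ := by ring
      · obtain ⟨s, hs⟩ := hmul {o, j} {o, k} (even_pair ho hj (fun h => hjo h.symm))
          (even_pair ho hkO (fun h => hko h.symm))
        rw [symm_pair hjo hko hjk, ← hEO j hj hjo, ← hEO k hkO hko] at hs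
        have h2 : (D : ℤ) ^ 2 ∣ s ^ 2 := by
          refine ⟨E j * E k * e {j, k}, ?_⟩
          rw [sq s, ← hs]
          ring
        have h3 : (D : ℤ) ∣ s := (Int.pow_dvd_pow_iff two_ne_zero).1 h2
        obtain ⟨t, ht⟩ := h3
        have h4 : E j * E k * e {j, k} = t ^ 2 := by
          have h5 : (D : ℤ) ^ 2 * (E j * E k * e {j, k}) = (D : ℤ) ^ 2 * t ^ 2 := by
            rw [ht] at hs
            linear_combination hs
          exact mul_left_cancel₀ (pow_ne_zero 2 hD0) h5
        have hejk : ¬ (q : ℤ) ∣ e {j, k} := by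
          intro h5
          have h6 := (hi1 {j, k} (even_pair hj hkO hjk)).1 h5
          rw [mem_insert, mem_singleton] at h6
          rcases h6 with h6 | h6
          · exact hji h6.symm
          · exact hki h6.symm
        have htq : ¬ (q : ℤ) ∣ t := by
          intro h5
          have h6 : (q : ℤ) ∣ E j * E k * e {j, k} := by
            rw [h4]
            exact dvd_pow h5 two_ne_zero
          rcases hqp.dvd_or_dvd h6 with h7 | h7
          · rcases hqp.dvd_or_dvd h7 with h8 | h8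
            · exact hnE j hji h8
            · exact hkne h8
          · exact hejk h7
        have h5 : jacobiSym (E j) q * jacobiSym (E k) q * jacobiSym (e {j, k}) q = 1 := by
          rw [← jacobiSym.mul_left, ← jacobiSym.mul_left, h4]
          exact jacobiSym.sq_one' (gcd_of_not_dvd hq htq)
        rw [hpair j hj k hkO hjk hji hki] at h5
        have hzj := zsq (z j)
        have hJk := jac_sq hq hkne
        show jacobiSym (E j) q = jacobiSym (E k) q * ((z k : ℤˣ) : ℤ) * ((z j : ℤˣ) : ℤ)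
        calc jacobiSym (E j) q = jacobiSym (E j) q * (jacobiSym (E k) q * jacobiSym (E k) q) *
              (((z k : ℤˣ) : ℤ) * ((z k : ℤˣ) : ℤ)) * (((z j : ℤˣ) : ℤ) * ((z j : ℤˣ) : ℤ)) := by
              rw [hJk, hzk, hzj]
              ring
          _ = (jacobiSym (E j) q * jacobiSym (E k) q *
              (((z j : ℤˣ) : ℤ) * ((z k : ℤˣ) : ℤ))) *
              (jacobiSym (E k) q * ((z k : ℤˣ) : ℤ) * ((z j : ℤˣ) : ℤ)) := by ring
          _ = _ := by rw [h5, one_mul]
  · -- another type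
    have hoi : o ≠ i := fun h => hio h.symm
    have hDne : ¬ (q : ℤ) ∣ (D : ℤ) := fun h1 => hio (hqDo.1 h1)
    have hDD := jac_sq hq hDne
    have hzo := zsq (z o)
    refine fin O i (Pat i q) z hz (fun j => jacobiSym (E j) q)
      (jacobiSym (D : ℤ) q * ((z o : ℤˣ) : ℤ)) ?_ ?_ hout
    · rcases jac_pm hq hDne with h2 | h2 <;> rcases zpm (z o) with h3 | h3 <;>
        rw [h2, h3] <;> norm_num
    · intro j hj hji
      by_cases hjo : j = o
      · rw [hjo]
        show jacobiSym (E o) q = _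
        rw [hEo]
        calc jacobiSym (D : ℤ) q = jacobiSym (D : ℤ) q * (((z o : ℤˣ) : ℤ) * ((z o : ℤˣ) : ℤ)) := by
              rw [hzo, mul_one]
          _ = _ := by ring
      · have h1 := hpair o ho j hj (fun h => hjo h.symm) hoi hji
        rw [← hEO j hj hjo, jacobiSym.mul_left] at h1
        show jacobiSym (E j) q = jacobiSym (D : ℤ) q * ((z o : ℤˣ) : ℤ) * ((z j : ℤˣ) : ℤ)
        calc jacobiSym (E j) q = (jacobiSym (E j) q * jacobiSym (D : ℤ) q) *
              jacobiSym (D : ℤ) q := by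
              rw [mul_assoc, hDD, mul_one]
          _ = _ := by
              rw [h1]
              ring

end Pool.Agent.SCY
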