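import Pool.Agent.SCX.ArithT
import Pool.Agent.Helper36.SecConv

/-!
SCY module ARS (MP_896029_ag; plan /team-store/scy_plan.md): the arithmetic consequences of a given section.

Proof: the same as `arithT` (SCX/ArithT.lean; copy it with its private lemmas); there the section is
`s0 : PiOneSection ℚ K Ω`, `s = s0.toData`.  The last conclusion: for `T` even let `k = ⟨T, h⟩`, `b k`, `r k` as there,
`ρ = incl ℚ K Ω (b k) * r k`; it is fixed by `s` (`hfix`), and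
`lead * ρ ^ 2 = lead * e * ∏ θ ∈ rts, (x - θ) = e * F_T(x)` (`F_T = ∏ j ∈ T, F j`; it splits over the algebraic closure with
simple roots `rts`, see `card_rts`, `mem_rts`, and how `arith_localT`/`exists_sqrt_prod` are proved for a lemma of the form
`aeval x F_T = lead * ∏ θ ∈ rts, (x - θ)`).  `UnivField ℚ K Ω` is `univCover ℚ K Ω` by definition, `AbsGal` the group of
automorphisms of `algebraicClosure ℚ Ω`, and `s.act σ` is `s.hom σ` (unfold the definition).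
-/

set_option linter.dupNamespace false

namespace Pool.Agent.SCY

open Polynomial Pool.Agent.Helper36 Pool.Agent.Helper19.Sec Pool.Agent.SCT Pool.Agent.SCX

variable {ι : Type} [Fintype ι] [DecidableEq ι]

private theorem aeval_map_aux {E : Type*} [Field E] {inst : Algebra ℚ E} (P : ℤ[X]) (z : E) :
    aeval z (P.map (Int.castRingHom ℚ)) = aeval z P := by
  rw [aeval_def, aeval_def, eval₂_map]
  congr 1
  exact RingHom.ext_int _ _

private theorem even_symm (T T' O : Finset ι) (h : Even (T ∩ O).card) (h' : Even (T' ∩ O).card) :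
    Even ((symmDiff T T') ∩ O).card := by
  have h1 : (symmDiff T T') ∩ O = ((T ∩ O) \ (T' ∩ O)) ∪ ((T' ∩ O) \ (T ∩ O)) := by
    ext x
    simp only [Finset.mem_inter, Finset.mem_symmDiff, Finset.mem_union, Finset.mem_sdiff]
    tauto
  have h2 : Disjoint ((T ∩ O) \ (T' ∩ O)) ((T' ∩ O) \ (T ∩ O)) := by
    rw [Finset.disjoint_left]
    intro x hx hx'
    exact (Finset.mem_sdiff.1 hx').2 (Finset.mem_sdiff.1 hx).1
  rw [h1, Finset.card_union_of_disjoint h2]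
  have h3 := Finset.card_sdiff_add_card_inter (T ∩ O) (T' ∩ O)
  have h4 := Finset.card_sdiff_add_card_inter (T' ∩ O) (T ∩ O)
  rw [Finset.inter_comm (T' ∩ O) (T ∩ O)] at h4
  rw [← h3] at h
  rw [← h4] at h'
  rw [Nat.even_add] at h h' ⊢
  tauto

private theorem even_deg (F : ι → ℤ[X]) (hF : ∀ j, F j ≠ 0) (O : Finset ι)
    (hO : ∀ j, j ∈ O ↔ Odd (F j).natDegree) (T : Finset ι) (h : Even (T ∩ O).card) :
    Even (∏ j ∈ T, F j).natDegree := by
  rw [natDegree_prod T F (fun j _ => hF j), Finset.even_sum_iff_even_card_odd]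
  have h1 : T.filter (fun x => Odd (F x).natDegree) = T ∩ O := by
    ext x
    rw [Finset.mem_filter, Finset.mem_inter, hO]
  rw [h1]
  exact h

private theorem root_uniq {E : Type*} [Field E] [Algebra ℚ E] (F : ι → ℤ[X])
    (hsepQ : ((∏ j, F j).map (Int.castRingHom ℚ)).Separable) (θ : E) (i j : ι)
    (hi : aeval θ (F i) = 0) (hj : aeval θ (F j) = 0) : i = j := by
  by_contra hne
  have h1 : F i * F j ∣ ∏ j, F j := by
    have h2 := Finset.prod_dvd_prod_of_subset {i, j} Finset.univ F (Finset.subset_univ _)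
    rw [Finset.prod_pair hne] at h2
    exact h2
  have h3 : ((F i * F j).map (Int.castRingHom ℚ)).Separable :=
    hsepQ.of_dvd (Polynomial.map_dvd _ h1)
  rw [Polynomial.map_mul] at h3
  obtain ⟨a, b, hab⟩ := h3.isCoprime
  have h4 := congrArg (aeval θ) hab
  rw [map_add, map_mul, map_mul, aeval_map_aux, aeval_map_aux, hi, hj, mul_zero, mul_zero,
    add_zero, map_one] at h4
  exact zero_ne_one h4

private theorem root_prod {E : Type*} [Field E] (F : ι → ℤ[X]) (θ : E) (T : Finset ι) :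
    aeval θ (∏ j ∈ T, F j) = 0 ↔ ∃ j ∈ T, aeval θ (F j) = 0 := by
  rw [map_prod, Finset.prod_eq_zero_iff]

private theorem fix_eq {K Ω : Type} [Field K] [Field Ω] [Algebra ℚ K] [Algebra K Ω]
    [Algebra ℚ Ω] [IsScalarTower ℚ K Ω] [Algebra.IsAlgebraic K Ω] [IsAlgClosed Ω] (x : K)
    (G : ℤ[X]) (hG : (G.map (Int.castRingHom ℚ)).Separable) (b : algebraicClosure ℚ Ω) (e : ℤ)
    (hb : b ^ 2 = (e : algebraicClosure ℚ Ω)) (r : univCover ℚ K Ω)
    (hr : r ^ 2 = ∏ θ ∈ rts (algebraicClosure ℚ Ω) G,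
      (algebraMap K (univCover ℚ K Ω) x - incl ℚ K Ω θ)) :
    algebraMap K (univCover ℚ K Ω) (G.leadingCoeff : K) * (incl ℚ K Ω b * r) ^ 2 =
      algebraMap K (univCover ℚ K Ω) ((e : K) * aeval x G) := by
  have hpoly : G.map (algebraMap ℤ (algebraicClosure ℚ Ω)) =
      C (G.leadingCoeff : algebraicClosure ℚ Ω) *
        ∏ θ ∈ rts (algebraicClosure ℚ Ω) G, (X - C θ) := by
    apply Polynomial.funext
    intro z
    rw [eval_map_algebraMap, prod_rts hG z, eval_mul, eval_C, eval_prod]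
    simp
  have h1 := congrArg (Polynomial.eval₂ (incl ℚ K Ω) (algebraMap K (univCover ℚ K Ω) x)) hpoly
  rw [eval₂_map, eval₂_mul, eval₂_C, eval₂_finsetProd] at h1
  simp only [eval₂_sub, eval₂_X, eval₂_C] at h1
  rw [← hr, map_intCast] at h1
  have h2 : Polynomial.eval₂ ((incl ℚ K Ω).comp (algebraMap ℤ (algebraicClosure ℚ Ω)))
      (algebraMap K (univCover ℚ K Ω) x) G = algebraMap K (univCover ℚ K Ω) (aeval x G) := by
    rw [aeval_def, hom_eval₂]
    congr 1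
    exact RingHom.ext_int _ _
  rw [h2] at h1
  rw [mul_pow, ← map_pow, hb, map_intCast, map_intCast, map_mul, map_intCast, h1]
  ring

theorem arithS (F : ι → ℤ[X]) (hPeven : Even (∏ j, F j).natDegree)
    (h6 : 6 ≤ (∏ j, F j).natDegree) (hsepQ : ((∏ j, F j).map (Int.castRingHom ℚ)).Separable)
    (O : Finset ι) (hO : ∀ j, j ∈ O ↔ Odd (F j).natDegree) :
    ∃ B : ℕ, 2 ≤ B ∧ ∀ d : ℤ, Squarefree d →
      ∀ (K Ω : Type) [Field K] [Field Ω] [Algebra ℚ K] [Algebra K Ω] [Algebra ℚ Ω]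
        [IsScalarTower ℚ K Ω] [IsAlgClosure K Ω] (x y : K), Transcendental ℚ x →
        (d : K) * y ^ 2 = aeval x (∏ j, F j) → ∀ s0 : PiOneSection ℚ K Ω,
      ∃ e : Finset ι → ℤ, (∀ T, Squarefree (e T)) ∧
        (∀ T T' : Finset ι, Even (T ∩ O).card → Even (T' ∩ O).card →
          IsSquare (e T * e T' * e (symmDiff T T'))) ∧
        (∀ q : ℕ, q.Prime → B < q →
          (¬ (q : ℤ) ∣ d → ∀ T, Even (T ∩ O).card → ¬ (q : ℤ) ∣ e T) ∧
          ((q : ℤ) ∣ d → ∃ i : ι, ∃ z : ι → ℤˣ, z ∈ pat F i q ∧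
            ∀ T, Even (T ∩ O).card → (i ∈ T → (q : ℤ) ∣ e T) ∧
              (i ∉ T → ¬ (q : ℤ) ∣ e T ∧ jacobiSym (e T) q = ∏ j ∈ T, ((z j : ℤˣ) : ℤ)))) ∧
        ∀ T, Even (T ∩ O).card → ∃ ρ : UnivField ℚ K Ω, (∀ σ, s0.hom σ ρ = ρ) ∧
          algebraMap K (UnivField ℚ K Ω) ((∏ j ∈ T, F j).leadingCoeff : K) * ρ ^ 2 =
            algebraMap K (UnivField ℚ K Ω) ((e T : K) * aeval x (∏ j ∈ T, F j)) := by
  classical
  obtain ⟨N, hN⟩ := exists_sep_bound (∏ j, F j) hsepQ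
  have hsepQ' := hsepQ
  have hPeven' := hPeven
  have h6' := h6
  set P : ℤ[X] := ∏ j, F j with hP
  have hP0 : P ≠ 0 := by
    intro h0
    rw [h0, natDegree_zero] at h6
    omega
  have hlead : P.leadingCoeff ≠ 0 := leadingCoeff_ne_zero.mpr hP0
  refine ⟨N + P.leadingCoeff.natAbs + 2, by omega, ?_⟩
  intro d hd K Ω _ _ _ _ _ _ _ x y hx hxy s0
  have hclosed : IsAlgClosed Ω := IsAlgClosure.isAlgClosed K
  have halg : Algebra.IsAlgebraic K Ω := IsAlgClosure.isAlgebraic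
  let s : SectionData ℚ K Ω := s0.toData
  have hF0 : ∀ j, F j ≠ 0 := fun j h0 =>
    hP0 (zero_dvd_iff.mp (h0 ▸ Finset.dvd_prod_of_mem F (Finset.mem_univ j)))
  have hdvd : ∀ T : Finset ι, (∏ j ∈ T, F j) ∣ P := fun T =>
    Finset.prod_dvd_prod_of_subset T Finset.univ F (Finset.subset_univ _)
  have hG0 : ∀ T : Finset ι, (∏ j ∈ T, F j) ≠ 0 := fun T =>
    Finset.prod_ne_zero_iff.2 fun j _ => hF0 j
  have hsepj : ∀ T : Finset ι, ((∏ j ∈ T, F j).map (Int.castRingHom ℚ)).Separable := fun T =>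
    hsepQ.of_dvd (Polynomial.map_dvd _ (hdvd T))
  have hd0 : (d : ℚ) ≠ 0 := by exact_mod_cast hd.ne_zero
  have hxy' : algebraMap ℚ K (d : ℚ) * y ^ 2 = aeval x (P.map (Int.castRingHom ℚ)) := by
    have h1 : aeval x (P.map (Int.castRingHom ℚ)) = aeval x P := aeval_map_aux P x
    rw [h1, ← hxy, map_intCast]
  have hdeg : ∀ k : {T : Finset ι // Even (T ∩ O).card}, Even (∏ j ∈ k.1, F j).natDegree :=
    fun k => even_deg F hF0 O hO k.1 k.2
  have hcard : ∀ k : {T : Finset ι // Even (T ∩ O).card},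
      Even (rts (algebraicClosure ℚ Ω) (∏ j ∈ k.1, F j)).card := by
    intro k
    rw [card_rts (hsepj k.1)]
    exact hdeg k
  have hr : ∀ k : {T : Finset ι // Even (T ∩ O).card}, ∃ r : univCover ℚ K Ω,
      r ^ 2 = ∏ θ ∈ rts (algebraicClosure ℚ Ω) (∏ j ∈ k.1, F j),
      (algebraMap K (univCover ℚ K Ω) x - incl ℚ K Ω θ) := by
    intro k
    refine exists_sqrt_prod (P.map (Int.castRingHom ℚ)) hsepQ (d : ℚ) hd0 x y hx hxy' _ ?_ (hcard k)
    intro θ hθ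
    have h1 : aeval θ (∏ j ∈ k.1, F j) = 0 := (mem_rts (hG0 k.1) θ).mp hθ
    obtain ⟨g, hg⟩ := hdvd k.1
    have h2 : aeval θ P = 0 := by rw [hg, map_mul, h1, zero_mul]
    exact (aeval_map_aux P θ).trans h2
  choose r hr using hr
  have hstab : ∀ (T : Finset ι) (σ : algebraicClosure ℚ Ω ≃ₐ[ℚ] algebraicClosure ℚ Ω),
      ∀ θ ∈ rts (algebraicClosure ℚ Ω) (∏ j ∈ T, F j),
        σ θ ∈ rts (algebraicClosure ℚ Ω) (∏ j ∈ T, F j) := by
    intro T σ θ hθ
    rw [mem_rts (hG0 T)] at hθ ⊢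
    have h1 := Polynomial.aeval_algHom_apply
      (RingHom.toIntAlgHom (σ : algebraicClosure ℚ Ω →+* algebraicClosure ℚ Ω)) θ (∏ j ∈ T, F j)
    rw [hθ, map_zero] at h1
    exact h1
  have hb : ∀ k : {T : Finset ι // Even (T ∩ O).card},
      ∃ (b : algebraicClosure ℚ Ω) (e : ℤ), Squarefree e ∧
      b ^ 2 = (e : algebraicClosure ℚ Ω) ∧ ∀ σ, s.act σ (incl ℚ K Ω b * r k) =
        incl ℚ K Ω b * r k := by
    intro k
    exact exists_b s x hx (rts (algebraicClosure ℚ Ω) (∏ j ∈ k.1, F j)) (hstab k.1) (r k) (hr k)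
  choose b e hesq hbe hfix using hb
  refine ⟨fun T => if h : Even (T ∩ O).card then e ⟨T, h⟩ else 1, ?_, ?_, ?_, ?_⟩
  · intro T
    simp only
    split_ifs with h
    · exact hesq ⟨T, h⟩
    · exact squarefree_one
  · intro T T' hT hT'
    have hTT := even_symm T T' O hT hT'
    simp only [dif_pos hT, dif_pos hT', dif_pos hTT]
    have hrs : rts (algebraicClosure ℚ Ω) (∏ j ∈ symmDiff T T', F j) =
        symmDiff (rts (algebraicClosure ℚ Ω) (∏ j ∈ T, F j))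
          (rts (algebraicClosure ℚ Ω) (∏ j ∈ T', F j)) := by
      ext θ
      rw [Finset.mem_symmDiff, mem_rts (hG0 _), mem_rts (hG0 _), mem_rts (hG0 _), root_prod,
        root_prod, root_prod]
      constructor
      · rintro ⟨j, hj, hjθ⟩
        rw [Finset.mem_symmDiff] at hj
        rcases hj with ⟨hj1, hj2⟩ | ⟨hj1, hj2⟩
        · refine Or.inl ⟨⟨j, hj1, hjθ⟩, ?_⟩
          rintro ⟨i, hi, hiθ⟩
          exact hj2 (root_uniq F hsepQ' θ i j hiθ hjθ ▸ hi)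
        · refine Or.inr ⟨⟨j, hj1, hjθ⟩, ?_⟩
          rintro ⟨i, hi, hiθ⟩
          exact hj2 (root_uniq F hsepQ' θ i j hiθ hjθ ▸ hi)
      · rintro (⟨⟨j, hj, hjθ⟩, hn⟩ | ⟨⟨j, hj, hjθ⟩, hn⟩)
        · exact ⟨j, Finset.mem_symmDiff.2 (Or.inl ⟨hj, fun h => hn ⟨j, h, hjθ⟩⟩), hjθ⟩
        · exact ⟨j, Finset.mem_symmDiff.2 (Or.inr ⟨hj, fun h => hn ⟨j, h, hjθ⟩⟩), hjθ⟩
    have hr3 := hr ⟨symmDiff T T', hTT⟩
    rw [show (⟨symmDiff T T', hTT⟩ : {T : Finset ι // Even (T ∩ O).card}).1 = symmDiff T T' from rfl,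
      hrs] at hr3
    exact mul_square s x hx (rts (algebraicClosure ℚ Ω) (∏ j ∈ T, F j))
      (rts (algebraicClosure ℚ Ω) (∏ j ∈ T', F j)) (hstab T) (hstab T') (r ⟨T, hT⟩) (r ⟨T', hT'⟩)
      (r ⟨symmDiff T T', hTT⟩) (hr ⟨T, hT⟩) (hr ⟨T', hT'⟩) hr3 (b ⟨T, hT⟩) (b ⟨T', hT'⟩)
      (b ⟨symmDiff T T', hTT⟩) _ _ _ (hbe _) (hbe _) (hbe _) (hfix _) (hfix _) (hfix _)
  · intro q hq hBq
    have hq2 : q ≠ 2 := by omega
    have hl : ¬ (q : ℤ) ∣ P.leadingCoeff := by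
      intro hdvd
      have h1 := Int.natAbs_dvd_natAbs.mpr hdvd
      rw [Int.natAbs_natCast] at h1
      have h2 := Nat.le_of_dvd (Int.natAbs_pos.mpr hlead) h1
      omega
    have hloc := arith_localT s F hPeven' h6' hsepQ' q hq hq2 hl (hN q hq (by omega)) d hd x y hx hxy
      (fun k : {T : Finset ι // Even (T ∩ O).card} => k.1) hdeg e hesq b hbe r hr hfix
    constructor
    · intro hqd T hT
      simp only [dif_pos hT]
      exact hloc.1 hqd ⟨T, hT⟩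
    · intro hqd
      obtain ⟨i, z, hz, hk⟩ := hloc.2 hqd
      refine ⟨i, z, hz, fun T hT => ?_⟩
      simp only [dif_pos hT]
      exact hk ⟨T, hT⟩
  · intro T hT
    simp only [dif_pos hT]
    refine ⟨incl ℚ K Ω (b ⟨T, hT⟩) * r ⟨T, hT⟩, fun σ => hfix ⟨T, hT⟩ σ, ?_⟩
    exact fix_eq x (∏ j ∈ T, F j) (hsepj T) (b ⟨T, hT⟩) (e ⟨T, hT⟩) (hbe ⟨T, hT⟩) (r ⟨T, hT⟩)
      (hr ⟨T, hT⟩)


end Pool.Agent.SCY
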