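import Pool.Agent.SCX.Unl

/-!
SCY module UNLU (MP_896029_ag; plan /team-store/scy_plan.md): the contribution of a set `U` of large variables,
with constants which do not depend on the data `X`.

Proof: as `seriesX`, `innerX`, `unlX` (SCX/Unl.lean).  The only point is that the constant of
`mertens_of_dirichlet` (SCT/Mert.lean) is `|C0| + 3 * G`: restate it as `mertensU` (same proof; the private lemma
`sum_log_div_le` there is to be copied).  `G = U.card ≤ Fintype.card (Idx ι)`.  Then with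
`mul_bound (Fintype.card (Idx ι))` (uniform in the function): the sum over squarefree `n ≤ T`, `T ≥ 3`, is at most
`C2 * exp (C0 + 3 G) * T * (log T) ^ (-δ)`.  Finally `innerX` (copy) and `unl_one` of SCT/Unl (used as it is).
-/

set_option linter.dupNamespace false

namespace Pool.Agent.SCY

open Finset Pool.Agent.SCT Pool.Agent.SCX

private lemma sum_log_div_le (Y : ℕ) (hY : 1 ≤ Y) :
    ∑ q ∈ (range (Y + 1)).filter Nat.Prime, Real.log q / q ≤ Real.log Y + 2 := by
  have h := Pool.Agent.Helper35.mertens_upper Y hY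
  refine le_trans (le_of_eq ?_) h
  apply Finset.sum_congr _ fun _ _ => rfl
  ext q
  rw [Pool.Agent.Helper35.mem_prm, Finset.mem_filter, Finset.mem_range]
  constructor
  · rintro ⟨h1, h2⟩
    exact ⟨⟨h2.pos, by omega⟩, h2⟩
  · rintro ⟨⟨h1, h2⟩, h3⟩
    exact ⟨by omega, h3⟩

theorem mertensU (g : ℕ → ℝ) (G κ C0 : ℝ) (hg0 : ∀ q, 0 ≤ g q) (hgG : ∀ q, g q ≤ G)
    (h : ∀ s : ℝ, 1 < s → s ≤ 2 → ∀ Y : ℕ,
      ∑ q ∈ (range (Y + 1)).filter Nat.Prime, g q * (q : ℝ) ^ (-s) ≤
        κ * Real.log (1 / (s - 1)) + C0) (Y : ℕ) (hY : 3 ≤ Y) :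
    ∑ q ∈ (range (Y + 1)).filter Nat.Prime, g q / q ≤ κ * Real.log (Real.log Y) + (|C0| + 3 * G) := by
  have hG : 0 ≤ G := (hg0 0).trans (hgG 0)
  have hY3 : (3 : ℝ) ≤ Y := by exact_mod_cast hY
  have hY0 : (0 : ℝ) < Y := by linarith
  have hlog : 1 ≤ Real.log Y := by
    rw [Real.le_log_iff_exp_le hY0]
    have := Real.exp_one_lt_d9
    linarith
  have hlog0 : 0 < Real.log Y := by linarith
  set s : ℝ := 1 + 1 / Real.log Y with hs
  have hs1 : 1 < s := by
    have : 0 < 1 / Real.log Y := by positivity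
    linarith
  have hs2 : s ≤ 2 := by
    have : 1 / Real.log Y ≤ 1 := by
      rw [div_le_one hlog0]; exact hlog
    linarith
  have h1 := h s hs1 hs2 Y
  have hs3 : s - 1 = 1 / Real.log Y := by rw [hs]; ring
  have hs4 : 1 / (s - 1) = Real.log Y := by rw [hs3, one_div_one_div]
  rw [hs4] at h1
  have hterm : ∀ q ∈ (range (Y + 1)).filter Nat.Prime,
      g q / q ≤ g q * (q : ℝ) ^ (-s) + G * (1 / Real.log Y) * (Real.log q / q) := by
    intro q hq
    rw [Finset.mem_filter] at hq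
    have hq1 : (1 : ℝ) < q := by exact_mod_cast hq.2.one_lt
    have hq0 : (0 : ℝ) < q := by linarith
    have e1 : (q : ℝ) ^ (-s) = (1 / q) * Real.exp (-((s - 1) * Real.log q)) := by
      rw [Real.rpow_def_of_pos hq0, one_div, ← Real.exp_log hq0, ← Real.exp_neg, ← Real.exp_add,
        Real.log_exp]
      congr 1
      ring
    have e2 : 1 - (s - 1) * Real.log q ≤ Real.exp (-((s - 1) * Real.log q)) := by
      have := Real.add_one_le_exp (-((s - 1) * Real.log q))
      linarith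
    have hlq : 0 ≤ Real.log q := Real.log_nonneg hq1.le
    have e3 : g q * ((1 / q) * (1 - (s - 1) * Real.log q)) ≤ g q * (q : ℝ) ^ (-s) := by
      rw [e1]
      apply mul_le_mul_of_nonneg_left _ (hg0 q)
      exact mul_le_mul_of_nonneg_left e2 (by positivity)
    have e4 : g q * ((s - 1) * Real.log q / q) ≤ G * ((s - 1) * Real.log q / q) := by
      apply mul_le_mul_of_nonneg_right (hgG q)
      apply div_nonneg _ hq0.le
      exact mul_nonneg (by linarith) hlq
    have e5 : g q / q = g q * ((1 / q) * (1 - (s - 1) * Real.log q)) +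
        g q * ((s - 1) * Real.log q / q) := by
      field_simp
      ring
    rw [e5, ← hs3]
    have e6 : G * (s - 1) * (Real.log q / q) = G * ((s - 1) * Real.log q / q) := by ring
    rw [e6]
    linarith
  refine (Finset.sum_le_sum hterm).trans ?_
  rw [Finset.sum_add_distrib, ← Finset.mul_sum]
  have h2 := sum_log_div_le Y (by omega)
  have h3 : G * (1 / Real.log Y) * ∑ q ∈ (range (Y + 1)).filter Nat.Prime, Real.log q / q ≤
      3 * G := by
    calc G * (1 / Real.log Y) * ∑ q ∈ (range (Y + 1)).filter Nat.Prime, Real.log q / q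
        ≤ G * (1 / Real.log Y) * (Real.log Y + 2) := by gcongr
      _ = G * (1 + 2 * (1 / Real.log Y)) := by field_simp
      _ ≤ G * 3 := by
          apply mul_le_mul_of_nonneg_left _ hG
          have : 1 / Real.log Y ≤ 1 := by
            rw [div_le_one hlog0]; exact hlog
          linarith
      _ = 3 * G := by ring
  have h4 := le_abs_self C0
  linarith

private theorem seriesU (C2 : ℝ) (hC2 : 0 ≤ C2) (G0 : ℝ)
    (h2 : ∀ g : ℕ → ℝ, (∀ q, 0 ≤ g q) → (∀ q, g q ≤ G0) → ∀ Y : ℕ, 2 ≤ Y →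
      ∑ n ∈ (Icc 1 Y).filter Squarefree, ∏ q ∈ n.primeFactors, g q ≤
        C2 * Y / Real.log Y * Real.exp (∑ q ∈ (range (Y + 1)).filter Nat.Prime, g q / q))
    (g : ℕ → ℝ) (hg0 : ∀ q, 0 ≤ g q) (hgG : ∀ q, g q ≤ G0) (δ C0 : ℝ)
    (h : ∀ s : ℝ, 1 < s → s ≤ 2 → ∀ Y : ℕ,
      ∑ q ∈ (range (Y + 1)).filter Nat.Prime, g q * (q : ℝ) ^ (-s) ≤
        (1 - δ) * Real.log (1 / (s - 1)) + C0) (T : ℕ) (hT : 3 ≤ T) :
    ∑ n ∈ (Icc 1 T).filter Squarefree, ∏ q ∈ n.primeFactors, g q ≤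
        (C2 * Real.exp (|C0| + 3 * G0)) * T * (Real.log T) ^ (-δ) := by
  have hT0 : (0 : ℝ) < T := by exact_mod_cast (by omega : 0 < T)
  have hlogT : 0 < Real.log T := Real.log_pos (by exact_mod_cast (by omega : 1 < T))
  refine (h2 g hg0 hgG T (by omega)).trans ?_
  have h3 := mertensU g G0 (1 - δ) C0 hg0 hgG h T hT
  calc C2 * T / Real.log T * Real.exp (∑ q ∈ (range (T + 1)).filter Nat.Prime, g q / q)
      ≤ C2 * T / Real.log T * Real.exp ((1 - δ) * Real.log (Real.log T) + (|C0| + 3 * G0)) := by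
        refine mul_le_mul_of_nonneg_left ?_ (by positivity)
        exact Real.exp_le_exp.2 h3
    _ = (C2 * Real.exp (|C0| + 3 * G0)) * T * (Real.log T) ^ (-δ) := by
        rw [Real.exp_add]
        have e1 : Real.exp ((1 - δ) * Real.log (Real.log T)) =
            Real.log T * (Real.log T) ^ (-δ) := by
          rw [Real.rpow_def_of_pos hlogT]
          nth_rewrite 2 [← Real.exp_log hlogT]
          rw [← Real.exp_add]
          congr 1
          ring
        rw [e1]
        field_simp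

private theorem innerU {ι : Type} [Fintype ι] [DecidableEq ι] [Nonempty ι] (X : CData ι) (δ : ℝ) (hδ : 0 < δ) (hδ1 : δ ≤ 1)
    (U : Finset (Idx ι)) (C : ℝ) (hC : 0 ≤ C) (h : ∀ T : ℕ, 3 ≤ T →
      ∑ n ∈ (Icc 1 T).filter Squarefree, ∏ q ∈ n.primeFactors, ∑ v ∈ U, uw X v q ≤
        C * T * (Real.log T) ^ (-δ)) (Y K : ℕ) (hY : 3 ≤ Y) (hK : 1 ≤ K) (hKY : K * K ≤ Y) :
      ∑ n ∈ (Icc 1 (Y / K)).filter Squarefree, ∏ q ∈ n.primeFactors, ∑ v ∈ U, uw X v q ≤
        (12 * C) * ((Y : ℝ) / K) * (Real.log Y) ^ (-δ) := by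
  have hY0 : (0 : ℝ) < Y := by exact_mod_cast (by omega : 0 < Y)
  have hK0 : (0 : ℝ) < K := by exact_mod_cast (by omega : 0 < K)
  set T := Y / K with hT
  have hTK : K ≤ T := by
    rw [hT]; exact (Nat.le_div_iff_mul_le (by omega)).2 hKY
  have hT1 : 1 ≤ T := hK.trans hTK
  have hYT : Y < K * (T + 1) := by rw [hT]; exact Nat.lt_mul_div_succ Y (by omega)
  have hTYK : (T : ℝ) ≤ Y / K := by
    rw [le_div_iff₀ hK0]
    exact_mod_cast (Nat.div_mul_le_self Y K)
  set T' := max T 3 with hT'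
  have hT'3 : 3 ≤ T' := le_max_right _ _
  have hTT' : T ≤ T' := le_max_left _ _
  have hT'T : (T' : ℝ) ≤ 3 * T := by
    have : T' ≤ 3 * T := by
      rw [hT']; exact max_le (by omega) (by omega)
    exact_mod_cast this
  have hpow : Y ≤ T' ^ 4 := by
    have h1 : Y < T * (T + 1) := lt_of_lt_of_le hYT (Nat.mul_le_mul_right _ hTK)
    have h2 : T * (T + 1) ≤ T' * (T' + 1) := Nat.mul_le_mul hTT' (by omega)
    have h3 : T' + 1 ≤ T' ^ 3 := by
      have : T' ^ 3 = T' * T' * T' := by ring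
      rw [this]
      nlinarith
    calc Y ≤ T' * (T' + 1) := by omega
      _ ≤ T' * T' ^ 3 := Nat.mul_le_mul_left _ h3
      _ = T' ^ 4 := by ring
  have hlogY : 0 < Real.log Y := Real.log_pos (by exact_mod_cast (by omega : 1 < Y))
  have hlogT' : Real.log Y / 4 ≤ Real.log T' := by
    have h1 : Real.log Y ≤ Real.log ((T' : ℝ) ^ 4) :=
      Real.log_le_log hY0 (by exact_mod_cast hpow)
    rw [Real.log_pow] at h1
    push_cast at h1
    linarith
  calc ∑ n ∈ (Icc 1 T).filter Squarefree, ∏ q ∈ n.primeFactors, ∑ v ∈ U, uw X v q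
      ≤ ∑ n ∈ (Icc 1 T').filter Squarefree, ∏ q ∈ n.primeFactors, ∑ v ∈ U, uw X v q := by
        refine sum_le_sum_of_subset_of_nonneg ?_ ?_
        · exact filter_subset_filter _ (Icc_subset_Icc_right hTT')
        · intro n _ _
          exact prod_nonneg fun q _ => sum_nonneg fun v _ => uw_nonneg X v q
    _ ≤ C * T' * (Real.log T') ^ (-δ) := h T' hT'3
    _ ≤ C * (3 * (Y / K)) * (4 * (Real.log Y) ^ (-δ)) := by
        refine mul_le_mul ?_ ?_ (Real.rpow_nonneg (by linarith) _) (by positivity)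
        · refine mul_le_mul_of_nonneg_left ?_ hC
          linarith
        · calc (Real.log T') ^ (-δ) ≤ (Real.log Y / 4) ^ (-δ) :=
                Real.rpow_le_rpow_of_nonpos (by positivity) hlogT' (by linarith)
            _ = (Real.log Y) ^ (-δ) * (1 / 4 : ℝ) ^ (-δ) := by
                rw [← Real.mul_rpow hlogY.le (by norm_num)]
                congr 1
                ring
            _ ≤ (Real.log Y) ^ (-δ) * 4 := by
                refine mul_le_mul_of_nonneg_left ?_ (Real.rpow_nonneg hlogY.le _)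
                rw [one_div, Real.inv_rpow (by norm_num), Real.rpow_neg (by norm_num), inv_inv]
                calc (4 : ℝ) ^ δ ≤ (4 : ℝ) ^ (1 : ℝ) :=
                      Real.rpow_le_rpow_of_exponent_le (by norm_num) hδ1
                  _ = 4 := Real.rpow_one 4
            _ = 4 * (Real.log Y) ^ (-δ) := mul_comm _ _
    _ = 12 * C * ((Y : ℝ) / K) * (Real.log Y) ^ (-δ) := by ring

theorem unlU (ι : Type) [Fintype ι] [DecidableEq ι] [Nonempty ι] (δ : ℝ) (hδ : 0 < δ) (hδ1 : δ ≤ 1) :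
    ∃ C : ℝ, 0 ≤ C ∧ ∀ (X : CData ι) (U : Finset (Idx ι)) (C0 : ℝ), 0 ≤ C0 →
      (∀ s : ℝ, 1 < s → s ≤ 2 → ∀ Y : ℕ,
        ∑ q ∈ (range (Y + 1)).filter Nat.Prime, (∑ v ∈ U, uw X v q) * (q : ℝ) ^ (-s) ≤
        (1 - δ) * Real.log (1 / (s - 1)) + C0) →
      ∀ Y Z : ℕ, 3 ≤ Y → 1 ≤ Z → ((Z : ℝ) ^ (2 * Fintype.card (Idx ι))) ≤ Y →
      ∑ D ∈ (Fintype.piFinset fun _ : Idx ι => Icc 1 Y).filter
        (fun D => ∏ v, D v ≤ Y ∧ ∀ v, v ∉ U → D v ≤ Z), |X.Phi D| ≤
      C * Real.exp C0 * Y * (Real.log Y) ^ (-δ) * (1 + Real.log Z) ^ (Fintype.card (Idx ι)) := by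
  classical
  set G0 : ℝ := (Fintype.card (Idx ι) : ℝ) with hG0
  obtain ⟨C2, hC2, h2⟩ := mul_bound G0 (Nat.cast_nonneg _)
  refine ⟨12 * (C2 * Real.exp (3 * G0)), by positivity, ?_⟩
  intro X U C0 hC0 hden Y Z hY hZ hZY
  have hg0 : ∀ q, 0 ≤ ∑ v ∈ U, uw X v q := fun q => sum_nonneg fun v _ => uw_nonneg X v q
  have hgG : ∀ q, ∑ v ∈ U, uw X v q ≤ G0 := by
    intro q
    calc ∑ v ∈ U, uw X v q ≤ ∑ v ∈ U, (1 : ℝ) := sum_le_sum fun v _ => uw_le_one X v q
      _ = U.card := by simp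
      _ ≤ G0 := by
          rw [hG0]
          exact_mod_cast U.card_le_univ
  have hser := seriesU C2 hC2 G0 h2 (fun q => ∑ v ∈ U, uw X v q) hg0 hgG δ C0 hden
  rw [abs_of_nonneg hC0] at hser
  have hC : 0 ≤ C2 * Real.exp (C0 + 3 * G0) := by positivity
  have hin := innerU X δ hδ hδ1 U (C2 * Real.exp (C0 + 3 * G0)) hC hser
  refine (unl_one X δ U (12 * (C2 * Real.exp (C0 + 3 * G0))) (by positivity) hin
    Y Z hY hZ hZY).trans (le_of_eq ?_)
  rw [Real.exp_add]
  ring

end Pool.Agent.SCY
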