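import Pool.Agent.SCY.LnkU
import Pool.Agent.SCY.UnlU
import Pool.Agent.SCT.Count

/-!
SCY module BOX (MP_896029_ag; plan /team-store/scy_plan.md): the number of allowed tuples all of whose entries
are large, uniformly in the data `X`.

Proof (compare `count`, SCT/Count.lean; `cntKs`, `cnt_mem_Ks`, `cnt_Ks_card`, `cnt_vbox_prod`, `cnt_unl` can be used).
(1) Let `S` be the set of the theorem.  Every `D ∈ S` has all `D i ≥ 1`; with `k i = Nat.log 2 (D i)`: `D ∈ box k`,
`∑ k ≤ Nat.log 2 N`, `K ≤ k i` for all `i` (`2 ^ K ≤ D i`).  So (as in `cnt_le`)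
`S.ncard ≤ ∑ k ∈ Ks, ∑ D ∈ vbox k, X.Phi D` with `Ks = (cntKs ι (Nat.log 2 N)).filter (fun k => ∀ i, K ≤ k i)` (use `expand`).
(2) Split according to `U = large Z D` (there are at most `2 ^ card (Idx ι)` sets).
(3) `U` contains a linked pair: `lnkU`, total at most `(L + 1) ^ m * C * N * (1 + L) ^ A * Z ^ (-1/6)`, `L = Nat.log 2 N ≤ 2 log N`.
(4) No linked pair and there is `i0` with no `v ∈ U`, `v.i = i0`: the sum over `D` is empty, because
`2 ^ K ≤ 2 ^ (k i0) ≤ blk D i0 = ∏ v with v.i = i0, D v ≤ Z ^ card (Idx ι) < 2 ^ K`.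
(5) No linked pair and every `i` occurs: then for every `i` there is exactly one `v ∈ U` with `v.i = i`: if
`(i, A), (i, A') ∈ U` and `j ≠ i`, take `(j, B) ∈ U`; unlinked means `j ∈ A ↔ i ∈ B ↔ j ∈ A'`, so `A = A'`.  Hence
`∑ v ∈ U, uw X v q = ∑ i, (X.Pat i q).card / 2 ^ (card ι - 1)`, and `unlU` applies with `Y = 2 ^ m * N` after the inequality
`sum of absolute values over the boxes ≤ the sum in unlU` (`cnt_unl`; the sum over the subset `Ks` of `cntKs` of
nonnegative terms is smaller).  `(log (2 ^ m * N)) ^ (-δ) ≤ (log N) ^ (-δ)`.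
-/

set_option linter.dupNamespace false

namespace Pool.Agent.SCY

open Finset Pool.Agent.SCT

/-- one variable of each type -/
theorem unl_all {ι : Type} [Fintype ι] [DecidableEq ι] (X : CData ι) (U : Finset (Idx ι))
    (hU : ∀ v ∈ U, ∀ w ∈ U, ¬ Linked v w) (hall : ∀ i, ∃ v ∈ U, v.i = i) (q : ℕ) :
    ∑ v ∈ U, uw X v q = (∑ i, ((X.Pat i q).card : ℝ)) / 2 ^ (Fintype.card ι - 1) := by
  have hinj : ∀ v ∈ U, ∀ w ∈ U, v.i = w.i → v = w := by
    intro v hv w hw hvw
    have hA : v.A = w.A := by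
      ext j
      obtain ⟨z, hz, hzj⟩ := hall j
      have h1 := hU v hv z hz
      have h2 := hU w hw z hz
      unfold Linked at h1 h2
      rw [not_not] at h1 h2
      rw [hzj] at h1 h2
      rw [h1, h2, hvw]
    exact Subtype.ext (Prod.ext hvw hA)
  rw [sum_div]
  unfold uw
  refine Finset.sum_nbij (fun v => v.i) (fun v _ => mem_univ _) ?_ ?_ (fun v _ => rfl)
  · intro v hv w hw h
    exact hinj v hv w hw h
  · intro i _
    obtain ⟨v, hv, hvi⟩ := hall i
    exact ⟨v, hv, hvi⟩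

theorem boxCount (ι : Type) [Fintype ι] [DecidableEq ι] [Nonempty ι] (δ : ℝ) (hδ : 0 < δ)
    (hδ1 : δ ≤ 1) : ∃ C A : ℝ, 0 ≤ C ∧ 0 ≤ A ∧ ∀ (X : CData ι) (C0 : ℝ), 0 ≤ C0 →
      (∀ s : ℝ, 1 < s → s ≤ 2 → ∀ Y : ℕ,
        ∑ q ∈ (range (Y + 1)).filter Nat.Prime, (∑ i, ((X.Pat i q).card : ℝ)) * (q : ℝ) ^ (-s) ≤
        2 ^ (Fintype.card ι - 1) * ((1 - δ) * Real.log (1 / (s - 1)) + C0)) →
      ∀ N Z K : ℕ, 3 ≤ N → 1 ≤ Z → ((Z : ℝ) ^ (2 * Fintype.card (Idx ι))) ≤ N →
        Z ^ (Fintype.card (Idx ι)) < 2 ^ K →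
      ({D : ι → ℕ | ∏ i, D i ≤ N ∧ (∀ i, 2 ^ K ≤ D i) ∧ X.Allowed D}.ncard : ℝ) ≤
        C * N * (Real.exp C0 * (Real.log N) ^ (-δ) * (1 + Real.log Z) ^ (Fintype.card (Idx ι)) +
          (1 + Real.log N) ^ A * (Z : ℝ) ^ (-(1 : ℝ) / 6)) := by
  classical
  obtain ⟨C1, hC1, hunl⟩ := unlU ι δ hδ hδ1
  obtain ⟨C2, A, hC2, hA, hlnk⟩ := lnkU ι
  set vN := Fintype.card (Idx ι) with hvN
  set m := Fintype.card ι with hm
  refine ⟨2 ^ vN * (C2 * 2 ^ ((m : ℝ) + A) + C1 * 2 ^ m), (m : ℝ) + A, by positivity,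
    by positivity, ?_⟩
  intro X C0 hC0 hden N Z K hN3 hZ1 hZN hZK
  have hN0 : N ≠ 0 := by omega
  have hNr3 : (3 : ℝ) ≤ N := by exact_mod_cast hN3
  have hNr : (0 : ℝ) < N := by linarith
  set L := Nat.log 2 N with hL
  have hlogN : 0 < Real.log N := Real.log_pos (by linarith)
  have hZlog : 0 ≤ Real.log (Z : ℝ) := Real.log_nonneg (by exact_mod_cast hZ1)
  set S : Set (ι → ℕ) := {D : ι → ℕ | ∏ i, D i ≤ N ∧ (∀ i, 2 ^ K ≤ D i) ∧ X.Allowed D} with hS
  set Ks : Finset (ι → ℕ) := (cntKs ι L).filter (fun k => ∀ i, K ≤ k i) with hKs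
  -- the first step
  have hstep : (S.ncard : ℝ) ≤ ∑ k ∈ Ks, ∑ D ∈ vbox k, X.Phi D := by
    set SS : Finset (ι → ℕ) := Ks.biUnion fun k => (box k).filter X.Allowed with hSS
    have h1 : S ⊆ ↑SS := by
      rintro D ⟨hD, hK, hAl⟩
      have hD0 : ∀ i, D i ≠ 0 := by
        intro i hi
        have := hK i
        rw [hi] at this
        have h2 : 0 < 2 ^ K := by positivity
        omega
      rw [Finset.mem_coe, hSS, Finset.mem_biUnion]
      refine ⟨fun i => Nat.log 2 (D i), ?_, ?_⟩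
      · rw [hKs, Finset.mem_filter, cnt_mem_Ks]
        refine ⟨?_, fun i => Nat.le_log_of_pow_le (by norm_num) (hK i)⟩
        apply Nat.le_log_of_pow_le (by norm_num)
        rw [← Finset.prod_pow_eq_pow_sum]
        calc ∏ i, 2 ^ Nat.log 2 (D i) ≤ ∏ i, D i :=
              Finset.prod_le_prod' fun i _ => Nat.pow_log_le_self 2 (hD0 i)
          _ ≤ N := hD
      · rw [Finset.mem_filter]
        refine ⟨?_, hAl⟩
        unfold Pool.Agent.SCT.box
        rw [Fintype.mem_piFinset]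
        intro i
        rw [Finset.mem_Ico]
        exact ⟨Nat.pow_log_le_self 2 (hD0 i), Nat.lt_pow_succ_log_self (by norm_num) _⟩
    have h2 : S.ncard ≤ ∑ k ∈ Ks, ((box k).filter X.Allowed).card := by
      calc S.ncard ≤ (↑SS : Set (ι → ℕ)).ncard :=
            Set.ncard_le_ncard h1 (Finset.finite_toSet _)
        _ = SS.card := Set.ncard_coe_finset _
        _ ≤ _ := Finset.card_biUnion_le
    calc (S.ncard : ℝ) ≤ ((∑ k ∈ Ks, ((box k).filter X.Allowed).card : ℕ) : ℝ) := by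
          exact_mod_cast h2
      _ = ∑ k ∈ Ks, ∑ D ∈ vbox k, X.Phi D := by
          push_cast
          refine Finset.sum_congr rfl fun k _ => ?_
          rw [← expand X k, Finset.card_filter]
          push_cast
          rfl
  -- split according to `U`
  have h1 : ∑ k ∈ Ks, ∑ D ∈ vbox k, X.Phi D =
      ∑ U : Finset (Idx ι), ∑ k ∈ Ks, ∑ D ∈ (vbox k).filter (fun D => large Z D = U), X.Phi D := by
    rw [Finset.sum_comm]
    refine Finset.sum_congr rfl fun k _ => ?_
    exact (Finset.sum_fiberwise (vbox k) (fun D => large Z D) X.Phi).symm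
  set B1 : ℝ := Real.exp C0 * (Real.log N) ^ (-δ) * (1 + Real.log Z) ^ vN with hB1
  set B2 : ℝ := (1 + Real.log N) ^ ((m : ℝ) + A) * (Z : ℝ) ^ (-(1 : ℝ) / 6) with hB2
  have hB1' : 0 ≤ B1 := by positivity
  have hB2' : 0 ≤ B2 := by positivity
  have hp2 : (0 : ℝ) ≤ 2 ^ ((m : ℝ) + A) := by positivity
  have h2 : ∀ U : Finset (Idx ι),
      ∑ k ∈ Ks, ∑ D ∈ (vbox k).filter (fun D => large Z D = U), X.Phi D ≤
        (C2 * 2 ^ ((m : ℝ) + A) + C1 * 2 ^ m) * N * (B1 + B2) := by
    intro U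
    by_cases hU : ∃ v ∈ U, ∃ w ∈ U, Linked v w
    · -- linked
      have h3 : ∀ k ∈ Ks, ∑ D ∈ (vbox k).filter (fun D => large Z D = U), X.Phi D ≤
          C2 * N * (1 + (L : ℝ)) ^ A * (Z : ℝ) ^ (-(1 : ℝ) / 6) := by
        intro k hk
        have hk2 := cnt_mem_Ks.mp (Finset.mem_filter.1 hk).1
        refine (le_abs_self _).trans ((hlnk X k U Z hZ1 hU).trans ?_)
        have h4 : (2 : ℝ) ^ (∑ i, k i) ≤ N := by
          calc (2 : ℝ) ^ (∑ i, k i) ≤ 2 ^ L := pow_le_pow_right₀ (by norm_num) hk2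
            _ ≤ N := by exact_mod_cast Nat.pow_log_le_self 2 hN0
        have h5 : (1 + ((∑ i, k i : ℕ) : ℝ)) ^ A ≤ (1 + (L : ℝ)) ^ A := by
          refine Real.rpow_le_rpow (by positivity) ?_ hA
          have : ((∑ i, k i : ℕ) : ℝ) ≤ L := by exact_mod_cast hk2
          linarith
        gcongr
      have hL1 : 1 + (L : ℝ) ≤ 2 * (1 + Real.log N) := by
        have h5 : (L : ℝ) * Real.log 2 ≤ Real.log N := by
          have h6 : (2 : ℝ) ^ L ≤ N := by
            exact_mod_cast Nat.pow_log_le_self 2 (by omega)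
          have h7 := Real.log_le_log (by positivity) h6
          rwa [Real.log_pow] at h7
        have h8 := Real.log_two_gt_d9
        have h9 : (0 : ℝ) ≤ (L : ℝ) := Nat.cast_nonneg _
        nlinarith
      have hL0 : 0 < 1 + (L : ℝ) := by positivity
      have h7 : (1 + (L : ℝ)) ^ m * (1 + (L : ℝ)) ^ A ≤
          2 ^ ((m : ℝ) + A) * (1 + Real.log N) ^ ((m : ℝ) + A) := by
        rw [← Real.rpow_natCast, ← Real.rpow_add hL0, ← Real.mul_rpow (by norm_num) (by linarith)]
        exact Real.rpow_le_rpow hL0.le hL1 (by positivity)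
      have hZ6 : 0 ≤ (Z : ℝ) ^ (-(1 : ℝ) / 6) := by positivity
      calc ∑ k ∈ Ks, ∑ D ∈ (vbox k).filter (fun D => large Z D = U), X.Phi D
          ≤ ∑ k ∈ Ks, C2 * N * (1 + (L : ℝ)) ^ A * (Z : ℝ) ^ (-(1 : ℝ) / 6) :=
            Finset.sum_le_sum h3
        _ = (Ks.card : ℝ) * (C2 * N * (1 + (L : ℝ)) ^ A * (Z : ℝ) ^ (-(1 : ℝ) / 6)) := by
            rw [Finset.sum_const, nsmul_eq_mul]
        _ ≤ (1 + (L : ℝ)) ^ m * (C2 * N * (1 + (L : ℝ)) ^ A * (Z : ℝ) ^ (-(1 : ℝ) / 6)) := by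
            have h6 : (Ks.card : ℝ) ≤ (1 + (L : ℝ)) ^ m := by
              have h8 : Ks.card ≤ (L + 1) ^ m :=
                (Finset.card_filter_le _ _).trans (cnt_Ks_card (ι := ι) L)
              rw [add_comm]
              exact_mod_cast h8
            gcongr
        _ = C2 * N * ((1 + (L : ℝ)) ^ m * (1 + (L : ℝ)) ^ A) * (Z : ℝ) ^ (-(1 : ℝ) / 6) := by ring
        _ ≤ C2 * N * (2 ^ ((m : ℝ) + A) * (1 + Real.log N) ^ ((m : ℝ) + A)) *
              (Z : ℝ) ^ (-(1 : ℝ) / 6) := by gcongr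
        _ = (C2 * 2 ^ ((m : ℝ) + A)) * N * (0 + B2) := by rw [hB2]; ring
        _ ≤ (C2 * 2 ^ ((m : ℝ) + A) + C1 * 2 ^ m) * N * (B1 + B2) := by
            gcongr
            have : 0 ≤ C1 * 2 ^ m := by positivity
            linarith
    · -- unlinked
      have hU' : ∀ v ∈ U, ∀ w ∈ U, ¬ Linked v w := by
        intro v hv w hw h
        exact hU ⟨v, hv, w, hw, h⟩
      by_cases hall : ∀ i, ∃ v ∈ U, v.i = i
      swap
      · -- a type is missing
        push Not at hall
        obtain ⟨i0, hi0⟩ := hall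
        have h3 : ∑ k ∈ Ks, ∑ D ∈ (vbox k).filter (fun D => large Z D = U), X.Phi D = 0 := by
          refine Finset.sum_eq_zero fun k hk => ?_
          refine Finset.sum_eq_zero fun D hD => ?_
          exfalso
          obtain ⟨hD1, hD2⟩ := Finset.mem_filter.1 hD
          have h4 : 2 ^ k i0 ≤ blk D i0 := by
            unfold vbox at hD1
            exact ((Finset.mem_filter.1 hD1).2 i0).1
          have h5 : blk D i0 ≤ Z ^ vN := by
            unfold blk
            calc ∏ v : Idx ι with v.i = i0, D v ≤ ∏ v : Idx ι with v.i = i0, Z := by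
                  refine Finset.prod_le_prod' fun v hv => ?_
                  have hvi := (Finset.mem_filter.1 hv).2
                  by_contra hcon
                  have hvU : v ∈ U := by
                    rw [← hD2]
                    unfold large
                    exact Finset.mem_filter.2 ⟨Finset.mem_univ _, not_le.1 hcon⟩
                  exact hi0 v hvU hvi
              _ = Z ^ (univ.filter (fun v : Idx ι => v.i = i0)).card := by
                  rw [Finset.prod_const]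
              _ ≤ Z ^ vN := Nat.pow_le_pow_right hZ1 (Finset.card_le_univ _)
          have h6 : K ≤ k i0 := (Finset.mem_filter.1 hk).2 i0
          have h7 : 2 ^ K ≤ 2 ^ k i0 := Nat.pow_le_pow_right (by norm_num) h6
          omega
        rw [h3]
        positivity
      · -- all types occur
        have hden' : ∀ s : ℝ, 1 < s → s ≤ 2 → ∀ Y : ℕ,
            ∑ q ∈ (range (Y + 1)).filter Nat.Prime, (∑ v ∈ U, uw X v q) * (q : ℝ) ^ (-s) ≤
            (1 - δ) * Real.log (1 / (s - 1)) + C0 := by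
          intro s hs hs2 Y
          have h3 := hden s hs hs2 Y
          have hpos : (0 : ℝ) < 2 ^ (m - 1) := by positivity
          have h4 : ∑ q ∈ (range (Y + 1)).filter Nat.Prime, (∑ v ∈ U, uw X v q) * (q : ℝ) ^ (-s) =
              (∑ q ∈ (range (Y + 1)).filter Nat.Prime, (∑ i, ((X.Pat i q).card : ℝ)) *
                (q : ℝ) ^ (-s)) / 2 ^ (m - 1) := by
            rw [Finset.sum_div]
            refine Finset.sum_congr rfl fun q _ => ?_
            rw [unl_all X U hU' hall q]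
            ring
          rw [h4, div_le_iff₀ hpos]
          linarith
        have hY : N ≤ 2 ^ m * N := Nat.le_mul_of_pos_left _ (by positivity)
        have hYr : (N : ℝ) ≤ ((2 ^ m * N : ℕ) : ℝ) := by exact_mod_cast hY
        have h3 := hunl X U C0 hC0 hden' (2 ^ m * N) Z (by omega) hZ1 (hZN.trans hYr)
        have h4 : (Real.log ((2 ^ m * N : ℕ) : ℝ)) ^ (-δ) ≤ (Real.log N) ^ (-δ) :=
          Real.rpow_le_rpow_of_nonpos hlogN (Real.log_le_log hNr hYr) (by linarith)
        calc ∑ k ∈ Ks, ∑ D ∈ (vbox k).filter (fun D => large Z D = U), X.Phi D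
            ≤ ∑ k ∈ Ks, ∑ D ∈ (vbox k).filter (fun D => large Z D = U), |X.Phi D| :=
              Finset.sum_le_sum fun k _ => Finset.sum_le_sum fun D _ => le_abs_self _
          _ ≤ ∑ k ∈ cntKs ι L, ∑ D ∈ (vbox k).filter (fun D => large Z D = U), |X.Phi D| :=
              Finset.sum_le_sum_of_subset_of_nonneg (Finset.filter_subset _ _)
                fun _ _ _ => Finset.sum_nonneg fun _ _ => abs_nonneg _
          _ ≤ _ := cnt_unl X U hN0
          _ ≤ _ := h3
          _ ≤ C1 * Real.exp C0 * ((2 ^ m * N : ℕ) : ℝ) * (Real.log N) ^ (-δ) *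
                (1 + Real.log Z) ^ vN := by
              gcongr
          _ = (C1 * 2 ^ m) * N * (B1 + 0) := by
              rw [hB1]
              push_cast
              ring
          _ ≤ (C2 * 2 ^ ((m : ℝ) + A) + C1 * 2 ^ m) * N * (B1 + B2) := by
              gcongr
              have : 0 ≤ C2 * 2 ^ ((m : ℝ) + A) := by positivity
              linarith
  calc (S.ncard : ℝ) ≤ ∑ k ∈ Ks, ∑ D ∈ vbox k, X.Phi D := hstep
    _ = _ := h1
    _ ≤ ∑ U : Finset (Idx ι), (C2 * 2 ^ ((m : ℝ) + A) + C1 * 2 ^ m) * N * (B1 + B2) :=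
      Finset.sum_le_sum fun U _ => h2 U
    _ = 2 ^ vN * (C2 * 2 ^ ((m : ℝ) + A) + C1 * 2 ^ m) * N * (B1 + B2) := by
      rw [Finset.sum_const, Finset.card_univ, Fintype.card_finset, nsmul_eq_mul, ← hvN]
      push_cast
      ring

end Pool.Agent.SCY
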