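import Mathlib
import Pool.Agent.Helper19.Sec.Zeta

/-!
SCY module CHR (MP_896029_ag; plan /team-store/scy_plan.md): an integer which is not a square is a
non-residue modulo some odd number.

Two possible proofs.

(A) elementary.  `E ≠ 0` (as `0` is a square).  Write `E = s * 2 ^ a * m` with `s = 1` or `s = -1` and `m` odd
positive.
* If `m` is not a square there is a prime `p` with odd exponent `v` in `m`, `m = p ^ v * m'`, `p` not dividing
  `m'`.  By the Chinese remainder theorem (`Nat.chineseRemainder`, moduli `8 * m'` and `p`, coprime) choose `n`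
  with `n ≡ 1` modulo `8 * m'` and `n ≡ r` modulo `p`, `r` a quadratic non-residue modulo `p` (exists,
  `FiniteField.exists_nonsquare`).  Then `jacobiSym (-1) n = 1`, `jacobiSym 2 n = 1` (`n % 8 = 1`), and
  `jacobiSym m n = jacobiSym n m = jacobiSym n p ^ v * jacobiSym n m' = (-1) ^ v * 1 = -1`
  (`jacobiSym.quadratic_reciprocity_one_mod_four`, `jacobiSym.mul_right`, `jacobiSym.mod_left`).
* If `m` is a square, `m = t ^ 2`, then `E = s * 2 ^ a * t ^ 2` with `s = -1` or `a` odd.  Choose `n ≡ 1` modulo `m`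
  and `n ≡ 3` modulo `8` if `a` is even, and `n ≡ 5` modulo `8` if `a` is odd (then
  `jacobiSym (-1) n = 1`, `jacobiSym 2 n = -1`).

(B) with `rK_sum` (Helper19/Sec/Zeta.lean) for `ℚ` and for a quadratic field: if all large primes were split then
`2 * ∑ q ^ (-s)` and `∑ q ^ (-s)` would both be `log (1 / (s - 1)) + O(1)`.
-/

set_option linter.dupNamespace false

namespace Pool.Agent.SCY

private theorem jac_two_Chr {n c : ℕ} (hn : n % 8 = c) (hc : c = 1 ∨ c = 3 ∨ c = 5) :
    Odd n ∧ jacobiSym (-1) n = (if c = 3 then -1 else 1) ∧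
      jacobiSym 2 n = (if c = 1 then 1 else -1) := by
  have hodd : Odd n := by
    rw [Nat.odd_iff]
    omega
  refine ⟨hodd, ?_, ?_⟩
  · rw [jacobiSym.at_neg_one hodd]
    rcases hc with rfl | rfl | rfl
    · rw [ZMod.χ₄_nat_one_mod_four (by omega)]
      rfl
    · rw [ZMod.χ₄_nat_three_mod_four (by omega)]
      rfl
    · rw [ZMod.χ₄_nat_one_mod_four (by omega)]
      rfl
  · rw [jacobiSym.at_two hodd, ZMod.χ₈_nat_eq_if_mod_eight]
    have h2 : ¬ n % 2 = 0 := by omega
    rw [if_neg h2]
    rcases hc with rfl | rfl | rfl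
    · rw [if_pos (Or.inl hn)]
      rfl
    · rw [if_neg (by omega)]
      rfl
    · rw [if_neg (by omega)]
      rfl

private theorem split_Chr (E : ℤ) (a m n : ℕ) (hE : E.natAbs = 2 ^ a * m) :
    jacobiSym E n = jacobiSym E.sign n * (jacobiSym 2 n ^ a * jacobiSym m n) := by
  have h1 : E = E.sign * (2 ^ a * (m : ℤ)) := by
    have h2 := Int.sign_mul_natAbs E
    rw [hE] at h2
    push_cast at h2
    exact h2.symm
  conv_lhs => rw [h1]
  rw [jacobiSym.mul_left, jacobiSym.mul_left, jacobiSym.pow_left]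

theorem exists_neg (E : ℤ) (hE : ¬ IsSquare E) : ∃ n : ℕ, Odd n ∧ jacobiSym E n = -1 := by
  have hE0 : E ≠ 0 := by
    rintro rfl
    exact hE ⟨0, by simp⟩
  obtain ⟨a, m, hm, hEm⟩ := Nat.exists_eq_two_pow_mul_odd (Int.natAbs_ne_zero.2 hE0)
  have hm0 : 0 < m := hm.pos
  have hsign : E.sign = 1 ∨ E.sign = -1 := by
    rcases lt_or_gt_of_ne hE0 with h | h
    · exact Or.inr (Int.sign_eq_neg_one_of_neg h)
    · exact Or.inl (Int.sign_eq_one_of_pos h)
  by_cases hsq : IsSquare m
  · obtain ⟨t, ht⟩ := hsq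
    rw [← pow_two] at ht
    have hco : ∀ c : ℕ, ∃ n : ℕ, n ≡ c [MOD 8] ∧ n ≡ 1 [MOD m] := by
      intro c
      have h8 : Nat.Coprime 8 m := by
        have : Nat.Coprime (2 ^ 3) m := Nat.Coprime.pow_left _ (Nat.coprime_two_left.2 hm)
        exact this
      exact ⟨Nat.chineseRemainder h8 c 1, (Nat.chineseRemainder h8 c 1).2⟩
    have hone : ∀ n : ℕ, n ≡ 1 [MOD m] → jacobiSym m n = 1 := by
      intro n hn
      rw [ht]
      push_cast
      refine jacobiSym.sq_one' ?_
      have h1 : Nat.Coprime n m := by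
        have := hn.gcd_eq
        rw [Nat.gcd_one_left] at this
        exact this
      have h2 : Nat.Coprime t n := by
        rw [ht] at h1
        exact (Nat.Coprime.coprime_dvd_right (dvd_pow_self t two_ne_zero) h1).symm
      rw [Int.gcd_natCast_natCast]
      exact h2
    rcases Nat.even_or_odd a with ha | ha
    · have hs : E.sign = -1 := by
        rcases hsign with h | h
        · exfalso
          apply hE
          obtain ⟨b, hb⟩ := ha
          refine ⟨(2 ^ b * t : ℤ), ?_⟩
          have h2 := Int.sign_mul_natAbs E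
          rw [hEm, h, ht, hb] at h2
          push_cast at h2
          rw [← h2]
          ring
        · exact h
      obtain ⟨n, h1, h2⟩ := hco 3
      obtain ⟨h3, h4, h5⟩ := jac_two_Chr (c := 3) h1 (by simp)
      refine ⟨n, h3, ?_⟩
      rw [split_Chr E a m n hEm, hs, h4, h5, hone n h2]
      simp [ha.neg_one_pow]
    · obtain ⟨n, h1, h2⟩ := hco 5
      obtain ⟨h3, h4, h5⟩ := jac_two_Chr (c := 5) h1 (by simp)
      refine ⟨n, h3, ?_⟩
      have h6 : jacobiSym E.sign n = 1 := by
        rcases hsign with h | h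
        · rw [h, jacobiSym.one_left]
        · rw [h, h4]
          simp
      rw [split_Chr E a m n hEm, h6, h5, hone n h2]
      simp [ha.neg_one_pow]
  · obtain ⟨a', b, ha', hb, hab, hsf⟩ := Nat.sq_mul_squarefree_of_pos hm0
    have ha1 : a' ≠ 1 := by
      rintro rfl
      apply hsq
      exact ⟨b, by rw [← hab]; ring⟩
    obtain ⟨p, hp, hpa⟩ := Nat.exists_prime_and_dvd ha1
    obtain ⟨a'', rfl⟩ := hpa
    have hpa'' : ¬ p ∣ a'' := by
      intro hc
      have h1 := hsf p (mul_dvd_mul_left p hc)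
      exact hp.one_lt.ne' (Nat.isUnit_iff.1 h1)
    obtain ⟨c, b', hb', hbb⟩ := Nat.exists_eq_pow_mul_and_not_dvd hb.ne' p hp.ne_one
    have hmm : m = p ^ (2 * c + 1) * (b' ^ 2 * a'') := by
      rw [← hab, hbb]
      ring
    have hpm' : ¬ p ∣ b' ^ 2 * a'' := by
      intro hc
      rcases (Nat.Prime.dvd_mul hp).1 hc with h | h
      · exact hb' (hp.dvd_of_dvd_pow h)
      · exact hpa'' h
    have hpm : p ∣ m := by
      rw [hmm]
      exact Dvd.dvd.mul_right (dvd_pow_self p (Nat.succ_ne_zero _)) _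
    have hpodd : Odd p := hm.of_dvd_nat hpm
    have hp2 : p ≠ 2 := by
      rintro rfl
      exact absurd hpodd (by decide)
    haveI : Fact p.Prime := ⟨hp⟩
    obtain ⟨r, hr⟩ := FiniteField.exists_nonsquare (F := ZMod p) (by
      rw [ZMod.ringChar_zmod_n]
      exact hp2)
    set m' := b' ^ 2 * a'' with hm'
    have hm'odd : Odd m' := hm.of_dvd_nat (by rw [hmm]; exact Dvd.intro_left _ rfl)
    have hcop : Nat.Coprime (8 * m') p := by
      refine Nat.Coprime.mul_left ?_ ?_
      · have : Nat.Coprime (2 ^ 3) p := Nat.Coprime.pow_left _ (Nat.coprime_two_left.2 hpodd)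
        exact this
      · exact ((Nat.Prime.coprime_iff_not_dvd hp).2 hpm').symm
    obtain ⟨n, hn1, hn2⟩ := Nat.chineseRemainder hcop 1 r.val
    have h8 : n % 8 = 1 := by
      have h1 : n ≡ 1 [MOD 8] := hn1.of_mul_right m'
      exact h1
    obtain ⟨h3, h4, h5⟩ := jac_two_Chr (c := 1) h8 (by simp)
    refine ⟨n, h3, ?_⟩
    have h6 : jacobiSym E.sign n = 1 := by
      rcases hsign with h | h
      · rw [h, jacobiSym.one_left]
      · rw [h, h4]
        simp
    have h7 : jacobiSym m n = -1 := by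
      rw [jacobiSym.quadratic_reciprocity_one_mod_four' hm (by omega), hmm]
      have hne1 : p ^ (2 * c + 1) ≠ 0 := pow_ne_zero _ hp.ne_zero
      have hne2 : m' ≠ 0 := hm'odd.pos.ne'
      rw [jacobiSym.mul_right' _ hne1 hne2, jacobiSym.pow_right]
      have h8 : jacobiSym n m' = 1 := by
        have h9 : (n : ℤ) % m' = 1 % m' := by
          have h10 : n ≡ 1 [MOD m'] := hn1.of_mul_left 8
          have := congrArg (Nat.cast : ℕ → ℤ) h10
          push_cast at this
          exact this
        rw [jacobiSym.mod_left' h9, jacobiSym.one_left]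
      have h11 : jacobiSym n p = -1 := by
        rw [← jacobiSym.legendreSym.to_jacobiSym, legendreSym.eq_neg_one_iff]
        have h12 : ((n : ℤ) : ZMod p) = r := by
          have h13 : (n : ZMod p) = ((r.val : ℕ) : ZMod p) :=
            (ZMod.natCast_eq_natCast_iff _ _ _).2 hn2
          rw [Int.cast_natCast, h13, ZMod.natCast_zmod_val]
        rw [h12]
        exact hr
      rw [h8, h11, mul_one]
      exact Odd.neg_one_pow ⟨c, rfl⟩
    rw [split_Chr E a m n hEm, h6, h5, h7]
    simp

end Pool.Agent.SCY
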