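import Pool.Agent.SCT.Defs

/-!
SCY module FIX (MP_896029_ag; plan /team-store/scy_plan.md): the counting problem for some of the variables, the
other ones being fixed.
-/

set_option linter.dupNamespace false

namespace Pool.Agent.SCY

open Finset Pool.Agent.SCT

variable {ι : Type} [Fintype ι] [DecidableEq ι]

open Classical in
/-- the patterns of the variables in `L`, when the other variables are fixed -/
noncomputable def fixPat (X : CData ι) (L : Finset ι) (D : ι → ℕ) (i : ι) (q : ℕ) :
    Finset ({j // j ∈ L} → ℤˣ) :=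
  if X.B < q then ((X.Pat i q).filter (fun y => ∀ j, j ∉ L →
    jacobiSym (X.c j * D j) q = ((y j : ℤˣ) : ℤ))).image (fun y j => y j.1) else ∅

/-- the counting problem for the variables in `L` -/
noncomputable def fixD (X : CData ι) (L : Finset ι) (D : ι → ℕ) : CData {j // j ∈ L} where
  Pat i q := fixPat X L D i.1 q
  norm := by
    classical
    intro i q y hy
    unfold fixPat at hy
    split_ifs at hy
    · obtain ⟨z, hz, rfl⟩ := mem_image.1 hy
      exact X.norm i.1 q z (mem_filter.1 hz).1
    · exact absurd hy (notMem_empty y)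
  c i := X.c i.1
  B := X.B
  two_le := X.two_le
  hc i := X.hc i.1

theorem allowed_fix (X : CData ι) (L : Finset ι) (D : ι → ℕ) (h : X.Allowed D) :
    (fixD X L D).Allowed (fun i => D i.1) := by
  classical
  obtain ⟨h1, h2⟩ := h
  have hprod : ∏ i : {j // j ∈ L}, D i.1 = ∏ i ∈ L, D i := prod_coe_sort L D
  have hdvd : ∏ i : {j // j ∈ L}, D i.1 ∣ ∏ i, D i := by
    rw [hprod]
    exact prod_dvd_prod_of_subset L univ D (subset_univ L)
  refine ⟨⟨h1.1.squarefree_of_dvd hdvd, fun q hq hqd => h1.2 q hq (hqd.trans hdvd)⟩, ?_⟩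
  intro i q hq hqd
  obtain ⟨y, hy, hyj⟩ := h2 i.1 q hq hqd
  have hB : X.B < q := h1.2 q hq (hqd.trans (dvd_prod_of_mem D (mem_univ i.1)))
  refine ⟨fun j => y j.1, ?_, fun j hj => hyj j.1 (fun h => hj (Subtype.ext h))⟩
  show _ ∈ fixPat X L D i.1 q
  unfold fixPat
  rw [if_pos hB]
  refine mem_image.2 ⟨y, mem_filter.2 ⟨hy, fun j hj => hyj j ?_⟩, rfl⟩
  intro h
  exact hj (h ▸ i.2)

/-- only the fixed variables matter -/
theorem fixD_congr (X : CData ι) (L : Finset ι) (D D' : ι → ℕ) (h : ∀ j, j ∉ L → D j = D' j) :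
    fixD X L D = fixD X L D' := by
  classical
  have h1 : ∀ i q, fixPat X L D i q = fixPat X L D' i q := by
    intro i q
    unfold fixPat
    split_ifs
    · congr 1
      refine filter_congr fun y _ => ?_
      refine forall_congr' fun j => forall_congr' fun hj => ?_
      rw [h j hj]
    · rfl
  unfold fixD
  simp only [h1]

end Pool.Agent.SCY
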