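import Pool.Agent.SCY.Box
import Pool.Agent.SCY.Fix
import Pool.Agent.SCY.Ana

/-!
SCY module CNTF (MP_896029_ag; plan /team-store/scy_plan.md): the counting theorem.  The condition `P` on the
tuple `D` is arbitrary; the hypothesis `hden` says that for every nonempty set `L` the density of the patterns for the
variables in `L`, the others being those of `D`, is less than one (with a small loss depending on the size of the
fixed variables).

Proof.  Let `m = card ι`; for every nonempty `L` let `vL = card (Idx {j // j ∈ L})`, `C_L, A_L` from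
`boxCount {j // j ∈ L}` (with `δ`); `M ≥ vL` for all `L`, `A ≥ A_L`, `C2 ≥ C_L` (finite sets, e.g. sums).  `anaF M m A δ`.
For `N ≥ N0` take `Z, K`, `W = 2 ^ K`.  A counted `n` has a tuple `D` (all `D i ≥ 1` because `∏ D i` is squarefree, hence nonzero);
let `L = {i | W ≤ D i}`.
* `L = ∅`: `n = ∏ D i` with `1 ≤ D i < W`; at most `W ^ m ≤ √N` numbers.
* `L` nonempty: the number of `D` is at most the sum over the tuples `E : {j // j ∉ L} → [1, W)` (put `1` on `L` to get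
  `E' : ι → ℕ`) of the number of `D_L : {j // j ∈ L} → ℕ` with `∏ D_L ≤ N / ∏ E`, `D_L i ≥ W`, `(fixD X L E').Allowed D_L`
  (`allowed_fix`, `fixD_congr`), and only those `E` occur for which there is an allowed `D` with `P D` which agrees with `E`
  off `L`; for those `hden` gives the density hypothesis of `boxCount` for `fixD X L E' = fixD X L D`
  (`Fintype.card {j // j ∈ L} = L.card`) with `C0 = C1 + log (1 + log W)`.
  With `N' = N / ∏ E` (natural division): `∏ E ≤ W ^ m`, `N' ≥ √N * (Z ^ (2M) + 4) - 1`, so `N' ≥ 3`, `Z ^ (2 vL) ≤ Z ^ (2 M) ≤ N'`,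
  `log N' ≥ (log N) / 2`, `Z ^ vL ≤ Z ^ M < 2 ^ K`.  Bound:
  `C2 * (N / ∏ E) * (exp C1 * (1 + log W) * 2 * (log N) ^ (-δ) * (1 + log Z) ^ M + (1 + log N) ^ A * Z ^ (-1/6))`
  (`(log N / 2) ^ (-δ) ≤ 2 * (log N) ^ (-δ)`, `δ ≤ 1`), and `∑ E, 1 / ∏ E ≤ (1 + log W) ^ m` (`unl_harmonic`, SCT/Unl.lean).
* There are `2 ^ m` sets `L`.  Small `N`: adjust the constant as in `count`.
-/

set_option linter.dupNamespace false

namespace Pool.Agent.SCY

open Finset Pool.Agent.SCT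

variable {ι : Type} [Fintype ι] [DecidableEq ι]

/-- the constants of `boxCount` for all nonempty sets of variables -/
private theorem cf_box (ι : Type) [Fintype ι] [DecidableEq ι] (δ : ℝ) (hδ : 0 < δ)
    (hδ1 : δ ≤ 1) : ∃ (M : ℕ) (C A : ℝ), 0 ≤ C ∧ 0 ≤ A ∧ ∀ L : Finset ι, L.Nonempty →
      ∀ (X : CData {j // j ∈ L}) (C0 : ℝ), 0 ≤ C0 →
      (∀ s : ℝ, 1 < s → s ≤ 2 → ∀ Y : ℕ,
        ∑ q ∈ (range (Y + 1)).filter Nat.Prime, (∑ i, ((X.Pat i q).card : ℝ)) * (q : ℝ) ^ (-s) ≤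
        2 ^ (L.card - 1) * ((1 - δ) * Real.log (1 / (s - 1)) + C0)) →
      ∀ N Z K : ℕ, 3 ≤ N → 1 ≤ Z → ((Z : ℝ) ^ (2 * M)) ≤ N → Z ^ M < 2 ^ K →
      ({D : {j // j ∈ L} → ℕ | ∏ i, D i ≤ N ∧ (∀ i, 2 ^ K ≤ D i) ∧ X.Allowed D}.ncard : ℝ) ≤
        C * N * (Real.exp C0 * (Real.log N) ^ (-δ) * (1 + Real.log Z) ^ M +
          (1 + Real.log N) ^ A * (Z : ℝ) ^ (-(1 : ℝ) / 6)) := by
  classical
  have h : ∀ L : Finset ι, ∃ C A : ℝ, 0 ≤ C ∧ 0 ≤ A ∧ (L.Nonempty →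
      ∀ (X : CData {j // j ∈ L}) (C0 : ℝ), 0 ≤ C0 →
      (∀ s : ℝ, 1 < s → s ≤ 2 → ∀ Y : ℕ,
        ∑ q ∈ (range (Y + 1)).filter Nat.Prime, (∑ i, ((X.Pat i q).card : ℝ)) * (q : ℝ) ^ (-s) ≤
        2 ^ (L.card - 1) * ((1 - δ) * Real.log (1 / (s - 1)) + C0)) →
      ∀ N Z K : ℕ, 3 ≤ N → 1 ≤ Z →
        ((Z : ℝ) ^ (2 * Fintype.card (Idx {j // j ∈ L}))) ≤ N →
        Z ^ (Fintype.card (Idx {j // j ∈ L})) < 2 ^ K →
      ({D : {j // j ∈ L} → ℕ | ∏ i, D i ≤ N ∧ (∀ i, 2 ^ K ≤ D i) ∧ X.Allowed D}.ncard : ℝ) ≤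
        C * N * (Real.exp C0 * (Real.log N) ^ (-δ) *
          (1 + Real.log Z) ^ (Fintype.card (Idx {j // j ∈ L})) +
          (1 + Real.log N) ^ A * (Z : ℝ) ^ (-(1 : ℝ) / 6))) := by
    intro L
    by_cases hL : L.Nonempty
    · have hne : Nonempty {j // j ∈ L} := hL.to_subtype
      obtain ⟨C, A, hC, hA, hh⟩ := boxCount {j // j ∈ L} δ hδ hδ1
      refine ⟨C, A, hC, hA, fun _ X C0 hC0 hden => hh X C0 hC0 ?_⟩
      rw [Fintype.card_coe]
      exact hden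
    · exact ⟨0, 0, le_rfl, le_rfl, fun h => absurd h hL⟩
  choose C A hC hA hh using h
  refine ⟨∑ L : Finset ι, Fintype.card (Idx {j // j ∈ L}), ∑ L, C L, ∑ L, A L,
    sum_nonneg fun L _ => hC L, sum_nonneg fun L _ => hA L, ?_⟩
  intro L hL X C0 hC0 hden N Z K hN hZ hZN hZK
  have hcard : Fintype.card (Idx {j // j ∈ L}) ≤
      ∑ L : Finset ι, Fintype.card (Idx {j // j ∈ L}) :=
    single_le_sum (f := fun L : Finset ι => Fintype.card (Idx {j // j ∈ L}))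
      (fun _ _ => Nat.zero_le _) (mem_univ L)
  have hCL : C L ≤ ∑ L, C L := single_le_sum (f := C) (fun L _ => hC L) (mem_univ L)
  have hAL : A L ≤ ∑ L, A L := single_le_sum (f := A) (fun L _ => hA L) (mem_univ L)
  have hZr : (1 : ℝ) ≤ Z := by exact_mod_cast hZ
  have hNr : (3 : ℝ) ≤ N := by exact_mod_cast hN
  have hlogZ : 0 ≤ Real.log Z := Real.log_nonneg hZr
  have hlogN : 0 ≤ Real.log N := Real.log_nonneg (by linarith)
  refine (hh L hL X C0 hC0 hden N Z K hN hZ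
    ((pow_le_pow_right₀ hZr (by omega)).trans hZN)
    ((Nat.pow_le_pow_right hZ hcard).trans_lt hZK)).trans ?_
  have h1 : (1 + Real.log Z) ^ (Fintype.card (Idx {j // j ∈ L})) ≤
      (1 + Real.log Z) ^ (∑ L : Finset ι, Fintype.card (Idx {j // j ∈ L})) :=
    pow_le_pow_right₀ (by linarith) hcard
  have h2 : (1 + Real.log N) ^ (A L) ≤ (1 + Real.log N) ^ (∑ L, A L) :=
    Real.rpow_le_rpow_of_exponent_le (by linarith) hAL
  have h3 : 0 ≤ (Real.log N) ^ (-δ) := Real.rpow_nonneg hlogN _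
  have h4 : 0 ≤ ∑ L, C L := sum_nonneg fun L _ => hC L
  gcongr

/-- small `N` -/
private theorem cf_small {S : ℕ → Set ℕ} (hS : ∀ N, ∀ n ∈ S N, n ≤ N) {C3 δ : ℝ} (hC3 : 0 ≤ C3)
    (hδ : 0 < δ) {N0 : ℕ} (hbig : ∀ N, N0 ≤ N → ((S N).ncard : ℝ) ≤
      C3 * N * (Real.log N) ^ (-δ)) :
    ∃ C δ' : ℝ, 0 ≤ C ∧ 0 < δ' ∧ ∀ N : ℕ, 2 ≤ N →
      ((S N).ncard : ℝ) ≤ C * N / (Real.log N) ^ δ' := by
  set M : ℝ := (Real.log ((N0 + 2 : ℕ) : ℝ)) ^ δ with hM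
  have hM0 : 0 ≤ M := by
    have : 0 ≤ Real.log ((N0 + 2 : ℕ) : ℝ) := Real.log_natCast_nonneg _
    positivity
  refine ⟨C3 + 2 * M, δ, by positivity, by positivity, fun N hN => ?_⟩
  have hNr : (2 : ℝ) ≤ N := by exact_mod_cast hN
  have hlogN : 0 < Real.log N := Real.log_pos (by linarith)
  have hpos : 0 < (Real.log N) ^ δ := by positivity
  rw [le_div_iff₀ hpos]
  rcases Nat.lt_or_ge N N0 with h | h
  · have h1 : ((S N).ncard : ℝ) ≤ 2 * N := by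
      have h2 : S N ⊆ ↑(Finset.range (N + 1)) := by
        intro n hn
        have := hS N n hn
        rw [Finset.mem_coe, Finset.mem_range]
        omega
      have h3 := Set.ncard_le_ncard h2 (Finset.finite_toSet _)
      rw [Set.ncard_coe_finset, Finset.card_range] at h3
      have h4 : ((S N).ncard : ℝ) ≤ N + 1 := by exact_mod_cast h3
      linarith
    have h2 : (Real.log N) ^ δ ≤ M := by
      rw [hM]
      refine Real.rpow_le_rpow hlogN.le (Real.log_le_log (by linarith) ?_) (by positivity)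
      exact_mod_cast (by omega : N ≤ N0 + 2)
    calc ((S N).ncard : ℝ) * (Real.log N) ^ δ ≤ (2 * N) * M := by gcongr
      _ ≤ (C3 + 2 * M) * N := by nlinarith
  · have h1 := hbig N h
    have h2 : (Real.log N) ^ (-δ) * (Real.log N) ^ δ = 1 := by
      rw [← Real.rpow_add hlogN]
      simp
    calc ((S N).ncard : ℝ) * (Real.log N) ^ δ
        ≤ (C3 * N * (Real.log N) ^ (-δ)) * (Real.log N) ^ δ := by gcongr
      _ = C3 * N * ((Real.log N) ^ (-δ) * (Real.log N) ^ δ) := by ring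
      _ = C3 * N := by rw [h2, mul_one]
      _ ≤ (C3 + 2 * M) * N := by
        gcongr
        linarith

/-- the tuples whose large entries are those with indices in `L` -/
private def cfT (X : CData ι) (P : (ι → ℕ) → Prop) (N W : ℕ) (L : Finset ι) : Set (ι → ℕ) :=
  {D | ∏ i, D i ≤ N ∧ X.Allowed D ∧ P D ∧ ∀ i, i ∈ L ↔ W ≤ D i}

private theorem cf_pos {X : CData ι} {D : ι → ℕ} (h : X.Allowed D) (i : ι) : 1 ≤ D i := by
  have h1 : ∏ i, D i ≠ 0 := h.1.1.ne_zero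
  rw [Finset.prod_ne_zero_iff] at h1
  exact Nat.one_le_iff_ne_zero.2 (h1 i (mem_univ i))

private theorem cf_le {κ : Type} [Fintype κ] {D : κ → ℕ} (h : ∀ i, 1 ≤ D i) (i : κ) :
    D i ≤ ∏ i, D i := by
  classical
  exact Nat.le_of_dvd (Finset.prod_pos fun j _ => h j) (dvd_prod_of_mem D (mem_univ i))

private theorem cf_fin {κ : Type} [Fintype κ] [DecidableEq κ] (N : ℕ) :
    ({D : κ → ℕ | ∏ i, D i ≤ N ∧ ∀ i, 1 ≤ D i}).Finite := by
  refine Set.Finite.subset (Finset.finite_toSet (Fintype.piFinset fun _ : κ => range (N + 1))) ?_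
  rintro D ⟨h1, h2⟩
  rw [mem_coe, Fintype.mem_piFinset]
  intro i
  rw [mem_range]
  have := cf_le h2 i
  omega

private theorem cfT_fin (X : CData ι) (P : (ι → ℕ) → Prop) (N W : ℕ) (L : Finset ι) :
    (cfT X P N W L).Finite :=
  (cf_fin N).subset fun _ hD => ⟨hD.1, fun i => cf_pos hD.2.1 i⟩

/-- splitting of the counted numbers -/
private theorem cf_split (X : CData ι) (P : (ι → ℕ) → Prop) (N W : ℕ) :
    {n : ℕ | n ≤ N ∧ ∃ D : ι → ℕ, ∏ i, D i = n ∧ X.Allowed D ∧ P D}.ncard ≤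
      ∑ L : Finset ι, (cfT X P N W L).ncard := by
  classical
  have h1 : {n : ℕ | n ≤ N ∧ ∃ D : ι → ℕ, ∏ i, D i = n ∧ X.Allowed D ∧ P D} ⊆
      ⋃ L ∈ (univ : Finset (Finset ι)), (fun D : ι → ℕ => ∏ i, D i) '' cfT X P N W L := by
    rintro n ⟨hn, D, hD, hA, hP⟩
    refine Set.mem_biUnion (x := univ.filter fun i => W ≤ D i) (mem_coe.2 (mem_univ _)) ?_
    exact ⟨D, ⟨by rw [hD]; exact hn, hA, hP, fun i => by simp⟩, hD⟩
  refine (Set.ncard_le_ncard h1 ?_).trans ?_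
  · exact Set.Finite.biUnion (finite_toSet _) fun L _ => (cfT_fin X P N W L).image _
  · refine (set_ncard_biUnion_le _ _).trans (sum_le_sum fun L _ => ?_)
    exact Set.ncard_image_le (cfT_fin X P N W L)

/-- the parameters of the fibre over `E` -/
private theorem cf_par {N Z M m K e : ℕ} (hN : 16 ≤ N) (hZ : 1 ≤ Z) (he : 1 ≤ e)
    (hem : (e : ℝ) ≤ ((2 : ℝ) ^ K) ^ m)
    (h : ((2 : ℝ) ^ K) ^ m * ((Z : ℝ) ^ (2 * M) + 4) ≤ √(N : ℝ)) :
    3 ≤ N / e ∧ ((Z : ℝ) ^ (2 * M)) ≤ ((N / e : ℕ) : ℝ) ∧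
      Real.log N / 2 ≤ Real.log ((N / e : ℕ) : ℝ) := by
  have hNr : (16 : ℝ) ≤ N := by exact_mod_cast hN
  have hZr : (1 : ℝ) ≤ Z := by exact_mod_cast hZ
  have her : (1 : ℝ) ≤ e := by exact_mod_cast he
  have hZM : (1 : ℝ) ≤ (Z : ℝ) ^ (2 * M) := one_le_pow₀ hZr
  have hs1 : (1 : ℝ) ≤ √(N : ℝ) := by
    rw [Real.one_le_sqrt]
    linarith
  have hss : √(N : ℝ) * √(N : ℝ) = N := Real.mul_self_sqrt (by linarith)
  have h1 : (e : ℝ) * ((Z : ℝ) ^ (2 * M) + 4) ≤ √(N : ℝ) :=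
    (mul_le_mul_of_nonneg_right hem (by linarith)).trans h
  have h2 : (N : ℝ) < e * (((N / e : ℕ) : ℝ) + 1) := by
    exact_mod_cast Nat.lt_mul_div_succ N (by omega : 0 < e)
  have h3 : √(N : ℝ) * ((Z : ℝ) ^ (2 * M) + 4) < ((N / e : ℕ) : ℝ) + 1 := by
    by_contra hcon
    push Not at hcon
    have h4 : (e : ℝ) * (((N / e : ℕ) : ℝ) + 1) ≤
        √(N : ℝ) * (e * ((Z : ℝ) ^ (2 * M) + 4)) := by
      calc (e : ℝ) * (((N / e : ℕ) : ℝ) + 1) ≤ e * (√(N : ℝ) * ((Z : ℝ) ^ (2 * M) + 4)) := by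
            gcongr
        _ = _ := by ring
    have h5 : √(N : ℝ) * (e * ((Z : ℝ) ^ (2 * M) + 4)) ≤ √(N : ℝ) * √(N : ℝ) := by
      gcongr
    linarith
  have h6 : (Z : ℝ) ^ (2 * M) + 4 ≤ √(N : ℝ) * ((Z : ℝ) ^ (2 * M) + 4) :=
    le_mul_of_one_le_left (by linarith) hs1
  have h7 : √(N : ℝ) * 5 ≤ √(N : ℝ) * ((Z : ℝ) ^ (2 * M) + 4) := by
    gcongr
    linarith
  refine ⟨?_, by linarith, ?_⟩
  · have h8 : (3 : ℝ) ≤ ((N / e : ℕ) : ℝ) := by linarith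
    exact_mod_cast h8
  · rw [← Real.log_sqrt (by linarith)]
    exact Real.log_le_log (by linarith) (by linarith)

private theorem cf_prod (L : Finset ι) (D : ι → ℕ) :
    ∏ i, D i = (∏ i : {j // j ∈ L}, D i.1) * ∏ i : {j // j ∉ L}, D i.1 := by
  have h1 : ∏ i : {j // j ∈ L}, D i.1 = ∏ i ∈ univ.filter (fun j => j ∈ L), D i :=
    (Finset.prod_subtype (univ.filter (fun j => j ∈ L)) (fun x => by simp) D).symm
  have h2 : ∏ i : {j // j ∉ L}, D i.1 = ∏ i ∈ univ.filter (fun j => j ∉ L), D i :=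
    (Finset.prod_subtype (univ.filter (fun j => j ∉ L)) (fun x => by simp) D).symm
  rw [h1, h2]
  exact (Finset.prod_filter_mul_prod_filter_not univ (fun j => j ∈ L) D).symm

/-- one fibre -/
private theorem cf_fib (X : CData ι) (P : (ι → ℕ) → Prop) (δ C1 : ℝ) (hδ : 0 < δ)
    (hδ1 : δ ≤ 1) (hC1 : 0 ≤ C1) (L : Finset ι)
    (hden : ∀ D : ι → ℕ, X.Allowed D → P D → ∀ W : ℕ, 1 ≤ W →
      (∀ j, j ∉ L → D j ≤ W) → ∀ s : ℝ, 1 < s → s ≤ 2 → ∀ Y : ℕ,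
        ∑ q ∈ (range (Y + 1)).filter Nat.Prime,
          (∑ i : {j // j ∈ L}, (((fixD X L D).Pat i q).card : ℝ)) * (q : ℝ) ^ (-s) ≤
        2 ^ (L.card - 1) * ((1 - δ) * Real.log (1 / (s - 1)) +
          (C1 + Real.log (1 + Real.log W))))
    {M : ℕ} {C2 A : ℝ} (hC2 : 0 ≤ C2) (hA : 0 ≤ A)
    (hbox : ∀ (X : CData {j // j ∈ L}) (C0 : ℝ), 0 ≤ C0 →
      (∀ s : ℝ, 1 < s → s ≤ 2 → ∀ Y : ℕ,
        ∑ q ∈ (range (Y + 1)).filter Nat.Prime, (∑ i, ((X.Pat i q).card : ℝ)) * (q : ℝ) ^ (-s) ≤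
        2 ^ (L.card - 1) * ((1 - δ) * Real.log (1 / (s - 1)) + C0)) →
      ∀ N Z K : ℕ, 3 ≤ N → 1 ≤ Z → ((Z : ℝ) ^ (2 * M)) ≤ N → Z ^ M < 2 ^ K →
      ({D : {j // j ∈ L} → ℕ | ∏ i, D i ≤ N ∧ (∀ i, 2 ^ K ≤ D i) ∧ X.Allowed D}.ncard : ℝ) ≤
        C2 * N * (Real.exp C0 * (Real.log N) ^ (-δ) * (1 + Real.log Z) ^ M +
          (1 + Real.log N) ^ A * (Z : ℝ) ^ (-(1 : ℝ) / 6)))
    {N Z K : ℕ} (hN : 16 ≤ N) (hZ : 1 ≤ Z) (hZK : Z ^ M < 2 ^ K)
    (h : ((2 : ℝ) ^ K) ^ (Fintype.card ι) * ((Z : ℝ) ^ (2 * M) + 4) ≤ √(N : ℝ))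
    {E : {j // j ∉ L} → ℕ} (hE : ∀ j, 1 ≤ E j ∧ E j ≤ 2 ^ K) :
    (({D | D ∈ cfT X P N (2 ^ K) L ∧ ∀ j : {j // j ∉ L}, D j.1 = E j}.ncard : ℕ) : ℝ) ≤
      C2 * N * (Real.exp C1 * (1 + Real.log (2 ^ K)) * (2 * (Real.log N) ^ (-δ)) *
        (1 + Real.log Z) ^ M + (1 + Real.log N) ^ A * (Z : ℝ) ^ (-(1 : ℝ) / 6)) *
        ∏ j, (1 / (E j : ℝ)) := by
  classical
  have hNr : (16 : ℝ) ≤ N := by exact_mod_cast hN
  have hZr : (1 : ℝ) ≤ Z := by exact_mod_cast hZ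
  have hlogZ : 0 ≤ Real.log Z := Real.log_nonneg hZr
  have hlogN : 0 < Real.log N := Real.log_pos (by linarith)
  have hWr : (1 : ℝ) ≤ (2 : ℝ) ^ K := one_le_pow₀ (by norm_num)
  have hlogW : 0 ≤ Real.log ((2 : ℝ) ^ K) := Real.log_nonneg hWr
  have hprod0 : 0 ≤ ∏ j, (1 / (E j : ℝ)) := prod_nonneg fun j _ => by positivity
  rcases Set.eq_empty_or_nonempty
    {D | D ∈ cfT X P N (2 ^ K) L ∧ ∀ j : {j // j ∉ L}, D j.1 = E j} with h0 | ⟨D0, hD0⟩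
  · rw [h0, Set.ncard_empty, Nat.cast_zero]
    have : 0 ≤ (Real.log N) ^ (-δ) := Real.rpow_nonneg hlogN.le _
    positivity
  · set e : ℕ := ∏ j, E j with he
    have he1 : 1 ≤ e := by
      rw [he]
      exact Nat.succ_le_of_lt (Finset.prod_pos fun j _ => (hE j).1)
    have hem : (e : ℝ) ≤ ((2 : ℝ) ^ K) ^ (Fintype.card ι) := by
      have h1 : e ≤ (2 ^ K) ^ (Fintype.card {j // j ∉ L}) := by
        calc e ≤ ∏ _j : {j // j ∉ L}, 2 ^ K := Finset.prod_le_prod' fun j _ => (hE j).2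
          _ = _ := by rw [prod_const, card_univ]
      calc (e : ℝ) ≤ ((2 : ℝ) ^ K) ^ (Fintype.card {j // j ∉ L}) := by exact_mod_cast h1
        _ ≤ _ := pow_le_pow_right₀ hWr (Fintype.card_subtype_le _)
    obtain ⟨hp1, hp2, hp3⟩ := cf_par hN hZ he1 hem h
    have hden0 := hden D0 hD0.1.2.1 hD0.1.2.2.1 (2 ^ K) (Nat.one_le_two_pow) (by
      intro j hj
      have h1 := hD0.2 ⟨j, hj⟩
      show D0 j ≤ _
      rw [show D0 j = E ⟨j, hj⟩ from h1]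
      exact (hE _).2)
    have hcast : ((2 ^ K : ℕ) : ℝ) = (2 : ℝ) ^ K := by push_cast; rfl
    rw [hcast] at hden0
    have hC0 : 0 ≤ C1 + Real.log (1 + Real.log ((2 : ℝ) ^ K)) := by
      have : 0 ≤ Real.log (1 + Real.log ((2 : ℝ) ^ K)) := Real.log_nonneg (by linarith)
      linarith
    have hb := hbox (fixD X L D0) _ hC0 hden0 (N / e) Z K hp1 hZ hp2 hZK
    have hinj : {D | D ∈ cfT X P N (2 ^ K) L ∧ ∀ j : {j // j ∉ L}, D j.1 = E j}.ncard ≤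
        {D : {j // j ∈ L} → ℕ | ∏ i, D i ≤ N / e ∧ (∀ i, 2 ^ K ≤ D i) ∧
          (fixD X L D0).Allowed D}.ncard := by
      refine Set.ncard_le_ncard_of_injOn (fun D (i : {j // j ∈ L}) => D i.1) ?_ ?_ ?_
      · rintro D ⟨⟨h1, h2, h3, h4⟩, h5⟩
        refine ⟨?_, fun i => (h4 i.1).1 i.2, ?_⟩
        · rw [Nat.le_div_iff_mul_le (by omega)]
          rw [cf_prod L] at h1
          have h6 : ∏ i : {j // j ∉ L}, D i.1 = e := prod_congr rfl fun j _ => h5 j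
          rw [h6] at h1
          exact h1
        · have h6 : fixD X L D0 = fixD X L D := fixD_congr X L D0 D fun j hj => by
            rw [show D0 j = E ⟨j, hj⟩ from hD0.2 ⟨j, hj⟩, show D j = E ⟨j, hj⟩ from h5 ⟨j, hj⟩]
          rw [h6]
          exact allowed_fix X L D h2
      · rintro D ⟨_, h5⟩ D' ⟨_, h5'⟩ hDD
        funext j
        by_cases hj : j ∈ L
        · exact congrFun hDD ⟨j, hj⟩
        · rw [show D j = E ⟨j, hj⟩ from h5 ⟨j, hj⟩, show D' j = E ⟨j, hj⟩ from h5' ⟨j, hj⟩]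
      · refine (cf_fin (N / e)).subset ?_
        rintro D ⟨h1, h2, _⟩
        exact ⟨h1, fun i => (Nat.one_le_two_pow).trans (h2 i)⟩
    have hcast2 : (({D | D ∈ cfT X P N (2 ^ K) L ∧
        ∀ j : {j // j ∉ L}, D j.1 = E j}.ncard : ℕ) : ℝ) ≤
        ({D : {j // j ∈ L} → ℕ | ∏ i, D i ≤ N / e ∧ (∀ i, 2 ^ K ≤ D i) ∧
          (fixD X L D0).Allowed D}.ncard : ℝ) := by exact_mod_cast hinj
    refine hcast2.trans (hb.trans ?_)
    have her : (1 : ℝ) ≤ e := by exact_mod_cast he1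
    have hq1 : ((N / e : ℕ) : ℝ) ≤ N * ∏ j, (1 / (E j : ℝ)) := by
      have h1 : ∏ j, (1 / (E j : ℝ)) = 1 / (e : ℝ) := by
        rw [he, Finset.prod_div_distrib, prod_const_one]
        push_cast
        rfl
      rw [h1, mul_one_div]
      exact Nat.cast_div_le
    have hq2 : ((N / e : ℕ) : ℝ) ≤ N := by exact_mod_cast Nat.div_le_self N e
    have hq3 : (3 : ℝ) ≤ ((N / e : ℕ) : ℝ) := by exact_mod_cast hp1
    have hexp : Real.exp (C1 + Real.log (1 + Real.log ((2 : ℝ) ^ K))) =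
        Real.exp C1 * (1 + Real.log ((2 : ℝ) ^ K)) := by
      rw [Real.exp_add, Real.exp_log (by linarith)]
    have hl1 : (Real.log ((N / e : ℕ) : ℝ)) ^ (-δ) ≤ 2 * (Real.log N) ^ (-δ) := by
      have h1 : (Real.log ((N / e : ℕ) : ℝ)) ^ (-δ) ≤ (Real.log N / 2) ^ (-δ) :=
        Real.rpow_le_rpow_of_nonpos (by linarith) hp3 (by linarith)
      have h2 : (Real.log N / 2) ^ (-δ) = (2 : ℝ) ^ δ * (Real.log N) ^ (-δ) := by
        rw [Real.div_rpow hlogN.le (by norm_num), Real.rpow_neg (by norm_num : (0 : ℝ) ≤ 2),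
          div_inv_eq_mul, mul_comm]
      have h3 : (2 : ℝ) ^ δ ≤ 2 := by
        calc (2 : ℝ) ^ δ ≤ (2 : ℝ) ^ (1 : ℝ) :=
              Real.rpow_le_rpow_of_exponent_le (by norm_num) hδ1
          _ = 2 := Real.rpow_one 2
      rw [h2] at h1
      refine h1.trans (mul_le_mul_of_nonneg_right h3 (Real.rpow_nonneg hlogN.le _))
    have hl2 : (1 + Real.log ((N / e : ℕ) : ℝ)) ^ A ≤ (1 + Real.log N) ^ A := by
      refine Real.rpow_le_rpow ?_ ?_ hA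
      · have := Real.log_nonneg (by linarith : (1 : ℝ) ≤ ((N / e : ℕ) : ℝ))
        linarith
      · have := Real.log_le_log (by linarith : (0 : ℝ) < ((N / e : ℕ) : ℝ)) hq2
        linarith
    have hln : 0 ≤ (Real.log ((N / e : ℕ) : ℝ)) ^ (-δ) :=
      Real.rpow_nonneg (Real.log_nonneg (by linarith)) _
    have hl0 : 0 ≤ (Real.log N) ^ (-δ) := Real.rpow_nonneg hlogN.le _
    have hzz : 0 ≤ (Z : ℝ) ^ (-(1 : ℝ) / 6) := by positivity
    have hbr : Real.exp (C1 + Real.log (1 + Real.log ((2 : ℝ) ^ K))) *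
          (Real.log ((N / e : ℕ) : ℝ)) ^ (-δ) * (1 + Real.log Z) ^ M +
        (1 + Real.log ((N / e : ℕ) : ℝ)) ^ A * (Z : ℝ) ^ (-(1 : ℝ) / 6) ≤
        Real.exp C1 * (1 + Real.log (2 ^ K)) * (2 * (Real.log N) ^ (-δ)) *
          (1 + Real.log Z) ^ M + (1 + Real.log N) ^ A * (Z : ℝ) ^ (-(1 : ℝ) / 6) := by
      rw [hexp]
      gcongr
    have hbr0 : 0 ≤ Real.exp C1 * (1 + Real.log (2 ^ K)) * (2 * (Real.log N) ^ (-δ)) *
          (1 + Real.log Z) ^ M + (1 + Real.log N) ^ A * (Z : ℝ) ^ (-(1 : ℝ) / 6) := by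
      positivity
    calc _ ≤ C2 * (N * ∏ j, (1 / (E j : ℝ))) *
          (Real.exp C1 * (1 + Real.log (2 ^ K)) * (2 * (Real.log N) ^ (-δ)) *
          (1 + Real.log Z) ^ M + (1 + Real.log N) ^ A * (Z : ℝ) ^ (-(1 : ℝ) / 6)) := by
          refine mul_le_mul (mul_le_mul_of_nonneg_left hq1 hC2) hbr ?_ (by positivity)
          have h1 : 0 ≤ 1 + Real.log ((N / e : ℕ) : ℝ) := by
            have := Real.log_nonneg (by linarith : (1 : ℝ) ≤ ((N / e : ℕ) : ℝ))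
            linarith
          positivity
      _ = _ := by ring

/-- all fibres -/
private theorem cf_sum (X : CData ι) (P : (ι → ℕ) → Prop) (L : Finset ι) {N K : ℕ} {B : ℝ}
    (hB : 0 ≤ B)
    (h : ∀ E : {j // j ∉ L} → ℕ, (∀ j, 1 ≤ E j ∧ E j ≤ 2 ^ K) →
      (({D | D ∈ cfT X P N (2 ^ K) L ∧ ∀ j : {j // j ∉ L}, D j.1 = E j}.ncard : ℕ) : ℝ) ≤
        B * ∏ j, (1 / (E j : ℝ))) :
    ((cfT X P N (2 ^ K) L).ncard : ℝ) ≤
      B * (1 + Real.log (2 ^ K)) ^ (Fintype.card ι) := by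
  classical
  have hWr : (1 : ℝ) ≤ (2 : ℝ) ^ K := one_le_pow₀ (by norm_num)
  have hlogW : 0 ≤ Real.log ((2 : ℝ) ^ K) := Real.log_nonneg hWr
  set F : ({j // j ∉ L} → ℕ) → Set (ι → ℕ) := fun E =>
    {D | D ∈ cfT X P N (2 ^ K) L ∧ ∀ j : {j // j ∉ L}, D j.1 = E j} with hF
  set T : Finset ({j // j ∉ L} → ℕ) := Fintype.piFinset fun _ => Icc 1 (2 ^ K) with hT
  have h1 : cfT X P N (2 ^ K) L ⊆ ⋃ E ∈ T, F E := by
    intro D hD
    refine Set.mem_biUnion (x := fun j => D j.1) ?_ ⟨hD, fun j => rfl⟩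
    rw [mem_coe, hT, Fintype.mem_piFinset]
    intro j
    rw [mem_Icc]
    refine ⟨cf_pos hD.2.1 _, ?_⟩
    by_contra hcon
    exact j.2 ((hD.2.2.2 j.1).2 (by omega))
  have h2 : (cfT X P N (2 ^ K) L).ncard ≤ ∑ E ∈ T, (F E).ncard := by
    refine (Set.ncard_le_ncard h1 ?_).trans (set_ncard_biUnion_le _ _)
    exact Set.Finite.biUnion (finite_toSet _) fun E _ =>
      (cfT_fin X P N (2 ^ K) L).subset fun D hD => hD.1
  have h3 : ((cfT X P N (2 ^ K) L).ncard : ℝ) ≤ ∑ E ∈ T, ((F E).ncard : ℝ) := by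
    exact_mod_cast h2
  have h4 : ∑ E ∈ T, ((F E).ncard : ℝ) ≤ ∑ E ∈ T, B * ∏ j, (1 / (E j : ℝ)) := by
    refine sum_le_sum fun E hE => h E fun j => ?_
    rw [hT, Fintype.mem_piFinset] at hE
    exact mem_Icc.1 (hE j)
  have h5 := unl_harmonic {j // j ∉ L} (2 ^ K)
  have hcast : ((2 ^ K : ℕ) : ℝ) = (2 : ℝ) ^ K := by push_cast; rfl
  rw [hcast] at h5
  rw [← mul_sum] at h4
  refine h3.trans (h4.trans (mul_le_mul_of_nonneg_left (h5.trans ?_) hB))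
  exact pow_le_pow_right₀ (by linarith) (Fintype.card_subtype_le _)

/-- no large entry -/
private theorem cf_zero (X : CData ι) (P : (ι → ℕ) → Prop) {N K : ℕ} :
    ((cfT X P N (2 ^ K) ∅).ncard : ℝ) ≤ ((2 : ℝ) ^ K) ^ (Fintype.card ι) := by
  classical
  have h1 : cfT X P N (2 ^ K) ∅ ⊆ ↑(Fintype.piFinset fun _ : ι => range (2 ^ K)) := by
    intro D hD
    rw [mem_coe, Fintype.mem_piFinset]
    intro i
    rw [mem_range]
    by_contra hcon
    exact notMem_empty i ((hD.2.2.2 i).2 (by omega))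
  have h2 := Set.ncard_le_ncard h1 (finite_toSet _)
  rw [Set.ncard_coe_finset, Fintype.card_piFinset] at h2
  simp only [card_range, prod_const, card_univ] at h2
  exact_mod_cast h2

theorem countF [Nonempty ι] (X : CData ι) (P : (ι → ℕ) → Prop) (δ C1 : ℝ) (hδ : 0 < δ)
    (hδ1 : δ ≤ 1) (hC1 : 0 ≤ C1)
    (hden : ∀ L : Finset ι, L.Nonempty → ∀ D : ι → ℕ, X.Allowed D → P D → ∀ W : ℕ, 1 ≤ W →
      (∀ j, j ∉ L → D j ≤ W) → ∀ s : ℝ, 1 < s → s ≤ 2 → ∀ Y : ℕ,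
        ∑ q ∈ (range (Y + 1)).filter Nat.Prime,
          (∑ i : {j // j ∈ L}, (((fixD X L D).Pat i q).card : ℝ)) * (q : ℝ) ^ (-s) ≤
        2 ^ (L.card - 1) * ((1 - δ) * Real.log (1 / (s - 1)) +
          (C1 + Real.log (1 + Real.log W)))) :
    ∃ C δ' : ℝ, 0 ≤ C ∧ 0 < δ' ∧ ∀ N : ℕ, 2 ≤ N →
      ({n : ℕ | n ≤ N ∧ ∃ D : ι → ℕ, ∏ i, D i = n ∧ X.Allowed D ∧ P D}.ncard : ℝ) ≤
        C * N / (Real.log N) ^ δ' := by
  classical
  obtain ⟨M, C2, A, hC2, hA, hbox⟩ := cf_box ι δ hδ hδ1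
  obtain ⟨N0, Ca, hCa, hana⟩ := anaF M (Fintype.card ι) A δ hδ hδ1 hA
  set m := Fintype.card ι with hm
  refine cf_small (S := fun N => {n : ℕ | n ≤ N ∧ ∃ D : ι → ℕ, ∏ i, D i = n ∧ X.Allowed D ∧ P D})
    (fun N n hn => hn.1) (C3 := 2 ^ m * (Ca + C2 * ((2 * Real.exp C1 + 1) * Ca))) (δ := δ / 2)
    (by positivity) (by positivity) (N0 := N0) ?_
  intro N hN
  obtain ⟨hN16, Z, K, hZ, hZK, ha, hb, hc, hd⟩ := hana N hN
  have hNr : (16 : ℝ) ≤ N := by exact_mod_cast hN16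
  have hZr : (1 : ℝ) ≤ Z := by exact_mod_cast hZ
  have hlogZ : 0 ≤ Real.log Z := Real.log_nonneg hZr
  have hlogN : 0 < Real.log N := Real.log_pos (by linarith)
  have hWr : (1 : ℝ) ≤ (2 : ℝ) ^ K := one_le_pow₀ (by norm_num)
  have hlogW : 0 ≤ Real.log ((2 : ℝ) ^ K) := Real.log_nonneg hWr
  have hx0 : 0 ≤ (Real.log N) ^ (-(δ / 2)) := Real.rpow_nonneg hlogN.le _
  have hy0 : 0 ≤ (Real.log N) ^ (-δ) := Real.rpow_nonneg hlogN.le _
  -- one set of large variables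
  have hone : ∀ L : Finset ι, ((cfT X P N (2 ^ K) L).ncard : ℝ) ≤
      (Ca + C2 * ((2 * Real.exp C1 + 1) * Ca)) * (N * (Real.log N) ^ (-(δ / 2))) := by
    intro L
    rcases L.eq_empty_or_nonempty with rfl | hL
    · have h1 : ((2 : ℝ) ^ K) ^ m ≤ √(N : ℝ) := by
        refine le_trans ?_ ha
        have h2 : 0 ≤ (Z : ℝ) ^ (2 * M) := by positivity
        exact le_mul_of_one_le_right (by positivity) (by linarith)
      have h3 : 0 ≤ C2 * ((2 * Real.exp C1 + 1) * Ca) * (N * (Real.log N) ^ (-(δ / 2))) := by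
        positivity
      calc ((cfT X P N (2 ^ K) ∅).ncard : ℝ) ≤ ((2 : ℝ) ^ K) ^ m := cf_zero X P
        _ ≤ √(N : ℝ) := h1
        _ ≤ Ca * N * (Real.log N) ^ (-(δ / 2)) := hd
        _ ≤ _ := by linarith
    · have hB0 : 0 ≤ C2 * N * (Real.exp C1 * (1 + Real.log (2 ^ K)) * (2 * (Real.log N) ^ (-δ)) *
        (1 + Real.log Z) ^ M + (1 + Real.log N) ^ A * (Z : ℝ) ^ (-(1 : ℝ) / 6)) := by
        positivity
      have h1 := cf_sum X P L (N := N) (K := K) hB0 fun E hE =>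
        cf_fib X P δ C1 hδ hδ1 hC1 L (hden L hL) hC2 hA (hbox L hL) hN16 hZ hZK ha hE
      refine h1.trans ?_
      have h2 : (C2 * N * (Real.exp C1 * (1 + Real.log (2 ^ K)) * (2 * (Real.log N) ^ (-δ)) *
          (1 + Real.log Z) ^ M + (1 + Real.log N) ^ A * (Z : ℝ) ^ (-(1 : ℝ) / 6))) *
          (1 + Real.log (2 ^ K)) ^ m =
          C2 * N * (2 * Real.exp C1 * ((Real.log N) ^ (-δ) * (1 + Real.log (2 ^ K)) ^ (m + 1) *
            (1 + Real.log Z) ^ M) +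
            (1 + Real.log (2 ^ K)) ^ m * ((1 + Real.log N) ^ A * (Z : ℝ) ^ (-(1 : ℝ) / 6))) := by
        ring
      rw [h2]
      calc _ ≤ C2 * N * (2 * Real.exp C1 * (Ca * (Real.log N) ^ (-(δ / 2))) +
            Ca * (Real.log N) ^ (-(δ / 2))) := by gcongr
        _ = C2 * ((2 * Real.exp C1 + 1) * Ca) * (N * (Real.log N) ^ (-(δ / 2))) := by ring
        _ ≤ _ := by
          refine mul_le_mul_of_nonneg_right ?_ (by positivity)
          linarith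
  have hsplit := cf_split X P N (2 ^ K)
  have hcast : ({n : ℕ | n ≤ N ∧ ∃ D : ι → ℕ, ∏ i, D i = n ∧ X.Allowed D ∧ P D}.ncard : ℝ) ≤
      ∑ L : Finset ι, ((cfT X P N (2 ^ K) L).ncard : ℝ) := by exact_mod_cast hsplit
  refine hcast.trans ((sum_le_sum fun L _ => hone L).trans (le_of_eq ?_))
  rw [sum_const, card_univ, Fintype.card_finset, nsmul_eq_mul, ← hm]
  push_cast
  ring

end Pool.Agent.SCY
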