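import Pool.Agent.SCT.Count

/-!
SCY module CNTQ (MP_896029_ag; plan /team-store/scy_plan.md): from tuples to squarefree `d`, with an additional
condition `Q` on the vector `e`.

Proof: the same as `cntG` (SCX/CntG.lean; copy it with its private lemmas).  The set `G c N` gets the additional
condition `Q (fun j => c j * D j)`; in the last part `e j = c j * D j` (`hce`), so `Q e` is that condition.
-/

set_option linter.dupNamespace false

namespace Pool.Agent.SCY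

open Finset Pool.Agent.SCT

variable {ι : Type} [Fintype ι] [DecidableEq ι]

/-- savings of a power of the logarithm -/
private def Sav (f : ℕ → ℝ) : Prop :=
  ∃ C δ : ℝ, 0 ≤ C ∧ 0 < δ ∧ ∀ N : ℕ, 2 ≤ N → f N ≤ C * N / (Real.log N) ^ δ

private lemma Sav.weaken {f : ℕ → ℝ} {C δ δ' : ℝ} (hC : 0 ≤ C)
    (h : ∀ N : ℕ, 2 ≤ N → f N ≤ C * N / (Real.log N) ^ δ) (hδ' : δ' ≤ δ) :
    ∀ N : ℕ, 2 ≤ N → f N ≤ (C * 2 ^ (δ - δ')) * N / (Real.log N) ^ δ' := by
  intro N hN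
  refine (h N hN).trans ?_
  have hN' : (2 : ℝ) ≤ N := by exact_mod_cast hN
  have hl : 1 / 2 ≤ Real.log N := by
    have h1 := Real.log_two_gt_d9
    have h2 := Real.log_le_log (by norm_num) hN'
    linarith
  have hl0 : 0 < Real.log N := by linarith
  have h3 : 1 ≤ 2 ^ (δ - δ') * (Real.log N) ^ (δ - δ') := by
    rw [← Real.mul_rpow (by norm_num) hl0.le]
    exact Real.one_le_rpow (by linarith) (by linarith)
  have h4 : (Real.log N) ^ δ = (Real.log N) ^ (δ - δ') * (Real.log N) ^ δ' := by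
    rw [← Real.rpow_add hl0]; congr 1; ring
  rw [h4, div_le_div_iff₀ (by positivity) (by positivity)]
  have h5 : 0 ≤ C * N * (Real.log N) ^ δ' := by positivity
  nlinarith

private lemma Sav.add {f g : ℕ → ℝ} (hf : Sav f) (hg : Sav g) : Sav (fun N => f N + g N) := by
  obtain ⟨C1, δ1, hC1, hδ1, h1⟩ := hf
  obtain ⟨C2, δ2, hC2, hδ2, h2⟩ := hg
  refine ⟨C1 * 2 ^ (δ1 - min δ1 δ2) + C2 * 2 ^ (δ2 - min δ1 δ2), min δ1 δ2, by positivity,
    lt_min hδ1 hδ2, fun N hN => ?_⟩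
  have e1 := Sav.weaken hC1 h1 (min_le_left δ1 δ2) N hN
  have e2 := Sav.weaken hC2 h2 (min_le_right δ1 δ2) N hN
  rw [add_mul, add_div]
  exact add_le_add e1 e2

private lemma Sav.sum {α : Type*} (S : Finset α) (f : α → ℕ → ℝ) (h : ∀ a ∈ S, Sav (f a)) :
    Sav (fun N => ∑ a ∈ S, f a N) := by
  classical
  induction S using Finset.induction_on with
  | empty => exact ⟨0, 1, le_rfl, one_pos, fun N _ => by simp⟩
  | insert a S ha ih =>
    have h1 := ih fun b hb => h b (Finset.mem_insert_of_mem hb)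
    have h2 := (h a (Finset.mem_insert_self _ _)).add h1
    simpa only [Finset.sum_insert ha] using h2

/-- the prime factors larger than `B` -/
private def bigP (B : ℕ) (e : ℤ) : Finset ℕ := e.natAbs.primeFactors.filter (fun q => B < q)

private lemma mem_bigP {B : ℕ} {e : ℤ} (he : e ≠ 0) {q : ℕ} :
    q ∈ bigP B e ↔ q.Prime ∧ (q : ℤ) ∣ e ∧ B < q := by
  unfold bigP
  rw [Finset.mem_filter, Nat.mem_primeFactors]
  have h1 : q ∣ e.natAbs ↔ (q : ℤ) ∣ e := Int.natCast_dvd.symm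
  have h2 : e.natAbs ≠ 0 := Int.natAbs_ne_zero.mpr he
  tauto

/-- the finite set of the constants -/
private noncomputable def Sf (B : ℕ) : Finset ℤ := by
  classical
  exact (Finset.Icc (-((∏ q ∈ Finset.range (B + 1), (q + 1) : ℕ) : ℤ))
    ((∏ q ∈ Finset.range (B + 1), (q + 1) : ℕ) : ℤ)).filter
    (fun u => ∀ q : ℕ, q.Prime → B < q → ¬ (q : ℤ) ∣ u)

private lemma mem_Sf {B : ℕ} {u : ℤ} (hu : u ∈ Sf B) : ∀ q : ℕ, q.Prime → B < q → ¬ (q : ℤ) ∣ u := by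
  classical
  unfold Sf at hu
  exact (Finset.mem_filter.mp hu).2

/-- decomposition of a squarefree integer -/
private lemma decomp (B : ℕ) (e : ℤ) (he : Squarefree e) :
    ∃ c ∈ Sf B, e = c * ((∏ q ∈ bigP B e, q : ℕ) : ℤ) := by
  classical
  have he0 : e ≠ 0 := he.ne_zero
  have hsq : Squarefree e.natAbs := Int.squarefree_natAbs.mpr he
  obtain ⟨sm, hsm⟩ : ∃ sm, sm = ∏ q ∈ e.natAbs.primeFactors.filter (fun q => ¬ B < q), q := ⟨_, rfl⟩
  have hprod : sm * (∏ q ∈ bigP B e, q) = e.natAbs := by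
    rw [hsm, mul_comm]
    unfold bigP
    rw [Finset.prod_filter_mul_prod_filter_not]
    exact Nat.prod_primeFactors_of_squarefree hsq
  refine ⟨e.sign * sm, ?_, ?_⟩
  · unfold Sf
    rw [Finset.mem_filter, Finset.mem_Icc]
    have hle : sm ≤ ∏ q ∈ Finset.range (B + 1), (q + 1) := by
      rw [hsm]
      calc ∏ q ∈ e.natAbs.primeFactors.filter (fun q => ¬ B < q), q
          ≤ ∏ q ∈ e.natAbs.primeFactors.filter (fun q => ¬ B < q), (q + 1) :=
            Finset.prod_le_prod' fun q _ => Nat.le_succ q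
        _ ≤ ∏ q ∈ Finset.range (B + 1), (q + 1) := by
            apply Finset.prod_le_prod_of_subset_of_one_le'
            · intro q hq
              have := (Finset.mem_filter.mp hq).2
              rw [Finset.mem_range]; omega
            · intro q _ _
              omega
    have habs : |e.sign * (sm : ℤ)| = sm := by
      rw [abs_mul, Int.abs_sign_of_ne_zero he0, one_mul, Nat.abs_cast]
    refine ⟨abs_le.mp ?_, ?_⟩
    · rw [habs]
      exact_mod_cast hle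
    · intro q hq hBq hdvd
      have h1 : (q : ℤ) ∣ (sm : ℤ) := by
        have h2 := (dvd_abs (q : ℤ) _).mpr hdvd
        rwa [habs] at h2
      have h2 : q ∣ sm := by exact_mod_cast h1
      rw [hsm] at h2
      obtain ⟨q', hq', hqq'⟩ := (Prime.dvd_finsetProd_iff hq.prime _).mp h2
      have h3 := Finset.mem_filter.mp hq'
      have h4 : q'.Prime := Nat.prime_of_mem_primeFactors h3.1
      have h5 := (Nat.prime_dvd_prime_iff_eq hq h4).mp hqq'
      omega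
  · have h1 : ((sm * (∏ q ∈ bigP B e, q) : ℕ) : ℤ) = (e.natAbs : ℤ) := by rw [hprod]
    rw [Nat.cast_mul] at h1
    rw [mul_assoc, h1]
    exact (Int.sign_mul_natAbs e).symm

theorem cntQ (Pat : ι → ℕ → Finset (ι → ℤˣ)) (hnorm : ∀ i q, ∀ y ∈ Pat i q, y i = 1)
    (B : ℕ) (hB : 2 ≤ B) (Q : (ι → ℤ) → Prop)
    (hcount : ∀ X : CData ι, X.Pat = Pat → X.B = B → ∃ C δ : ℝ, 0 ≤ C ∧ 0 < δ ∧
      ∀ N : ℕ, 2 ≤ N → ({n : ℕ | n ≤ N ∧ ∃ D : ι → ℕ, ∏ i, D i = n ∧ X.Allowed D ∧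
        Q (fun j => X.c j * D j)}.ncard : ℝ) ≤ C * N / (Real.log N) ^ δ)
    (𝒮 : Set ℤ)
    (har : ∀ d : ℤ, Squarefree d → d ∈ 𝒮 →
      ∃ e : ι → ℤ, (∀ j, Squarefree (e j)) ∧ Q e ∧ ∀ q : ℕ, q.Prime → B < q →
        (¬ (q : ℤ) ∣ d → ∀ j, ¬ (q : ℤ) ∣ e j) ∧
        ((q : ℤ) ∣ d → ∃ i : ι, (q : ℤ) ∣ e i ∧ (∀ j, j ≠ i → ¬ (q : ℤ) ∣ e j) ∧
          ∃ z : ι → ℤˣ, z ∈ Pat i q ∧ ∀ j, j ≠ i → jacobiSym (e j) q = ((z j : ℤˣ) : ℤ))) :
    ∃ C δ : ℝ, 0 ≤ C ∧ 0 < δ ∧ ∀ N : ℕ, 2 ≤ N →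
      ({d : ℤ | Squarefree d ∧ |d| ≤ N ∧ d ∈ 𝒮}.ncard : ℝ) ≤ C * N / (Real.log N) ^ δ := by
  classical
  -- the data
  obtain ⟨P, hP⟩ : ∃ P : Finset (ι → ℤ), P = Fintype.piFinset (fun _ => Sf B) := ⟨_, rfl⟩
  have hPc : ∀ c ∈ P, ∀ i, ∀ q : ℕ, q.Prime → B < q → ¬ (q : ℤ) ∣ c i := by
    intro c hc i
    rw [hP, Fintype.mem_piFinset] at hc
    exact mem_Sf (hc i)
  obtain ⟨G, hG⟩ : ∃ G : (ι → ℤ) → ℕ → Set ℕ, G = fun c N =>
    {n | n ≤ N ∧ ∃ D : ι → ℕ, ∏ i, D i = n ∧ (Good B (∏ i, D i) ∧ ∀ i, ∀ q : ℕ, q.Prime →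
      q ∣ D i → ∃ y ∈ Pat i q, ∀ j, j ≠ i → jacobiSym (c j * D j) q = ((y j : ℤˣ) : ℤ)) ∧
      Q (fun j => c j * D j)} :=
    ⟨_, rfl⟩
  have hGfin : ∀ c N, (G c N).Finite := by
    intro c N
    refine (Set.finite_Iic N).subset ?_
    rw [hG]
    exact fun n hn => hn.1
  have hGsav : ∀ c ∈ P, Sav (fun N => ((G c N).ncard : ℝ)) := by
    intro c hc
    let X : CData ι := { Pat := Pat, norm := hnorm, c := c, B := B, two_le := hB, hc := hPc c hc }
    obtain ⟨C, δ', hC, hδ', h⟩ := hcount X rfl rfl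
    refine ⟨C, δ', hC, hδ', fun N hN => ?_⟩
    have h1 := h N hN
    have h2 : {n : ℕ | n ≤ N ∧ ∃ D : ι → ℕ, ∏ i, D i = n ∧ X.Allowed D ∧
        Q (fun j => X.c j * D j)} = G c N := by rw [hG]; rfl
    rw [h2] at h1
    exact h1
  have hsav := Sav.sum (Sf B ×ˢ P) (fun p N => ((G p.2 N).ncard : ℝ))
    (fun p hp => hGsav p.2 (Finset.mem_product.mp hp).2)
  obtain ⟨C, δ', hC, hδ', h⟩ := hsav
  refine ⟨C, δ', hC, hδ', fun N hN => le_trans ?_ (h N hN)⟩
  have hsub : {d : ℤ | Squarefree d ∧ |d| ≤ N ∧ d ∈ 𝒮} ⊆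
      ⋃ p ∈ Sf B ×ˢ P, (fun n : ℕ => p.1 * (n : ℤ)) '' (G p.2 N) := by
    rintro d ⟨hdsq, hdN, hds⟩
    obtain ⟨e, hesq, hQe, he⟩ := har d hdsq hds
    choose c hcS hce using fun j => decomp B (e j) (hesq j)
    obtain ⟨u, huS, hud⟩ := decomp B d hdsq
    have hcP : c ∈ P := by
      rw [hP, Fintype.mem_piFinset]
      exact hcS
    simp only [Set.mem_iUnion]
    refine ⟨(u, c), Finset.mem_product.mpr ⟨huS, hcP⟩, ∏ q ∈ bigP B d, q, ?_, hud.symm⟩
    have hunion : bigP B d = Finset.univ.biUnion (fun j => bigP B (e j)) := by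
      ext q
      rw [Finset.mem_biUnion, mem_bigP hdsq.ne_zero]
      constructor
      · rintro ⟨hq, hqd, hBq⟩
        obtain ⟨i, hi, -⟩ := (he q hq hBq).2 hqd
        exact ⟨i, Finset.mem_univ _, (mem_bigP (hesq i).ne_zero).mpr ⟨hq, hi, hBq⟩⟩
      · rintro ⟨i, -, hi⟩
        obtain ⟨hq, hqe, hBq⟩ := (mem_bigP (hesq i).ne_zero).mp hi
        refine ⟨hq, ?_, hBq⟩
        by_contra hcon
        exact (he q hq hBq).1 hcon i hqe
    have hdisj : Set.PairwiseDisjoint (Finset.univ : Finset ι) (fun j => bigP B (e j)) := by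
      intro i _ j _ hij
      rw [Function.onFun, Finset.disjoint_left]
      intro q hqi hqj
      obtain ⟨hq, hqei, hBq⟩ := (mem_bigP (hesq i).ne_zero).mp hqi
      obtain ⟨-, hqej, -⟩ := (mem_bigP (hesq j).ne_zero).mp hqj
      have hqd : (q : ℤ) ∣ d := by
        by_contra hcon
        exact (he q hq hBq).1 hcon i hqei
      obtain ⟨i', -, hi', -⟩ := (he q hq hBq).2 hqd
      have h1 : i = i' := by
        by_contra hne
        exact hi' i hne hqei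
      have h2 : j = i' := by
        by_contra hne
        exact hi' j hne hqej
      exact hij (h1.trans h2.symm)
    have hprod : ∏ i, ∏ q ∈ bigP B (e i), q = ∏ q ∈ bigP B d, q := by
      rw [hunion, Finset.prod_biUnion hdisj]
    have hdvd : ((∏ q ∈ bigP B d, q : ℕ) : ℤ) ∣ d := ⟨u, by rw [mul_comm]; exact hud⟩
    have hle : ∏ q ∈ bigP B d, q ≤ N := by
      have h1 : ∏ q ∈ bigP B d, q ∣ d.natAbs := Int.natCast_dvd.mp hdvd
      have h2 := Nat.le_of_dvd (Int.natAbs_pos.mpr hdsq.ne_zero) h1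
      have h3 : (d.natAbs : ℤ) = |d| := Int.natCast_natAbs d
      omega
    rw [hG]
    refine ⟨hle, fun i => ∏ q ∈ bigP B (e i), q, hprod, ⟨⟨?_, ?_⟩, ?_⟩, ?_⟩
    · rw [hprod]
      have h1 : Squarefree ((∏ q ∈ bigP B d, q : ℕ) : ℤ) := hdsq.squarefree_of_dvd hdvd
      exact Int.squarefree_natCast.mp h1
    · rw [hprod]
      intro q hq hqd
      obtain ⟨q', hq', hqq'⟩ := (Prime.dvd_finsetProd_iff hq.prime _).mp hqd
      obtain ⟨h1, -, h3⟩ := (mem_bigP hdsq.ne_zero).mp hq'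
      rw [(Nat.prime_dvd_prime_iff_eq hq h1).mp hqq']
      exact h3
    · intro i q hq hqi
      obtain ⟨q', hq', hqq'⟩ := (Prime.dvd_finsetProd_iff hq.prime _).mp hqi
      obtain ⟨h1, h2, h3⟩ := (mem_bigP (hesq i).ne_zero).mp hq'
      rw [← (Nat.prime_dvd_prime_iff_eq hq h1).mp hqq'] at h2 h3
      have hqd : (q : ℤ) ∣ d := by
        by_contra hcon
        exact (he q hq h3).1 hcon i h2
      obtain ⟨i', hi'1, hi', z, hz, hzj⟩ := (he q hq h3).2 hqd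
      have hii : i = i' := by
        by_contra hne
        exact hi' i hne h2
      subst hii
      refine ⟨z, hz, fun j hj => ?_⟩
      rw [← hzj j hj]
      congr 1
      exact (hce j).symm
    · have h1 : e = fun j => c j * ((∏ q ∈ bigP B (e j), q : ℕ) : ℤ) := funext hce
      exact h1 ▸ hQe
  have hfin : (⋃ p ∈ Sf B ×ˢ P, (fun n : ℕ => p.1 * (n : ℤ)) '' (G p.2 N)).Finite := by
    apply Set.Finite.biUnion (Finset.finite_toSet _)
    intro p _
    exact (hGfin _ _).image _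
  have h1 := Set.ncard_le_ncard hsub hfin
  have h2 := Finset.set_ncard_biUnion_le (Sf B ×ˢ P)
    (fun p : ℤ × (ι → ℤ) => (fun n : ℕ => p.1 * (n : ℤ)) '' (G p.2 N))
  have h3 : ∑ p ∈ Sf B ×ˢ P, ((fun n : ℕ => p.1 * (n : ℤ)) '' (G p.2 N)).ncard ≤
      ∑ p ∈ Sf B ×ˢ P, (G p.2 N).ncard :=
    Finset.sum_le_sum fun p _ => Set.ncard_image_le (hGfin _ _)
  have h4 := h1.trans (h2.trans h3)
  show ({d : ℤ | Squarefree d ∧ |d| ≤ N ∧ d ∈ 𝒮}.ncard : ℝ) ≤
    ∑ p ∈ Sf B ×ˢ P, ((G p.2 N).ncard : ℝ)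
  exact_mod_cast h4

end Pool.Agent.SCY
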