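import Pool.Agent.SCY.Per

/-!
SCY module CVL (MP_896029_ag; plan /team-store/scy_plan.md): the mean value of `1 * chi` and the product over
the split primes.

Proof of `con_le`.  For `d ≤ x` let `a d = d ^ (-s) * H (x / d)`, `H y = ∑ m ∈ Icc 1 y, m ^ (-s)`.  Writing `n = d * m`
(`Nat.divisors`, `Finset.sum_sigma'`, or `Nat.sum_divisors...`), the sum is
`∑ n ∈ Icc 1 x, ∑ d ∈ n.divisors, chi E d * n ^ (-s) = ∑ d ∈ Icc 1 x, chi E d * a d`.
`a` is nonnegative and nonincreasing in `d`, and `H y ≤ 1 + 1 / (s - 1) =: Z`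
(`m ^ (-s) ≤ ∫ t in (m-1)..m, t ^ (-s)` for `m ≥ 2`, or the telescoping estimate
`(s - 1) * m ^ (-s) ≤ (m - 1) ^ (1 - s) - m ^ (1 - s)` for `m ≥ 2`).  Let `M = 4 * |E|`.
Terms with `d ≤ M`: at most `∑ d ∈ Icc 1 M, d ^ (-1) * Z ≤ (1 + log M) * Z` (`harmonic_le_one_add_log`; `|chi E d| ≤ 1`,
`d ^ (-s) ≤ d ^ (-1)`).
Terms with `d > M` (if `x > M`): Abel summation with the bound `chi_sum_le` (partial sums at most `M` in absolute
value, differences of partial sums at most `2 * M`): at most `2 * M * a (M + 1) ≤ 2 * M * (M + 1) ^ (-1) * Z ≤ 2 * Z`.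
(Abel summation for a nonincreasing nonnegative sequence: `|∑ d ∈ Ioc M x, c d * a d| ≤ B * a (M + 1)` if all
`|∑ d ∈ Ioc M t, c d| ≤ B`; prove it by induction or with `Finset.sum_range_by_parts`.)
Total at most `(3 + log M) * Z`.

Proof of `split_prod`.  Let `x = ∏ q ∈ S, q`.  Expand `∏ q ∈ S, (1 + 2 * q ^ (-s)) = ∑ T ∈ S.powerset, ∏ q ∈ T, 2 * q ^ (-s)`
(`Finset.prod_one_add` / `Finset.prod_add`) `= ∑ T ∈ S.powerset, 2 ^ T.card * (∏ q ∈ T, q) ^ (-s)`.  For `n = ∏ q ∈ T, q`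
(injective in `T`, `n ∣ x` so `n ≤ x`), `∑ d ∈ n.divisors, chi E d = 2 ^ T.card`: all divisors of `n` are products of
primes of `T` so `chi E d = 1`, and `n.divisors.card = 2 ^ T.card` (e.g. by induction on `T`, or
`Nat.Coprime.card_divisors_mul`).  The remaining terms are nonnegative by `one_chi_nonneg`.

Proof of `one_chi_nonneg`: `∑ d ∈ n.divisors, chi E d` is a multiplicative function of `n` (`ArithmeticFunction`,
`Nat.Coprime.sum_divisors...`); at a prime power it is `1 + e + ... + e ^ k` with `e = chi E q`, one of `0, 1, -1`,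
which is `≥ 0`.  (`Nat.recOnPosPrimePosCoprime`/`Nat.recOnMul`, `Nat.Coprime.sum_divisors_eq...`, or via
`Nat.divisors_prime_pow` and `Nat.Coprime.prod_divisors...`.)
-/

set_option linter.dupNamespace false

namespace Pool.Agent.SCY

open Finset

/-- `chi E` as an arithmetic function -/
private def cA (E : ℤ) : ArithmeticFunction ℤ := ⟨fun n => chi E n, by simp [chi]⟩

private theorem cA_apply (E : ℤ) (n : ℕ) : cA E n = chi E n := rfl

private theorem cA_mult (E : ℤ) : (cA E).IsMultiplicative := by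
  refine ⟨?_, ?_⟩
  · rw [cA_apply, chi_one]
  · intro m n _
    rw [cA_apply, cA_apply, cA_apply, chi_mul]

/-- `1 * chi` as an arithmetic function -/
private def sA (E : ℤ) : ArithmeticFunction ℤ := cA E * (ArithmeticFunction.zeta : ArithmeticFunction ℤ)

private theorem sA_apply (E : ℤ) (n : ℕ) : sA E n = ∑ d ∈ n.divisors, chi E d := by
  rw [sA, ArithmeticFunction.coe_mul_zeta_apply]
  rfl

private theorem sA_mult (E : ℤ) : (sA E).IsMultiplicative :=
  (cA_mult E).mul ArithmeticFunction.isMultiplicative_zeta.natCast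

private theorem chi_pow (E : ℤ) (q k : ℕ) : chi E (q ^ k) = chi E q ^ k := by
  induction k with
  | zero => rw [pow_zero, pow_zero, chi_one]
  | succ k ih => rw [pow_succ, pow_succ, chi_mul, ih]

theorem one_chi_nonneg (E : ℤ) (n : ℕ) : 0 ≤ ∑ d ∈ n.divisors, chi E d := by
  rcases Nat.eq_zero_or_pos n with h0 | h0
  · subst h0; simp
  rw [← sA_apply, (sA_mult E).multiplicative_factorization _ h0.ne']
  refine Finset.prod_nonneg fun q hq => ?_
  have hp : q.Prime := Nat.prime_of_mem_primeFactors (by simpa using hq)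
  show 0 ≤ sA E (q ^ n.factorization q)
  rw [sA_apply, Nat.sum_divisors_prime_pow hp]
  simp only [chi_pow]
  rcases chi_tri E q with h | h | h
  · rw [h]
    exact Finset.sum_nonneg fun i _ => pow_nonneg le_rfl i
  · rw [h]
    exact Finset.sum_nonneg fun i _ => pow_nonneg zero_le_one i
  · rw [h, neg_one_geom_sum]
    split_ifs <;> norm_num

/-- the partial sums of the zeta series -/
private noncomputable def Hy (s : ℝ) (y : ℕ) : ℝ := ∑ m ∈ Ioc 0 y, (m : ℝ) ^ (-s)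

private theorem Hy_nonneg (s : ℝ) (y : ℕ) : 0 ≤ Hy s y :=
  Finset.sum_nonneg fun m _ => Real.rpow_nonneg (Nat.cast_nonneg m) _

private theorem Hy_mono (s : ℝ) {y z : ℕ} (h : y ≤ z) : Hy s y ≤ Hy s z :=
  Finset.sum_le_sum_of_subset_of_nonneg (Finset.Ioc_subset_Ioc le_rfl h)
    fun m _ _ => Real.rpow_nonneg (Nat.cast_nonneg m) _

private theorem tele (s : ℝ) (hs : 1 < s) (m : ℕ) (hm : 1 ≤ m) :
    (s - 1) * ((m + 1 : ℕ) : ℝ) ^ (-s) ≤ (m : ℝ) ^ (1 - s) - ((m + 1 : ℕ) : ℝ) ^ (1 - s) := by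
  have hm0 : (0 : ℝ) < m := by exact_mod_cast hm
  have hm1 : (0 : ℝ) < ((m + 1 : ℕ) : ℝ) := by positivity
  set M : ℝ := ((m + 1 : ℕ) : ℝ) with hM
  have hMm : M = m + 1 := by rw [hM]; push_cast; ring
  -- m ^ (1 - s) = M ^ (1 - s) * (m / M) ^ (1 - s)
  have h1 : (m : ℝ) ^ (1 - s) = M ^ (1 - s) * ((m : ℝ) / M) ^ (1 - s) := by
    rw [← Real.mul_rpow hm1.le (div_nonneg hm0.le hm1.le), mul_div_cancel₀ _ hm1.ne']
  have h2 : 1 + (s - 1) / M ≤ ((m : ℝ) / M) ^ (1 - s) := by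
    have hq : (0 : ℝ) < (m : ℝ) / M := div_pos hm0 hm1
    rw [Real.rpow_def_of_pos hq]
    have h3 : Real.log ((m : ℝ) / M) ≤ (m : ℝ) / M - 1 := Real.log_le_sub_one_of_pos hq
    have h4 : (m : ℝ) / M - 1 = - (1 / M) := by
      rw [hMm]; field_simp; ring
    have h5 : (s - 1) / M ≤ Real.log ((m : ℝ) / M) * (1 - s) := by
      have : (s - 1) * (1 / M) ≤ (s - 1) * (- Real.log ((m : ℝ) / M)) :=
        mul_le_mul_of_nonneg_left (by linarith) (by linarith)
      calc (s - 1) / M = (s - 1) * (1 / M) := by ring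
        _ ≤ _ := this
        _ = _ := by ring
    have h6 := Real.add_one_le_exp (Real.log ((m : ℝ) / M) * (1 - s))
    linarith
  have h7 : M ^ (-s) = M ^ (1 - s) / M := by
    rw [show (-s) = (1 - s) - 1 by ring, Real.rpow_sub_one hm1.ne']
  rw [h1, h7]
  have h8 : 0 ≤ M ^ (1 - s) := Real.rpow_nonneg hm1.le _
  have h9 := mul_le_mul_of_nonneg_left h2 h8
  have h10 : (s - 1) * (M ^ (1 - s) / M) = M ^ (1 - s) * ((s - 1) / M) := by ring
  rw [h10]
  linarith

private theorem Hy_le (s : ℝ) (hs : 1 < s) (y : ℕ) : Hy s y ≤ 1 + 1 / (s - 1) := by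
  have hs0 : 0 < s - 1 := by linarith
  rcases Nat.eq_zero_or_pos y with h0 | h0
  · subst h0
    simp only [Hy, Finset.Ioc_self, Finset.sum_empty]
    positivity
  obtain ⟨k, rfl⟩ : ∃ k, y = k + 1 := ⟨y - 1, by omega⟩
  have key : ∀ k : ℕ, (s - 1) * Hy s (k + 1) ≤ (s - 1) + (1 - ((k + 1 : ℕ) : ℝ) ^ (1 - s)) := by
    intro k
    induction k with
    | zero => simp [Hy]
    | succ k ih =>
      have e : Hy s (k + 1 + 1) = Hy s (k + 1) + ((k + 1 + 1 : ℕ) : ℝ) ^ (-s) := by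
        rw [Hy, Hy, Finset.sum_Ioc_succ_top (Nat.zero_le _)]
      rw [e, mul_add]
      have := tele s hs (k + 1) (by omega)
      linarith
  have h1 := key k
  have h2 : 0 ≤ ((k + 1 : ℕ) : ℝ) ^ (1 - s) := Real.rpow_nonneg (Nat.cast_nonneg _) _
  have h3 : (s - 1) * Hy s (k + 1) ≤ (s - 1) * (1 + 1 / (s - 1)) := by
    have : (s - 1) * (1 + 1 / (s - 1)) = (s - 1) + 1 := by
      field_simp
    rw [this]; linarith
  exact le_of_mul_le_mul_left h3 hs0

/-- Abel summation -/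
private theorem abel (c a : ℕ → ℝ) (B : ℝ) (ha : Antitone a) (ha0 : ∀ i, 0 ≤ a i)
    (hc : ∀ t, |∑ i ∈ range t, c i| ≤ B) (n : ℕ) : |∑ i ∈ range n, c i * a i| ≤ B * a 0 := by
  have hB : 0 ≤ B := le_trans (abs_nonneg _) (hc 0)
  -- sum of c i * a i = C n * a n + sum_{i < n} C (i+1) * (a i - a (i+1))
  have key : ∀ n, ∑ i ∈ range n, c i * a i = (∑ i ∈ range n, c i) * a n +
      ∑ i ∈ range n, (∑ j ∈ range (i + 1), c j) * (a i - a (i + 1)) := by
    intro n
    induction n with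
    | zero => simp
    | succ n ih =>
      rw [Finset.sum_range_succ, ih, Finset.sum_range_succ (fun i => (∑ j ∈ range (i + 1), c j) * (a i - a (i + 1)))]
      rw [Finset.sum_range_succ c n]
      ring
  have tel : ∀ n, a n + ∑ i ∈ range n, (a i - a (i + 1)) = a 0 := by
    intro n
    induction n with
    | zero => simp
    | succ n ih => rw [Finset.sum_range_succ]; linarith
  rw [key n]
  calc |(∑ i ∈ range n, c i) * a n + ∑ i ∈ range n, (∑ j ∈ range (i + 1), c j) * (a i - a (i + 1))|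
      ≤ |(∑ i ∈ range n, c i) * a n| + |∑ i ∈ range n, (∑ j ∈ range (i + 1), c j) * (a i - a (i + 1))| :=
        abs_add_le _ _
    _ ≤ B * a n + ∑ i ∈ range n, B * (a i - a (i + 1)) := by
        refine add_le_add ?_ (le_trans (Finset.abs_sum_le_sum_abs _ _) (Finset.sum_le_sum fun i _ => ?_))
        · rw [abs_mul, abs_of_nonneg (ha0 n)]
          exact mul_le_mul_of_nonneg_right (hc n) (ha0 n)
        · rw [abs_mul, abs_of_nonneg (sub_nonneg.mpr (ha (Nat.le_succ i)))]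
          exact mul_le_mul_of_nonneg_right (hc (i + 1)) (sub_nonneg.mpr (ha (Nat.le_succ i)))
    _ = B * a 0 := by
        rw [← Finset.mul_sum, ← mul_add, tel n]

private theorem chi_abs (E : ℤ) (n : ℕ) : |((chi E n : ℤ) : ℝ)| ≤ 1 := by
  rcases chi_tri E n with h | h | h <;> rw [h] <;> norm_num

/-- the double sum -/
private theorem dbl (E : ℤ) (s : ℝ) (x : ℕ) :
    ∑ n ∈ Icc 1 x, ((∑ d ∈ n.divisors, chi E d : ℤ) : ℝ) * (n : ℝ) ^ (-s) =
      ∑ d ∈ Ioc 0 x, ((chi E d : ℤ) : ℝ) * ((d : ℝ) ^ (-s) * Hy s (x / d)) := by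
  let f : ArithmeticFunction ℝ := ⟨fun n => ((chi E n : ℤ) : ℝ) * (n : ℝ) ^ (-s), by simp [chi]⟩
  let g : ArithmeticFunction ℝ := ⟨fun n => if n = 0 then 0 else (n : ℝ) ^ (-s), by simp⟩
  have hf : ∀ n, f n = ((chi E n : ℤ) : ℝ) * (n : ℝ) ^ (-s) := fun n => rfl
  have hg : ∀ n, n ≠ 0 → g n = (n : ℝ) ^ (-s) := fun n hn => if_neg hn
  have h1 := ArithmeticFunction.sum_Ioc_mul_eq_sum_sum f g x
  have e1 : (Icc 1 x : Finset ℕ) = Ioc 0 x := by
    ext n; simp only [mem_Icc, mem_Ioc]; omega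
  rw [e1]
  have h2 : ∀ n ∈ Ioc 0 x, ((∑ d ∈ n.divisors, chi E d : ℤ) : ℝ) * (n : ℝ) ^ (-s) = (f * g) n := by
    intro n hn
    have hn0 : n ≠ 0 := by have := (mem_Ioc.mp hn).1; omega
    rw [ArithmeticFunction.mul_apply, Int.cast_sum, Finset.sum_mul,
      ← Nat.sum_divisorsAntidiagonal (n := n) (fun d _ => ((chi E d : ℤ) : ℝ) * (n : ℝ) ^ (-s))]
    refine Finset.sum_congr rfl fun p hp => ?_
    have hp1 := (Nat.mem_divisorsAntidiagonal.mp hp).1
    have hp2 : p.2 ≠ 0 := by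
      rintro h; rw [h, mul_zero] at hp1; exact hn0 hp1.symm
    rw [hf, hg _ hp2, ← hp1, Nat.cast_mul, Real.mul_rpow (Nat.cast_nonneg _) (Nat.cast_nonneg _)]
    ring
  rw [Finset.sum_congr rfl h2, h1]
  refine Finset.sum_congr rfl fun n _ => ?_
  rw [hf, mul_assoc]
  congr 2
  rw [Hy]
  refine Finset.sum_congr rfl fun m hm => ?_
  exact hg m (by have := (mem_Ioc.mp hm).1; omega)

theorem con_le (E : ℤ) (hE : ¬ IsSquare E) (s : ℝ) (hs : 1 < s) (x : ℕ) :
    ∑ n ∈ Icc 1 x, ((∑ d ∈ n.divisors, chi E d : ℤ) : ℝ) * (n : ℝ) ^ (-s) ≤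
      (3 + Real.log (4 * |(E : ℝ)|)) * (1 + 1 / (s - 1)) := by
  have hs0 : 0 < s - 1 := by linarith
  rw [dbl]
  set Z : ℝ := 1 + 1 / (s - 1) with hZ
  have hZ0 : 0 ≤ Z := by rw [hZ]; positivity
  set a : ℕ → ℝ := fun d => (d : ℝ) ^ (-s) * Hy s (x / d) with ha
  have ha0 : ∀ d, 0 ≤ a d := fun d =>
    mul_nonneg (Real.rpow_nonneg (Nat.cast_nonneg d) _) (Hy_nonneg s _)
  have ha1 : ∀ d, 1 ≤ d → a d ≤ (d : ℝ)⁻¹ * Z := by
    intro d hd
    have hd1 : (1 : ℝ) ≤ d := by exact_mod_cast hd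
    refine mul_le_mul ?_ (Hy_le s hs _) (Hy_nonneg s _) (by positivity)
    rw [← Real.rpow_neg_one]
    exact Real.rpow_le_rpow_of_exponent_le hd1 (by linarith)
  have hE0 : E ≠ 0 := by
    rintro rfl; exact hE ⟨0, by simp⟩
  set M : ℕ := 4 * E.natAbs with hM
  have hMpos : 1 ≤ M := by
    have : 1 ≤ E.natAbs := Int.natAbs_pos.mpr hE0
    omega
  have hMR : (M : ℝ) = 4 * |(E : ℝ)| := by
    rw [hM, Nat.cast_mul, Nat.cast_natAbs]; simp
  have hMZ : (M : ℤ) = 4 * |E| := by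
    rw [hM]; simp
  -- extend the range
  have hext : ∑ d ∈ Ioc 0 x, ((chi E d : ℤ) : ℝ) * a d =
      ∑ d ∈ range (M + 1 + x), ((chi E d : ℤ) : ℝ) * a d := by
    refine Finset.sum_subset ?_ ?_
    · intro d hd
      have := mem_Ioc.mp hd
      rw [mem_range]; omega
    · intro d _ hd
      rw [mem_Ioc] at hd
      rcases Nat.eq_zero_or_pos d with h0 | h0
      · subst h0; simp [chi]
      · have : x / d = 0 := Nat.div_eq_of_lt (by omega)
        simp [ha, this, Hy]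
  have hc0 : ((chi E 0 : ℤ) : ℝ) = 0 := by simp [chi]
  rw [hext, Finset.sum_range_add]
  -- first part
  have hfirst : ∑ d ∈ range (M + 1), ((chi E d : ℤ) : ℝ) * a d ≤ (1 + Real.log M) * Z := by
    rw [Finset.sum_range_succ', hc0, zero_mul, add_zero]
    calc ∑ d ∈ range M, ((chi E (d + 1) : ℤ) : ℝ) * a (d + 1)
        ≤ ∑ d ∈ range M, ((d + 1 : ℕ) : ℝ)⁻¹ * Z := by
          refine Finset.sum_le_sum fun d _ => ?_
          calc ((chi E (d + 1) : ℤ) : ℝ) * a (d + 1) ≤ |((chi E (d + 1) : ℤ) : ℝ)| * a (d + 1) :=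
                mul_le_mul_of_nonneg_right (le_abs_self _) (ha0 _)
            _ ≤ 1 * a (d + 1) := mul_le_mul_of_nonneg_right (chi_abs E _) (ha0 _)
            _ = a (d + 1) := one_mul _
            _ ≤ _ := ha1 (d + 1) (by omega)
      _ = ((harmonic M : ℚ) : ℝ) * Z := by
          rw [← Finset.sum_mul, harmonic]; push_cast; rfl
      _ ≤ (1 + Real.log M) * Z := mul_le_mul_of_nonneg_right (harmonic_le_one_add_log M) hZ0
  -- second part
  have hsec : |∑ d ∈ range x, ((chi E (M + 1 + d) : ℤ) : ℝ) * a (M + 1 + d)| ≤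
      (2 * M) * a (M + 1 + 0) := by
    refine abel (fun d => ((chi E (M + 1 + d) : ℤ) : ℝ)) (fun d => a (M + 1 + d)) (2 * M) ?_ (fun i => ha0 _) ?_ x
    · intro i j hij
      have hi : (0 : ℝ) < ((M + 1 + i : ℕ) : ℝ) := by positivity
      refine mul_le_mul ?_ (Hy_mono s (Nat.div_le_div_left (by omega) (by omega))) (Hy_nonneg s _)
        (Real.rpow_nonneg hi.le _)
      exact Real.rpow_le_rpow_of_nonpos hi (by exact_mod_cast (by omega : M + 1 + i ≤ M + 1 + j)) (by linarith)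
    · intro t
      have e : ∑ i ∈ range t, ((chi E (M + 1 + i) : ℤ) : ℝ) =
          ((∑ i ∈ range (M + 1 + t), chi E i - ∑ i ∈ range (M + 1), chi E i : ℤ) : ℝ) := by
        rw [Finset.sum_range_add, add_sub_cancel_left]; push_cast; rfl
      rw [e, ← Int.cast_abs]
      have h1 := chi_sum_le E hE (M + 1 + t)
      have h2 := chi_sum_le E hE (M + 1)
      have h3 : |∑ i ∈ range (M + 1 + t), chi E i - ∑ i ∈ range (M + 1), chi E i| ≤ 2 * (M : ℤ) := by
        rw [hMZ]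
        refine le_trans (abs_sub _ _) ?_
        linarith
      exact_mod_cast h3
  have hsec2 : (2 * (M : ℝ)) * a (M + 1 + 0) ≤ 2 * Z := by
    have h1 := ha1 (M + 1 + 0) (by omega)
    have h2 : (2 * (M : ℝ)) * a (M + 1 + 0) ≤ (2 * (M : ℝ)) * ((((M + 1 + 0 : ℕ) : ℝ))⁻¹ * Z) :=
      mul_le_mul_of_nonneg_left h1 (by positivity)
    refine le_trans h2 ?_
    have h3 : (M : ℝ) * (((M + 1 + 0 : ℕ) : ℝ))⁻¹ ≤ 1 := by
      rw [← div_eq_mul_inv, div_le_one (by positivity)]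
      push_cast; linarith
    calc (2 * (M : ℝ)) * ((((M + 1 + 0 : ℕ) : ℝ))⁻¹ * Z) = 2 * (((M : ℝ) * (((M + 1 + 0 : ℕ) : ℝ))⁻¹) * Z) := by ring
      _ ≤ 2 * (1 * Z) := by
          refine mul_le_mul_of_nonneg_left (mul_le_mul_of_nonneg_right h3 hZ0) (by norm_num)
      _ = 2 * Z := by ring
  have h4 := le_trans (le_abs_self _) (le_trans hsec hsec2)
  rw [← hMR]
  calc _ ≤ (1 + Real.log M) * Z + 2 * Z := add_le_add hfirst h4
    _ = (3 + Real.log M) * Z := by ring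

private theorem sA_prod (E : ℤ) (T : Finset ℕ) (hT : ∀ q ∈ T, q.Prime ∧ Odd q ∧ jacobiSym E q = 1) :
    ∑ d ∈ (∏ q ∈ T, q).divisors, chi E d = 2 ^ T.card := by
  rw [← sA_apply]
  induction T using Finset.induction_on with
  | empty => rw [Finset.prod_empty, Finset.card_empty, pow_zero]; exact (sA_mult E).map_one
  | insert q T hq ih =>
    have h1 := hT q (Finset.mem_insert_self _ _)
    have h2 : ∀ r ∈ T, r.Prime ∧ Odd r ∧ jacobiSym E r = 1 := fun r hr => hT r (Finset.mem_insert_of_mem hr)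
    rw [Finset.prod_insert hq, Finset.card_insert_of_notMem hq, (sA_mult E).map_mul_of_coprime, ih h2]
    · rw [sA_apply, h1.1.sum_divisors, chi_one, chi, if_pos h1.2.1, h1.2.2]
      ring
    · refine Nat.Coprime.prod_right fun r hr => ?_
      refine (Nat.coprime_primes h1.1 (h2 r hr).1).mpr ?_
      rintro rfl; exact hq hr

theorem split_prod (E : ℤ) (s : ℝ) (S : Finset ℕ)
    (hS : ∀ q ∈ S, q.Prime ∧ Odd q ∧ jacobiSym E q = 1) :
    ∃ x : ℕ, ∏ q ∈ S, (1 + 2 * (q : ℝ) ^ (-s)) ≤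
      ∑ n ∈ Icc 1 x, ((∑ d ∈ n.divisors, chi E d : ℤ) : ℝ) * (n : ℝ) ^ (-s) := by
  refine ⟨∏ q ∈ S, q, ?_⟩
  rw [Finset.prod_one_add]
  have hpos : ∀ q ∈ S, q ≠ 0 := fun q hq => (hS q hq).1.ne_zero
  have hinj : Set.InjOn (fun T : Finset ℕ => ∏ q ∈ T, q) (S.powerset : Set (Finset ℕ)) := by
    intro T hT U hU h
    have hT' := Finset.mem_powerset.mp hT
    have hU' := Finset.mem_powerset.mp hU
    have e1 := Nat.primeFactors_prod (s := T) fun p hp => (hS p (hT' hp)).1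
    have e2 := Nat.primeFactors_prod (s := U) fun p hp => (hS p (hU' hp)).1
    have h' : ∏ q ∈ T, q = ∏ q ∈ U, q := h
    rw [← e1, ← e2, h']
  have e : ∀ T ∈ S.powerset, ∏ q ∈ T, (2 * (q : ℝ) ^ (-s)) =
      ((∑ d ∈ (∏ q ∈ T, q).divisors, chi E d : ℤ) : ℝ) * (((∏ q ∈ T, q : ℕ) : ℝ)) ^ (-s) := by
    intro T hT
    have hT' := Finset.mem_powerset.mp hT
    rw [sA_prod E T fun q hq => hS q (hT' hq), Finset.prod_mul_distrib, Finset.prod_const,
      Nat.cast_prod, ← Real.finsetProd_rpow _ _ (fun q _ => Nat.cast_nonneg q)]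
    push_cast; rfl
  rw [Finset.sum_congr rfl e, ← Finset.sum_image
    (f := fun n : ℕ => ((∑ d ∈ n.divisors, chi E d : ℤ) : ℝ) * (n : ℝ) ^ (-s)) hinj]
  refine Finset.sum_le_sum_of_subset_of_nonneg ?_ ?_
  · intro n hn
    obtain ⟨T, hT, rfl⟩ := Finset.mem_image.mp hn
    have hT' := Finset.mem_powerset.mp hT
    rw [mem_Icc]
    refine ⟨Nat.one_le_iff_ne_zero.mpr (Finset.prod_ne_zero_iff.mpr fun q hq => hpos q (hT' hq)), ?_⟩
    exact Nat.le_of_dvd (Nat.pos_of_ne_zero (Finset.prod_ne_zero_iff.mpr hpos))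
      (Finset.prod_dvd_prod_of_subset _ _ _ hT')
  · intro n _ _
    refine mul_nonneg ?_ (Real.rpow_nonneg (Nat.cast_nonneg _) _)
    exact_mod_cast one_chi_nonneg E n

end Pool.Agent.SCY
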