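import Pool.Agent.SCY.Fix
import Pool.Agent.SCX.Flip

/-!
SCY module DN1 (MP_896029_ag; plan /team-store/scy_plan.md): the patterns of the fixed problem.

* `fix_card_le`: let `o ∈ O`, `o ∉ L`.  `z ↦` restriction to `L` maps the `y ∈ flipSet O i P` with the prescribed values
  off `L`; of the two elements `z`, `flp O i z` (`z ∈ P`) at most one has the prescribed value at `o` (`o ≠ i` as `i ∈ L`, and
  `flp` changes the sign at `o`; a unit of `ℤ` is not its own negative).  So the filtered set has at most `P.card`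
  elements (map an element `y` of it to `z ∈ P` with `y = z` or `y = flp O i z`; this is injective on the filtered set:
  if `y ≠ y'` have the same `z` then `{y, y'} = {z, flp O i z}` with different values at `o`).
* `fix_card_le2`: `card_flipSet_le`, `card_filter_le`, `card_image_le`.
* `fix_sym`: an element of `fixPat` comes from `y ∈ flipSet O i P` with `jacobiSym (X.c j * D j) q = y j` for `j ∉ L`; for `T`
  disjoint from `L` (so `i ∉ T`), `∏ j ∈ T, y j = ∏ j ∈ T, z j` with `z ∈ P` because an even number of signs is changed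
  (`prod_flp`), and `z j = jacobiSym (u j) q`.
-/

set_option linter.dupNamespace false

namespace Pool.Agent.SCY

open Finset Pool.Agent.SCT Pool.Agent.SCX

variable {ι : Type} [Fintype ι] [DecidableEq ι]

open Classical in
private theorem fixPat_card_aux (X : CData ι) (O : Finset ι) (Pt : ι → ℕ → Finset (ι → ℤˣ))
    (hX : X.Pat = fun i q => flipSet O i (Pt i q)) (L : Finset ι) (D : ι → ℕ)
    (i : ι) (q : ℕ) : (fixPat X L D i q).card ≤
      ((flipSet O i (Pt i q)).filter (fun y => ∀ j, j ∉ L →
        jacobiSym (X.c j * D j) q = ((y j : ℤˣ) : ℤ))).card := by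
  have h : X.Pat i q = flipSet O i (Pt i q) := by rw [hX]
  unfold fixPat
  split_ifs
  · rw [h]
    exact card_image_le
  · exact Nat.zero_le _

theorem fix_card_le (X : CData ι) (O : Finset ι) (Pt : ι → ℕ → Finset (ι → ℤˣ))
    (hX : X.Pat = fun i q => flipSet O i (Pt i q)) (L : Finset ι) (hOL : ¬ O ⊆ L) (D : ι → ℕ)
    (i : ι) (hi : i ∈ L) (q : ℕ) : (fixPat X L D i q).card ≤ (Pt i q).card := by
  classical
  refine (fixPat_card_aux X O Pt hX L D i q).trans ?_
  obtain ⟨o, hoO, hoL⟩ := Finset.not_subset.1 hOL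
  have hoi : o ≠ i := fun h => hoL (h ▸ hi)
  have hflp : ∀ z : ι → ℤˣ, flp O i z o = - z o := by
    intro z
    unfold flp
    rw [if_pos ⟨hoO, hoi⟩]
  have hne : ∀ u : ℤˣ, ((u : ℤˣ) : ℤ) ≠ ((-u : ℤˣ) : ℤ) := by
    intro u h
    rcases Int.units_eq_one_or u with h' | h' <;> rw [h'] at h <;> simp at h
    all_goals omega
  refine card_le_card_of_injOn (fun y => if y ∈ Pt i q then y else flp O i y) ?_ ?_
  · intro y hy
    rw [mem_coe, mem_filter] at hy
    rw [mem_coe]
    by_cases h : y ∈ Pt i q
    · simp only [if_pos h]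
      exact h
    · simp only [if_neg h]
      rcases mem_flipSet.1 hy.1 with h' | ⟨z, hz, rfl⟩
      · exact absurd h' h
      · rw [flp_flp]
        exact hz
  · intro y hy y' hy' he
    rw [mem_coe, mem_filter] at hy hy'
    have h1 := hy.2 o hoL
    have h2 := hy'.2 o hoL
    by_cases h : y ∈ Pt i q
    · by_cases h' : y' ∈ Pt i q
      · simp only [if_pos h, if_pos h'] at he
        exact he
      · simp only [if_pos h, if_neg h'] at he
        exfalso
        rw [h1, he, hflp] at h2
        exact hne _ h2.symm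
    · by_cases h' : y' ∈ Pt i q
      · simp only [if_neg h, if_pos h'] at he
        exfalso
        rw [h2, ← he, hflp] at h1
        exact hne _ h1.symm
      · simp only [if_neg h, if_neg h'] at he
        rw [← flp_flp O i y, he, flp_flp]

theorem fix_card_le2 (X : CData ι) (O : Finset ι) (Pt : ι → ℕ → Finset (ι → ℤˣ))
    (hX : X.Pat = fun i q => flipSet O i (Pt i q)) (L : Finset ι) (D : ι → ℕ)
    (i : ι) (q : ℕ) : (fixPat X L D i q).card ≤ 2 * (Pt i q).card := by
  classical
  refine (fixPat_card_aux X O Pt hX L D i q).trans ?_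
  exact (card_filter_le _ _).trans (card_flipSet_le O i (Pt i q))

omit [Fintype ι] [DecidableEq ι] in
private theorem jac_prod_aux (f : ι → ℤ) (q : ℕ) (T : Finset ι) :
    jacobiSym (∏ j ∈ T, f j) q = ∏ j ∈ T, jacobiSym (f j) q := by
  classical
  induction T using Finset.induction_on with
  | empty => rw [prod_empty, prod_empty, jacobiSym.one_left]
  | insert a T ha ih => rw [prod_insert ha, prod_insert ha, jacobiSym.mul_left, ih]

theorem fix_sym (X : CData ι) (O : Finset ι) (Pt : ι → ℕ → Finset (ι → ℤˣ))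
    (hX : X.Pat = fun i q => flipSet O i (Pt i q)) (L : Finset ι) (D : ι → ℕ)
    (i : ι) (hi : i ∈ L) (q : ℕ) (u : ι → ℤ)
    (hu : ∀ y ∈ Pt i q, ∀ j, j ≠ i → jacobiSym (u j) q = ((y j : ℤˣ) : ℤ))
    (T : Finset ι) (hT : Even (T ∩ O).card) (hTL : Disjoint T L)
    (hne : (fixPat X L D i q).Nonempty) :
    jacobiSym (∏ j ∈ T, (X.c j * D j * u j)) q = 1 := by
  classical
  have hiT : i ∉ T := fun h => (Finset.disjoint_left.1 hTL h) hi
  obtain ⟨w, hw⟩ := hne
  unfold fixPat at hw
  split_ifs at hw with hB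
  · obtain ⟨y, hy, -⟩ := mem_image.1 hw
    obtain ⟨hyP, hyj⟩ := mem_filter.1 hy
    have hXi : X.Pat i q = flipSet O i (Pt i q) := by rw [hX]
    rw [hXi] at hyP
    -- a pattern of `Pt` with the same product
    obtain ⟨z, hz, hyz⟩ : ∃ z ∈ Pt i q,
        ∏ j ∈ T, ((y j : ℤˣ) : ℤ) = ∏ j ∈ T, ((z j : ℤˣ) : ℤ) := by
      rcases mem_flipSet.1 hyP with h | ⟨z, hz, rfl⟩
      · exact ⟨y, h, rfl⟩
      · refine ⟨z, hz, ?_⟩
        have h1 := prod_flp O i T hiT z
        rw [hT.neg_one_pow, one_mul] at h1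
        exact_mod_cast h1
    rw [jac_prod_aux]
    have h2 : ∀ j ∈ T, jacobiSym (X.c j * D j * u j) q =
        ((y j : ℤˣ) : ℤ) * ((z j : ℤˣ) : ℤ) := by
      intro j hj
      have hjL : j ∉ L := Finset.disjoint_left.1 hTL hj
      have hji : j ≠ i := fun h => hiT (h ▸ hj)
      rw [jacobiSym.mul_left, hyj j hjL, hu z hz j hji]
    rw [prod_congr rfl h2, prod_mul_distrib, hyz, ← prod_mul_distrib]
    refine prod_eq_one fun j _ => ?_
    rcases Int.units_eq_one_or (z j) with h | h <;> rw [h] <;> simp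
  · exact absurd hw (notMem_empty w)

end Pool.Agent.SCY
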