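import Pool.Agent.SCY.SqF
import Pool.Agent.SCT.PatDen

/-!
SCY module PATD (MP_896029_ag; plan /team-store/scy_plan.md): density of the patterns, linear factors allowed.

* `pat_denL`: as `pat_den` (SCT/PatDen.lean; copy with its private lemmas), with `sqFieldL`; `pat_den_one` is
  applied only for `i` with `2 ≤ (F i).natDegree`.
* `pat_le`: `(pat F i q).card ≤ nroots (F i) q ≤ rK K q` for large `q` (`nroots_le`, `rK_sum`); for the finitely many
  small `q` the number of patterns is at most `card (ι → ℤˣ)`.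
* `prime_le`: `rK_sum ℚ` (`rK ℚ q = 1` or at least `1 ≤ rK ℚ q`: there is a ring homomorphism `𝓞 ℚ → ZMod q`), or
  from `pat_le` for `F = fun _ : Unit => X`, for which `(pat F () q).card = 1`.
* `pat_lin`: a linear polynomial with leading coefficient prime to `q` has one root modulo `q`; the pattern is
  determined by the root.
-/

set_option linter.dupNamespace false

namespace Pool.Agent.SCY

open Polynomial Finset Pool.Agent.Helper19.Sec Pool.Agent.SCT

variable {ι : Type} [Fintype ι] [DecidableEq ι]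

omit [DecidableEq ι] in
private lemma mem_pat {F : ι → ℤ[X]} {i : ι} {q : ℕ} {y : ι → ℤˣ} :
    y ∈ pat F i q ↔ y ∈ patSet F i q := by
  unfold pat
  rw [Set.Finite.mem_toFinset]

private lemma card_pat_le (F : ι → ℤ[X]) (i : ι) (q : ℕ) (hq : q.Prime) :
    (pat F i q).card ≤ nroots (F i) q := by
  classical
  have : Fact q.Prime := ⟨hq⟩
  let g : {z : ZMod q // ((F i).map (Int.castRingHom (ZMod q))).eval z = 0} → (ι → ℤˣ) :=
    fun z j => if j = i then 1 else if IsSquare (((F j).leadingCoeff : ZMod q) *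
      ((F j).map (Int.castRingHom (ZMod q))).eval z.1) then 1 else -1
  have hsub : pat F i q ⊆ Finset.univ.image g := by
    intro y hy
    obtain ⟨t, ht, hyt⟩ := mem_pat.1 hy
    refine Finset.mem_image.2 ⟨⟨t, ht⟩, Finset.mem_univ _, ?_⟩
    funext j
    by_cases hj : j = i
    · simp only [g, if_pos hj]
      exact ((hyt j).1 hj).symm
    · by_cases hs : IsSquare (((F j).leadingCoeff : ZMod q) *
          ((F j).map (Int.castRingHom (ZMod q))).eval t)
      · simp only [g, if_neg hj, if_pos hs]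
        exact (((hyt j).2 hj).2 hs).symm
      · simp only [g, if_neg hj, if_neg hs]
        have h1 : y j ≠ 1 := fun h => hs (((hyt j).2 hj).1 h)
        rcases Int.units_eq_one_or (y j) with h | h
        · exact absurd h h1
        · exact h.symm
  calc (pat F i q).card ≤ (Finset.univ.image g).card := Finset.card_le_card hsub
    _ ≤ (Finset.univ : Finset {z : ZMod q //
        ((F i).map (Int.castRingHom (ZMod q))).eval z = 0}).card := Finset.card_image_le
    _ = nroots (F i) q := by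
        unfold nroots
        rw [Nat.card_eq_fintype_card, Finset.card_univ]

private lemma card_pat_le_one (F : ι → ℤ[X]) (i : ι) (q : ℕ)
    (h : ∀ t : ZMod q, ((F i).map (Int.castRingHom (ZMod q))).eval t = 0 → ∀ j, j ≠ i →
      IsSquare (((F j).leadingCoeff : ZMod q) *
        ((F j).map (Int.castRingHom (ZMod q))).eval t)) : (pat F i q).card ≤ 1 := by
  refine Finset.card_le_one.2 fun y hy y' hy' => ?_
  have key : ∀ y ∈ pat F i q, y = 1 := by
    intro y hy
    obtain ⟨t, ht, hyt⟩ := mem_pat.1 hy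
    funext j
    by_cases hj : j = i
    · exact (hyt j).1 hj
    · exact ((hyt j).2 hj).2 (h t ht j hj)
  rw [key y hy, key y' hy']

private lemma sum_le_tsum' {β : Type*} {f : β → ℝ} (hf : Summable f) (S : Finset β)
    (h : ∀ b, 0 ≤ f b) : ∑ b ∈ S, f b ≤ ∑' b, f b :=
  hf.sum_le_tsum S (fun b _ => h b)

private lemma gen_sum (c : ℕ → ℕ) (K : Type) [Field K] [NumberField K]
    (L' : Type) [Field L'] [NumberField L'] (a M : ℝ) (ha : 0 ≤ a) (hM0 : 0 ≤ M) (N : ℕ)
    (hcM : ∀ q, (c q : ℝ) ≤ M)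
    (hc : ∀ q : ℕ, q.Prime → N ≤ q → (c q : ℝ) ≤ (rK K q : ℝ) - a * (rK L' q : ℝ)) :
    ∃ C0 : ℝ, ∀ s : ℝ, 1 < s → s ≤ 2 → ∀ Y : ℕ,
      ∑ q ∈ (range (Y + 1)).filter Nat.Prime, (c q : ℝ) * (q : ℝ) ^ (-s) ≤
        (1 - a) * Real.log (1 / (s - 1)) + C0 := by
  classical
  obtain ⟨BK, hBK⟩ := rK_sum K
  obtain ⟨BL, hBL⟩ := rK_sum L'
  let g : ℕ → ℝ := fun q => (rK K q : ℝ) - a * (rK L' q : ℝ)
  let D : ℕ → ℝ := fun q => if q < N then M + |g q| else 0
  have hD0 : ∀ q, 0 ≤ D q := by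
    intro q
    simp only [D]
    split_ifs
    · positivity
    · exact le_rfl
  have hcard : ∀ q : ℕ, q.Prime → (c q : ℝ) ≤ g q + D q := by
    intro q hq
    by_cases hqN : q < N
    · have h1 := hcM q
      simp only [D, if_pos hqN]
      have := neg_abs_le (g q)
      linarith
    · simp only [D, if_neg hqN, add_zero]
      exact hc q hq (not_lt.1 hqN)
  let T : Finset Nat.Primes := Finset.subtype Nat.Prime (range N)
  refine ⟨BK + a * BL + ∑ q ∈ T, D q, fun s hs hs2 Y => ?_⟩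
  obtain ⟨sK, bK⟩ := hBK s hs hs2
  obtain ⟨sL, bL⟩ := hBL s hs hs2
  have hg : Summable (fun p : Nat.Primes => g p * ((p : ℕ) : ℝ) ^ (-s)) := by
    have := sK.sub (sL.mul_left a)
    refine this.congr fun p => ?_
    simp only [g]
    ring
  have hgs : ∑' p : Nat.Primes, g p * ((p : ℕ) : ℝ) ^ (-s) =
      (∑' p : Nat.Primes, (rK K p : ℝ) * ((p : ℕ) : ℝ) ^ (-s)) -
      a * (∑' p : Nat.Primes, (rK L' p : ℝ) * ((p : ℕ) : ℝ) ^ (-s)) := by
    rw [← tsum_mul_left, ← sK.tsum_sub (sL.mul_left a)]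
    refine tsum_congr fun p => ?_
    simp only [g]
    ring
  have hDz : ∀ p ∉ T, D p * ((p : ℕ) : ℝ) ^ (-s) = 0 := by
    intro p hp
    have h1 : ¬ (p : ℕ) < N := fun h => hp (Finset.mem_subtype.2 (Finset.mem_range.2 h))
    simp only [D, if_neg h1, zero_mul]
  have hDs : Summable (fun p : Nat.Primes => D p * ((p : ℕ) : ℝ) ^ (-s)) :=
    summable_of_ne_finset_zero hDz
  have hDt : ∑' p : Nat.Primes, D p * ((p : ℕ) : ℝ) ^ (-s) ≤ ∑ q ∈ T, D q := by
    rw [tsum_eq_sum hDz]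
    refine Finset.sum_le_sum fun p _ => ?_
    refine mul_le_of_le_one_right (hD0 _) ?_
    exact Real.rpow_le_one_of_one_le_of_nonpos (by exact_mod_cast p.2.one_lt.le) (by linarith)
  have hnn : ∀ q : ℕ, q.Prime → 0 ≤ g q + D q := fun q hq =>
    (Nat.cast_nonneg _).trans (hcard q hq)
  have h1 : ∑ q ∈ (range (Y + 1)).filter Nat.Prime, (c q : ℝ) * (q : ℝ) ^ (-s) ≤
      ∑ q ∈ (range (Y + 1)).filter Nat.Prime, (g q + D q) * (q : ℝ) ^ (-s) := by
    refine Finset.sum_le_sum fun q hq => ?_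
    exact mul_le_mul_of_nonneg_right (hcard q (Finset.mem_filter.1 hq).2) (by positivity)
  have h2 : ∑ q ∈ (range (Y + 1)).filter Nat.Prime, (g q + D q) * (q : ℝ) ^ (-s) =
      ∑ p ∈ Finset.subtype Nat.Prime ((range (Y + 1)).filter Nat.Prime),
        (g (p : ℕ) + D (p : ℕ)) * ((p : ℕ) : ℝ) ^ (-s) := by
    rw [Finset.sum_subtype_of_mem (fun q : ℕ => (g q + D q) * (q : ℝ) ^ (-s))
      (fun q hq => (Finset.mem_filter.1 hq).2)]
  have hgD : Summable (fun p : Nat.Primes => (g p + D p) * ((p : ℕ) : ℝ) ^ (-s)) := by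
    refine (hg.add hDs).congr fun p => ?_
    ring
  have h3 : ∑ p ∈ Finset.subtype Nat.Prime ((range (Y + 1)).filter Nat.Prime),
        (g (p : ℕ) + D (p : ℕ)) * ((p : ℕ) : ℝ) ^ (-s) ≤
      ∑' p : Nat.Primes, (g p + D p) * ((p : ℕ) : ℝ) ^ (-s) :=
    sum_le_tsum' hgD _ fun p => mul_nonneg (hnn p p.2) (by positivity)
  have h4 : ∑' p : Nat.Primes, (g p + D p) * ((p : ℕ) : ℝ) ^ (-s) =
      ∑' p : Nat.Primes, g p * ((p : ℕ) : ℝ) ^ (-s) +
      ∑' p : Nat.Primes, D p * ((p : ℕ) : ℝ) ^ (-s) := by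
    rw [← hg.tsum_add hDs]
    exact tsum_congr fun p => by ring
  rw [abs_le] at bK bL
  have h5 : a * (Real.log (1 / (s - 1)) - BL) ≤
      a * (∑' p : Nat.Primes, (rK L' p : ℝ) * ((p : ℕ) : ℝ) ^ (-s)) :=
    mul_le_mul_of_nonneg_left (by linarith [bL.1]) ha
  have h6 : (1 - a) * Real.log (1 / (s - 1)) =
      Real.log (1 / (s - 1)) - a * Real.log (1 / (s - 1)) := by ring
  rw [mul_sub] at h5
  rw [h6]
  linarith [bK.2]

theorem pat_denL (F : ι → ℤ[X]) (hirr : ∀ j, Irreducible ((F j).map (Int.castRingHom ℚ))) :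
    ∃ δ C0 : ℝ, 0 < δ ∧ δ ≤ 1 ∧ 0 ≤ C0 ∧ ∀ i, 2 ≤ (F i).natDegree →
      ∀ s : ℝ, 1 < s → s ≤ 2 → ∀ Y : ℕ,
      ∑ q ∈ (range (Y + 1)).filter Nat.Prime, ((pat F i q).card : ℝ) * (q : ℝ) ^ (-s) ≤
        (1 - δ) * Real.log (1 / (s - 1)) + C0 := by
  classical
  obtain ⟨L', _, _, N2, hL⟩ := sqFieldL F hirr
  obtain ⟨n, N3, hn, hL3⟩ := rK_le L'
  have hn0 : (0 : ℝ) < n := by exact_mod_cast hn
  have hone : ∀ i, ∃ C0 : ℝ, 2 ≤ (F i).natDegree → ∀ s : ℝ, 1 < s → s ≤ 2 → ∀ Y : ℕ,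
      ∑ q ∈ (range (Y + 1)).filter Nat.Prime, ((pat F i q).card : ℝ) * (q : ℝ) ^ (-s) ≤
        (1 - 1 / (n : ℝ)) * Real.log (1 / (s - 1)) + C0 := by
    intro i
    by_cases hd : 2 ≤ (F i).natDegree
    swap
    · exact ⟨0, fun h => absurd h hd⟩
    obtain ⟨K, _, _, N1, hK⟩ := nroots_le (F i) (hirr i)
    obtain ⟨C0, hC0⟩ := gen_sum (fun q => (pat F i q).card) K L' (1 / (n : ℝ))
      (Fintype.card (ι → ℤˣ) : ℝ) (by positivity) (by positivity) (max N1 (max N2 N3))
      (fun q => by exact_mod_cast Finset.card_le_univ _) (fun q hq hqN => by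
        have h1 : nroots (F i) q ≤ rK K q := hK q hq ((le_max_left _ _).trans hqN)
        have h2 : rK L' q ≤ n := hL3 q hq
          (((le_max_right _ _).trans (le_max_right _ _)).trans hqN)
        have h3 := card_pat_le F i q hq
        by_cases hr : rK L' q = 0
        · rw [hr]
          simp only [Nat.cast_zero, mul_zero, sub_zero]
          exact_mod_cast h3.trans h1
        · obtain ⟨h4, h5⟩ := hL q hq (((le_max_left _ _).trans (le_max_right _ _)).trans hqN) hr i
          have h6 := card_pat_le_one F i q h5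
          have h4' := h4 hd
          have h7 : 1 / (n : ℝ) * (rK L' q : ℝ) ≤ 1 := by
            rw [one_div, inv_mul_le_iff₀ hn0, mul_one]
            exact_mod_cast h2
          have h8 : ((pat F i q).card : ℝ) + 1 ≤ rK K q := by
            have : (pat F i q).card + 1 ≤ rK K q := by omega
            exact_mod_cast this
          linarith)
    exact ⟨C0, fun _ => hC0⟩
  choose C hC using hone
  refine ⟨1 / n, ∑ i, |C i|, by positivity, ?_,
    Finset.sum_nonneg fun i _ => abs_nonneg _, fun i hi s hs hs2 Y => ?_⟩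
  · rw [div_le_one hn0]
    exact_mod_cast hn
  · have h1 := hC i hi s hs hs2 Y
    have h2 : C i ≤ ∑ i, |C i| := (le_abs_self _).trans
      (Finset.single_le_sum (f := fun i => |C i|) (fun i _ => abs_nonneg _) (Finset.mem_univ i))
    linarith

theorem pat_le (F : ι → ℤ[X]) (hirr : ∀ j, Irreducible ((F j).map (Int.castRingHom ℚ))) :
    ∃ C0 : ℝ, 0 ≤ C0 ∧ ∀ i, ∀ s : ℝ, 1 < s → s ≤ 2 → ∀ Y : ℕ,
      ∑ q ∈ (range (Y + 1)).filter Nat.Prime, ((pat F i q).card : ℝ) * (q : ℝ) ^ (-s) ≤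
        Real.log (1 / (s - 1)) + C0 := by
  classical
  have hone : ∀ i, ∃ C0 : ℝ, ∀ s : ℝ, 1 < s → s ≤ 2 → ∀ Y : ℕ,
      ∑ q ∈ (range (Y + 1)).filter Nat.Prime, ((pat F i q).card : ℝ) * (q : ℝ) ^ (-s) ≤
        (1 - 0) * Real.log (1 / (s - 1)) + C0 := by
    intro i
    obtain ⟨K, _, _, N1, hK⟩ := nroots_le (F i) (hirr i)
    exact gen_sum (fun q => (pat F i q).card) K K 0
      (Fintype.card (ι → ℤˣ) : ℝ) le_rfl (by positivity) N1
      (fun q => by exact_mod_cast Finset.card_le_univ _) (fun q hq hqN => by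
        have h1 : nroots (F i) q ≤ rK K q := hK q hq hqN
        have h3 := card_pat_le F i q hq
        rw [zero_mul, sub_zero]
        exact_mod_cast h3.trans h1)
  choose C hC using hone
  refine ⟨∑ i, |C i|, Finset.sum_nonneg fun i _ => abs_nonneg _, fun i s hs hs2 Y => ?_⟩
  have h1 := hC i s hs hs2 Y
  have h2 : C i ≤ ∑ i, |C i| := (le_abs_self _).trans
    (Finset.single_le_sum (f := fun i => |C i|) (fun i _ => abs_nonneg _) (Finset.mem_univ i))
  rw [sub_zero, one_mul] at h1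
  linarith

theorem pat_lin (F : ι → ℤ[X]) (i : ι) (hi : (F i).natDegree = 1) (q : ℕ) (hq : q.Prime)
    (hl : ¬ (q : ℤ) ∣ (F i).leadingCoeff) : (pat F i q).card ≤ 1 := by
  classical
  have : Fact q.Prime := ⟨hq⟩
  have ha : ((F i).leadingCoeff : ZMod q) ≠ 0 := by
    rw [Ne, ZMod.intCast_zmod_eq_zero_iff_dvd]
    exact hl
  have hroot : ∀ t t' : ZMod q, ((F i).map (Int.castRingHom (ZMod q))).eval t = 0 →
      ((F i).map (Int.castRingHom (ZMod q))).eval t' = 0 → t = t' := by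
    intro t t' h h'
    have hF : F i = C ((F i).coeff 1) * X + C ((F i).coeff 0) :=
      eq_X_add_C_of_natDegree_le_one hi.le
    have hlc : (F i).coeff 1 = (F i).leadingCoeff := by rw [leadingCoeff, hi]
    rw [hlc] at hF
    have hm : (F i).map (Int.castRingHom (ZMod q)) =
        C ((F i).leadingCoeff : ZMod q) * X + C (((F i).coeff 0 : ℤ) : ZMod q) := by
      conv_lhs => rw [hF]
      simp
    rw [hm] at h h'
    simp only [eval_add, eval_mul, eval_C, eval_X] at h h'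
    have h3 : ((F i).leadingCoeff : ZMod q) * t = ((F i).leadingCoeff : ZMod q) * t' :=
      add_right_cancel (h.trans h'.symm)
    exact mul_left_cancel₀ ha h3
  refine Finset.card_le_one.2 fun y hy y' hy' => ?_
  obtain ⟨t, ht, hyt⟩ := mem_pat.1 hy
  obtain ⟨t', ht', hyt'⟩ := mem_pat.1 hy'
  have htt := hroot t t' ht ht'
  subst htt
  funext j
  by_cases hj : j = i
  · rw [(hyt j).1 hj, (hyt' j).1 hj]
  · have h1 : y j = 1 ↔ y' j = 1 := ((hyt j).2 hj).trans ((hyt' j).2 hj).symm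
    rcases Int.units_eq_one_or (y j) with h | h
    · rw [h, h1.1 h]
    · rcases Int.units_eq_one_or (y' j) with h' | h'
      · rw [h1.2 h', h']
      · rw [h, h']

end Pool.Agent.SCY
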