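import Pool.Agent.SCY.Cvl

/-!
SCY module PRM (MP_896029_ag; plan /team-store/scy_plan.md): primes modulo which a non-square is a square,
uniformly.

Proof.  Let `S` be the set of the odd primes `q ≤ Y` with `jacobiSym E q = 1`.  By `split_prod` and `con_le`
`∏ q ∈ S, (1 + 2 q ^ (-s)) ≤ (3 + log (4 |E|)) (1 + 1 / (s - 1)) ≤ (3 + log 4) (1 + log |E|) * 2 / (s - 1)` (`s ≤ 2`,
`|E| ≥ 1`).  Taking logarithms, `log (1 + 2 t) ≥ 2 t - 2 t ^ 2` for `t ≥ 0`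
(`Real.one_sub_inv_le_log_of_pos`: `log (1 + u) ≥ u / (1 + u) ≥ u - u ^ 2`, so `≥ 2 t - 4 t ^ 2`) and
`∑ q ^ (-2 s) ≤ ∑ 1 / q ^ 2 ≤ 2` (over `q ≥ 2`) give
`2 ∑ q ∈ S, q ^ (-s) ≤ log (1 / (s - 1)) + log (1 + log |E|) + C`.  The prime `2` adds at most `1`.
-/

set_option linter.dupNamespace false

namespace Pool.Agent.SCY

open Finset

theorem log_aux {u : ℝ} (hu : 0 ≤ u) : u - u ^ 2 ≤ Real.log (1 + u) := by
  have h1 : (0 : ℝ) < 1 + u := by linarith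
  have h2 := Real.one_sub_inv_le_log_of_pos h1
  refine le_trans ?_ h2
  have h3 : 1 - (1 + u)⁻¹ = u / (1 + u) := by
    field_simp
    ring
  rw [h3, le_div_iff₀ h1]
  nlinarith [pow_nonneg hu 3, pow_nonneg hu 2]

theorem sum_inv_sq_le (S : Finset ℕ) (Y : ℕ) (h1 : ∀ q ∈ S, 1 ≤ q) (h2 : ∀ q ∈ S, q ≤ Y) {s : ℝ}
    (hs : 1 < s) : ∑ q ∈ S, ((q : ℝ) ^ (-s)) ^ 2 ≤ 2 := by
  have h3 : ∑ q ∈ S, ((q : ℝ) ^ (-s)) ^ 2 ≤ ∑ q ∈ S, ((q : ℝ) ^ 2)⁻¹ := by
    refine Finset.sum_le_sum (fun q hq => ?_)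
    have hq1 : (1 : ℝ) ≤ q := by exact_mod_cast h1 q hq
    have h4 : (q : ℝ) ^ (-s) ≤ (q : ℝ)⁻¹ := by
      rw [← Real.rpow_neg_one]
      exact Real.rpow_le_rpow_of_exponent_le hq1 (by linarith)
    rw [← inv_pow]
    exact pow_le_pow_left₀ (Real.rpow_nonneg (by linarith) _) h4 2
  refine h3.trans ?_
  have h5 : ∑ q ∈ S, ((q : ℝ) ^ 2)⁻¹ ≤ ∑ q ∈ Finset.Ioo 0 (Y + 1), ((q : ℝ) ^ 2)⁻¹ := by
    refine Finset.sum_le_sum_of_subset_of_nonneg (fun q hq => ?_) (fun q _ _ => by positivity)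
    rw [Finset.mem_Ioo]
    have := h1 q hq
    have := h2 q hq
    omega
  refine h5.trans ((sum_Ioo_inv_sq_le 0 (Y + 1)).trans ?_)
  norm_num

theorem prm : ∃ C : ℝ, 0 ≤ C ∧ ∀ E : ℤ, ¬ IsSquare E → ∀ s : ℝ, 1 < s → s ≤ 2 → ∀ Y : ℕ,
    ∑ q ∈ (range (Y + 1)).filter (fun q => q.Prime ∧ jacobiSym E q = 1), (q : ℝ) ^ (-s) ≤
      1 / 2 * Real.log (1 / (s - 1)) + 1 / 2 * Real.log (1 + Real.log |(E : ℝ)|) + C := by
  have hl4 : 0 ≤ Real.log 4 := Real.log_nonneg (by norm_num)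
  have hl34 : 0 ≤ Real.log (3 + Real.log 4) := Real.log_nonneg (by linarith)
  have hl2 : 0 ≤ Real.log 2 := Real.log_nonneg (by norm_num)
  refine ⟨(Real.log (3 + Real.log 4) + Real.log 2 + 8) / 2 + 1, by positivity, ?_⟩
  intro E hE s hs hs2 Y
  have hE0 : E ≠ 0 := by
    rintro rfl
    exact hE ⟨0, rfl⟩
  have hE1 : (1 : ℝ) ≤ |(E : ℝ)| := by
    have : 1 ≤ |E| := Int.one_le_abs hE0
    exact_mod_cast this
  have hlE : 0 ≤ Real.log |(E : ℝ)| := Real.log_nonneg hE1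
  set A := (range (Y + 1)).filter (fun q => q.Prime ∧ jacobiSym E q = 1) with hA
  set S := A.filter (fun q => Odd q) with hSdef
  have hSmem : ∀ q ∈ S, q.Prime ∧ Odd q ∧ jacobiSym E q = 1 := by
    intro q hq
    rw [hSdef, Finset.mem_filter, hA, Finset.mem_filter] at hq
    exact ⟨hq.1.2.1, hq.2, hq.1.2.2⟩
  -- the part of 2
  have hsplit : ∑ q ∈ A, (q : ℝ) ^ (-s) ≤ ∑ q ∈ S, (q : ℝ) ^ (-s) + 1 := by
    rw [← Finset.sum_filter_add_sum_filter_not A (fun q => Odd q)]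
    refine add_le_add le_rfl ?_
    have hsub : A.filter (fun q => ¬ Odd q) ⊆ {2} := by
      intro q hq
      rw [Finset.mem_filter, hA, Finset.mem_filter] at hq
      rw [Finset.mem_singleton]
      rcases hq.1.2.1.eq_two_or_odd' with h | h
      · exact h
      · exact absurd h hq.2
    refine (Finset.sum_le_sum_of_subset_of_nonneg hsub
      (fun q _ _ => Real.rpow_nonneg (Nat.cast_nonneg q) _)).trans ?_
    rw [Finset.sum_singleton]
    have := Real.rpow_le_one_of_one_le_of_nonpos (x := ((2 : ℕ) : ℝ)) (z := -s) (by norm_num)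
      (by linarith)
    exact this
  obtain ⟨x, hx⟩ := split_prod E s S hSmem
  have h1 := hx.trans (con_le E hE s hs x)
  have hpos : ∀ q ∈ S, (0 : ℝ) < 1 + 2 * (q : ℝ) ^ (-s) := by
    intro q _
    have := Real.rpow_nonneg (Nat.cast_nonneg (α := ℝ) q) (-s)
    linarith
  have h2 : ∑ q ∈ S, Real.log (1 + 2 * (q : ℝ) ^ (-s)) =
      Real.log (∏ q ∈ S, (1 + 2 * (q : ℝ) ^ (-s))) :=
    (Real.log_prod (fun q hq => (hpos q hq).ne')).symm
  have h3 : Real.log (∏ q ∈ S, (1 + 2 * (q : ℝ) ^ (-s))) ≤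
      Real.log ((3 + Real.log (4 * |(E : ℝ)|)) * (1 + 1 / (s - 1))) :=
    Real.log_le_log (Finset.prod_pos hpos) h1
  have hs1 : 0 < s - 1 := by linarith
  have h4 : (3 + Real.log (4 * |(E : ℝ)|)) * (1 + 1 / (s - 1)) ≤
      ((3 + Real.log 4) * (1 + Real.log |(E : ℝ)|)) * (2 * (1 / (s - 1))) := by
    have e1 : Real.log (4 * |(E : ℝ)|) = Real.log 4 + Real.log |(E : ℝ)| :=
      Real.log_mul (by norm_num) (by linarith)
    have e2 : 3 + Real.log (4 * |(E : ℝ)|) ≤ (3 + Real.log 4) * (1 + Real.log |(E : ℝ)|) := by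
      rw [e1]
      nlinarith [mul_nonneg hl4 hlE]
    have e3 : 1 + 1 / (s - 1) ≤ 2 * (1 / (s - 1)) := by
      have : 1 ≤ 1 / (s - 1) := by
        rw [le_div_iff₀ hs1]
        linarith
      linarith
    have e4 : 0 ≤ 1 + 1 / (s - 1) := by positivity
    exact mul_le_mul e2 e3 e4 (by positivity)
  have h5 : Real.log ((3 + Real.log (4 * |(E : ℝ)|)) * (1 + 1 / (s - 1))) ≤
      Real.log (3 + Real.log 4) + Real.log (1 + Real.log |(E : ℝ)|) +
        (Real.log 2 + Real.log (1 / (s - 1))) := by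
    have hp : 0 < (3 + Real.log (4 * |(E : ℝ)|)) * (1 + 1 / (s - 1)) := by
      have : 0 ≤ Real.log (4 * |(E : ℝ)|) := Real.log_nonneg (by linarith)
      positivity
    refine (Real.log_le_log hp h4).trans (le_of_eq ?_)
    have hq1 : (0 : ℝ) < 1 / (s - 1) := by positivity
    rw [Real.log_mul (by positivity) (by positivity), Real.log_mul (by positivity) (by positivity),
      Real.log_mul (by norm_num) hq1.ne']
  have h6 : ∑ q ∈ S, (2 * (q : ℝ) ^ (-s) - (2 * (q : ℝ) ^ (-s)) ^ 2) ≤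
      ∑ q ∈ S, Real.log (1 + 2 * (q : ℝ) ^ (-s)) := by
    refine Finset.sum_le_sum (fun q _ => log_aux ?_)
    have := Real.rpow_nonneg (Nat.cast_nonneg (α := ℝ) q) (-s)
    linarith
  have h7 : ∑ q ∈ S, ((q : ℝ) ^ (-s)) ^ 2 ≤ 2 := by
    refine sum_inv_sq_le S Y ?_ ?_ hs
    · intro q hq
      exact (hSmem q hq).1.one_lt.le
    · intro q hq
      rw [hSdef, Finset.mem_filter, hA, Finset.mem_filter, Finset.mem_range] at hq
      omega
  have h8 : ∑ q ∈ S, (2 * (q : ℝ) ^ (-s) - (2 * (q : ℝ) ^ (-s)) ^ 2) =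
      2 * ∑ q ∈ S, (q : ℝ) ^ (-s) - 4 * ∑ q ∈ S, ((q : ℝ) ^ (-s)) ^ 2 := by
    rw [Finset.sum_sub_distrib, Finset.mul_sum, Finset.mul_sum]
    congr 1
    refine Finset.sum_congr rfl (fun q _ => ?_)
    ring
  rw [h8, h2] at h6
  linarith

end Pool.Agent.SCY
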