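import Pool.Agent.SCY.Dn1
import Pool.Agent.SCY.Triv
import Pool.Agent.SCY.PatD
import Pool.Agent.SCY.Prm

/-!
SCY module DN2 (MP_896029_ag; plan /team-store/scy_plan.md): the density hypothesis of `countF`.

Notation: `S i = ∑ q ≤ Y prime, ((fixPat X L D i q).card) * q ^ (-s)` (for `(fixD X L D).Pat i q = fixPat X L D i.1 q`), `ℓ = L.card`,
`l = log (1 / (s - 1)) ≥ 0`.  The goal is `∑ i ∈ L, S i ≤ 2 ^ (ℓ - 1) * ((1 - δ) * l + (C1 + log (1 + log W)))`.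
Ingredients:
 (a) `S i ≤ l + C` if `¬ O ⊆ L` and `S i ≤ 2 (l + C)` always (`fix_card_le`, `fix_card_le2`, `pat_le`).
 (b) if `2 ≤ (F i).natDegree`: `S i ≤ (1 - δ0) l + C` if `¬ O ⊆ L`, and `≤ 2 ((1 - δ0) l + C)` always (`pat_denL`).
 (c) if `i ∈ lin`, `i ∈ L`, and `∏ j ∈ T, (c j D j u i j) =: E` is not a square for some `T` with `Even (T ∩ O).card`, disjoint
  from `L`: `fixPat X L D i q` is empty unless `X.B < q` and `jacobiSym E q = 1` (`fix_sym`, `hu`), so by `prm`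
  `S i ≤ κ (l / 2 + log (1 + log |E|) / 2 + C)` where `κ = 1` if `¬ O ⊆ L` and `κ = 2` otherwise (`pat_lin`: the number of
  patterns of `F i` is at most one for `q > X.B`, see `hlead`).  Here `|E| ≤ U * W ^ m` with `m = card ι`,
  `U = ∏ j, (|c j| + 1) * ∏ i j, (|u i j| + 1)`, so `log (1 + log |E|) ≤ log (1 + log U + m) + log (1 + log W)` (`log` of the
  product `(1 + log U + m) (1 + log W)`), `|E| ≥ 1` (`D j ≠ 0` as `X.Allowed D`, `c j ≠ 0` by `X.hc`, `u i j ≠ 0`).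
Cases (`δ = min (δ0 / 4) (1 / 8)`):
 * `¬ O ⊆ L`, `ℓ ≥ 3`: `ℓ (l + C) ≤ 2 ^ (ℓ - 1) * (3/4) (l + C)` (`4 ℓ ≤ 3 * 2 ^ (ℓ - 1)` for `ℓ ≥ 3`).
 * `ℓ = 2` (then `¬ O ⊆ L` as `4 ≤ O.card`): if one of the two is not in `lin`: `l + (1 - δ0) l + 2 C`.  If both are in `lin`:
   `NonTriv` for `L` gives `i ∈ L` and `T` as in (c): `l + l / 2 + ...`.
 * `ℓ = 1`: not in `lin`: (b); in `lin`: (c).
 * `O ⊆ L`, `ℓ ≥ 5`: `2 ℓ (l + C) ≤ 2 ^ (ℓ - 1) * (5/8) (l + C)` (`16 ℓ ≤ 5 * 2 ^ (ℓ - 1)` for `ℓ ≥ 5`).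
 * `O ⊆ L`, `ℓ = 4`: then `L = O`, `O.card = 4`.  If some `i ∈ O` is not in `lin`: `2 (3 l + (1 - δ0) l) = 8 (1 - δ0 / 4) l`.
   If `O ⊆ lin`: `NonTriv` for `L = O`: `2 (3 l + l / 2) = 7 l = 8 * (7/8) l`.
`j ∉ lin → 2 ≤ (F j).natDegree` from `hlin` and irreducibility (degree at least one).
-/

/-!
SCY module DN2 (MP_896029_ag; plan /team-store/scy_plan.md): the density hypothesis of `countF`.
-/

set_option linter.dupNamespace false

namespace Pool.Agent.SCY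

open Polynomial Finset Pool.Agent.Helper19.Sec Pool.Agent.SCT Pool.Agent.SCX

variable {ι : Type} [Fintype ι] [DecidableEq ι]

private theorem pow_bd1 (k : ℕ) : 4 * (k + 3) ≤ 3 * 2 ^ (k + 2) := by
  induction k with
  | zero => norm_num
  | succ k ih =>
    have h1 : 3 * 2 ^ (k + 1 + 2) = 2 * (3 * 2 ^ (k + 2)) := by ring
    omega

private theorem pow_bd2 (k : ℕ) : 16 * (k + 5) ≤ 5 * 2 ^ (k + 4) := by
  induction k with
  | zero => norm_num
  | succ k ih =>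
    have h1 : 5 * 2 ^ (k + 1 + 4) = 2 * (5 * 2 ^ (k + 4)) := by ring
    omega

/-- the final arithmetic -/
private theorem fin_bd (ℓ : ℕ) (κ l C w δ S : ℝ) (hℓ : 1 ≤ ℓ) (hl : 0 ≤ l) (hC : 0 ≤ C)
    (hw : 0 ≤ w) (hδ0 : 0 < δ) (hδ : δ ≤ 1 / 2) (hκ : (κ = 1 ∧ True) ∨ (κ = 2 ∧ 4 ≤ ℓ))
    (h1 : S ≤ κ * (ℓ * (l + C)))
    (h2 : (ℓ ≤ 2 ∨ (κ = 2 ∧ ℓ = 4)) → S ≤ κ * (ℓ * (l + C) - δ * l + w)) :
    S ≤ 2 ^ (ℓ - 1) * ((1 - δ / 4) * l + (C + w)) := by
  have hδl : 0 ≤ δ * l := mul_nonneg hδ0.le hl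
  have hδl2 : δ * l ≤ 1 / 2 * l := mul_le_mul_of_nonneg_right hδ hl
  rcases hκ with ⟨rfl, -⟩ | ⟨rfl, h4⟩
  · rcases Nat.lt_or_ge ℓ 3 with h3 | h3
    · have h5 := h2 (Or.inl (by omega))
      obtain rfl | rfl : ℓ = 1 ∨ ℓ = 2 := by omega
      · norm_num at h5 ⊢
        nlinarith
      · norm_num at h5 ⊢
        nlinarith
    · obtain ⟨k, rfl⟩ : ∃ k, ℓ = k + 3 := ⟨ℓ - 3, by omega⟩
      have h5 : ((4 * (k + 3) : ℕ) : ℝ) ≤ ((3 * 2 ^ (k + 2) : ℕ) : ℝ) := by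
        exact_mod_cast pow_bd1 k
      push_cast at h5
      have h6 : k + 3 - 1 = k + 2 := rfl
      rw [h6]
      have h7 : (0 : ℝ) ≤ 2 ^ (k + 2) := by positivity
      have h8 : ((k : ℝ) + 3) * (l + C) ≤ 3 / 4 * 2 ^ (k + 2) * (l + C) :=
        mul_le_mul_of_nonneg_right (by linarith) (by linarith)
      have h9 : 3 / 4 * 2 ^ (k + 2) * (l + C) ≤ 2 ^ (k + 2) * ((1 - δ / 4) * l + (C + w)) := by
        have h10 : 3 / 4 * (l + C) ≤ (1 - δ / 4) * l + (C + w) := by nlinarith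
        calc 3 / 4 * 2 ^ (k + 2) * (l + C) = 2 ^ (k + 2) * (3 / 4 * (l + C)) := by ring
          _ ≤ _ := mul_le_mul_of_nonneg_left h10 h7
      push_cast at h1
      linarith
  · rcases Nat.lt_or_ge ℓ 5 with h3 | h3
    · obtain rfl : ℓ = 4 := by omega
      have h5 := h2 (Or.inr ⟨rfl, rfl⟩)
      norm_num at h5 ⊢
      nlinarith
    · obtain ⟨k, rfl⟩ : ∃ k, ℓ = k + 5 := ⟨ℓ - 5, by omega⟩
      have h5 : ((16 * (k + 5) : ℕ) : ℝ) ≤ ((5 * 2 ^ (k + 4) : ℕ) : ℝ) := by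
        exact_mod_cast pow_bd2 k
      push_cast at h5
      have h6 : k + 5 - 1 = k + 4 := rfl
      rw [h6]
      have h7 : (0 : ℝ) ≤ 2 ^ (k + 4) := by positivity
      have h8 : 2 * (((k : ℝ) + 5) * (l + C)) ≤ 5 / 8 * 2 ^ (k + 4) * (l + C) := by
        have h11 : 2 * ((k : ℝ) + 5) ≤ 5 / 8 * 2 ^ (k + 4) := by linarith
        have := mul_le_mul_of_nonneg_right h11 (show (0 : ℝ) ≤ l + C by linarith)
        linarith
      have h9 : 5 / 8 * 2 ^ (k + 4) * (l + C) ≤ 2 ^ (k + 4) * ((1 - δ / 4) * l + (C + w)) := by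
        have h10 : 5 / 8 * (l + C) ≤ (1 - δ / 4) * l + (C + w) := by nlinarith
        calc 5 / 8 * 2 ^ (k + 4) * (l + C) = 2 ^ (k + 4) * (5 / 8 * (l + C)) := by ring
          _ ≤ _ := mul_le_mul_of_nonneg_left h10 h7
      push_cast at h1
      linarith

omit [DecidableEq ι] in
/-- the size of the product of the classes -/
private theorem E_bd (u : ι → ι → ℤ) (c : ι → ℤ) (U : ℝ)
    (hU : U = ∏ j, ((|(c j : ℝ)| + 1) * ∏ i, (|(u i j : ℝ)| + 1))) (i : ι) (L T : Finset ι)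
    (hTL : Disjoint T L) (D : ι → ℕ) (W : ℕ) (hW : 1 ≤ W) (hD : ∀ j, j ∉ L → D j ≤ W) :
    |((∏ j ∈ T, (c j * D j * u i j) : ℤ) : ℝ)| ≤ U * (W : ℝ) ^ (Fintype.card ι) := by
  have hW' : (1 : ℝ) ≤ W := by exact_mod_cast hW
  have hV : ∀ j, |(c j : ℝ)| * |(u i j : ℝ)| ≤ (|(c j : ℝ)| + 1) * ∏ i, (|(u i j : ℝ)| + 1) := by
    intro j
    have h1 : |(u i j : ℝ)| ≤ ∏ i, (|(u i j : ℝ)| + 1) := by
      have h2 : |(u i j : ℝ)| + 1 ≤ ∏ i, (|(u i j : ℝ)| + 1) := by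
        have h3 := Finset.prod_le_prod_of_subset_of_one_le (s := {i}) (t := univ)
          (f := fun i => |(u i j : ℝ)| + 1) (subset_univ _) (fun i _ => by positivity)
          (fun i _ _ => by
            have := abs_nonneg (u i j : ℝ)
            linarith)
        rwa [prod_singleton] at h3
      linarith
    have h2 := abs_nonneg (c j : ℝ)
    have h3 := abs_nonneg (u i j : ℝ)
    nlinarith
  have h1 : ∀ j, (1 : ℝ) ≤ (|(c j : ℝ)| + 1) * ∏ i, (|(u i j : ℝ)| + 1) := by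
    intro j
    have h2 : (1 : ℝ) ≤ ∏ i, (|(u i j : ℝ)| + 1) := by
      refine Finset.one_le_prod fun i _ => ?_
      have := abs_nonneg (u i j : ℝ)
      linarith
    have h3 := abs_nonneg (c j : ℝ)
    nlinarith
  push_cast
  rw [abs_prod]
  calc ∏ j ∈ T, |(c j : ℝ) * (D j : ℝ) * (u i j : ℝ)|
      ≤ ∏ j ∈ T, ((|(c j : ℝ)| + 1) * (∏ i, (|(u i j : ℝ)| + 1)) * W) := by
        refine prod_le_prod (fun j _ => abs_nonneg _) fun j hj => ?_
        have h4 : ((D j : ℕ) : ℝ) ≤ W := by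
          exact_mod_cast hD j fun h => (Finset.disjoint_left.1 hTL hj) h
        have h5 : (0 : ℝ) ≤ D j := by positivity
        rw [abs_mul, abs_mul, abs_of_nonneg h5]
        calc |(c j : ℝ)| * (D j : ℝ) * |(u i j : ℝ)| = (|(c j : ℝ)| * |(u i j : ℝ)|) * D j := by ring
          _ ≤ _ := mul_le_mul (hV j) h4 h5 (by
            have := h1 j
            linarith)
    _ ≤ ∏ j, ((|(c j : ℝ)| + 1) * (∏ i, (|(u i j : ℝ)| + 1)) * W) := by
        refine prod_le_prod_of_subset_of_one_le (subset_univ _) (fun j _ => by positivity)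
          fun j _ _ => ?_
        have := h1 j
        nlinarith
    _ = U * (W : ℝ) ^ (Fintype.card ι) := by
        rw [prod_mul_distrib, prod_const, hU, card_univ]

theorem denF (F : ι → ℤ[X]) (hirr : ∀ j, Irreducible ((F j).map (Int.castRingHom ℚ)))
    (O lin : Finset ι) (hO4 : 4 ≤ O.card) (hlin : ∀ j, j ∈ lin ↔ (F j).natDegree = 1)
    (u : ι → ι → ℤ) (hu0 : ∀ i j, u i j ≠ 0) (X : CData ι)
    (hlead : ∀ i ∈ lin, ∀ q : ℕ, q.Prime → X.B < q → ¬ (q : ℤ) ∣ (F i).leadingCoeff)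
    (hu : ∀ i ∈ lin, ∀ q : ℕ, q.Prime → X.B < q → ∀ y ∈ pat F i q, ∀ j, j ≠ i →
      jacobiSym (u i j) q = ((y j : ℤˣ) : ℤ))
    (hX : X.Pat = fun i q => flipSet O i (pat F i q)) :
    ∃ δ C1 : ℝ, 0 < δ ∧ δ ≤ 1 ∧ 0 ≤ C1 ∧ ∀ L : Finset ι, L.Nonempty → ∀ D : ι → ℕ,
      X.Allowed D → NonTriv O lin u (fun j => X.c j * D j) → ∀ W : ℕ, 1 ≤ W →
      (∀ j, j ∉ L → D j ≤ W) → ∀ s : ℝ, 1 < s → s ≤ 2 → ∀ Y : ℕ,
        ∑ q ∈ (range (Y + 1)).filter Nat.Prime,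
          (∑ i : {j // j ∈ L}, (((fixD X L D).Pat i q).card : ℝ)) * (q : ℝ) ^ (-s) ≤
        2 ^ (L.card - 1) * ((1 - δ) * Real.log (1 / (s - 1)) +
          (C1 + Real.log (1 + Real.log W))) := by
  classical
  obtain ⟨δ0, Ca, hδ0, hδ01, hCa, hpd⟩ := pat_denL F hirr
  obtain ⟨Cb, hCb, hpl⟩ := pat_le F hirr
  obtain ⟨Cc, hCc, hpr⟩ := prm
  obtain ⟨U, hU⟩ : ∃ U : ℝ, U = ∏ j, ((|(X.c j : ℝ)| + 1) * ∏ i, (|(u i j : ℝ)| + 1)) := ⟨_, rfl⟩
  have hU1 : 1 ≤ U := by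
    rw [hU]
    refine Finset.one_le_prod fun j _ => ?_
    have h2 : (1 : ℝ) ≤ ∏ i, (|(u i j : ℝ)| + 1) := by
      refine Finset.one_le_prod fun i _ => ?_
      have := abs_nonneg (u i j : ℝ)
      linarith
    have h3 := abs_nonneg (X.c j : ℝ)
    nlinarith
  obtain ⟨m, hm⟩ : ∃ m : ℕ, m = Fintype.card ι := ⟨_, rfl⟩
  have hlU : 0 ≤ Real.log U := Real.log_nonneg hU1
  obtain ⟨Cd, hCd⟩ : ∃ Cd : ℝ, Cd = Real.log (1 + Real.log U + m) := ⟨_, rfl⟩
  have hCd0 : 0 ≤ Cd := by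
    rw [hCd]
    refine Real.log_nonneg ?_
    have : (0 : ℝ) ≤ m := by positivity
    linarith
  obtain ⟨C, hC⟩ : ∃ C : ℝ, C = Ca + Cb + Cc + Cd := ⟨_, rfl⟩
  obtain ⟨δ1, hδ1⟩ : ∃ δ1 : ℝ, δ1 = min δ0 (1 / 2) := ⟨_, rfl⟩
  have hδ1a : 0 < δ1 := by
    rw [hδ1]
    exact lt_min hδ0 (by norm_num)
  have hδ1b : δ1 ≤ 1 / 2 := by
    rw [hδ1]
    exact min_le_right _ _
  have hδ1c : δ1 ≤ δ0 := by
    rw [hδ1]
    exact min_le_left _ _
  refine ⟨δ1 / 4, C, by linarith, by linarith, by linarith, ?_⟩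
  intro L hL D hD hNT W hW hDW s hs1 hs2 Y
  obtain ⟨l, hl⟩ : ∃ l : ℝ, l = Real.log (1 / (s - 1)) := ⟨_, rfl⟩
  have hl0 : 0 ≤ l := by
    rw [hl]
    refine Real.log_nonneg ?_
    rw [le_div_iff₀ (by linarith)]
    linarith
  have hW' : (1 : ℝ) ≤ W := by exact_mod_cast hW
  have hlW : 0 ≤ Real.log W := Real.log_nonneg hW'
  obtain ⟨w, hw⟩ : ∃ w : ℝ, w = Real.log (1 + Real.log W) := ⟨_, rfl⟩
  have hw0 : 0 ≤ w := by
    rw [hw]
    exact Real.log_nonneg (by linarith)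
  obtain ⟨Q, hQ⟩ : ∃ Q : Finset ℕ, Q = (range (Y + 1)).filter Nat.Prime := ⟨_, rfl⟩
  obtain ⟨S, hS⟩ : ∃ S : ι → ℝ, S = fun i =>
    ∑ q ∈ Q, ((fixPat X L D i q).card : ℝ) * (q : ℝ) ^ (-s) := ⟨_, rfl⟩
  have hsum : ∑ q ∈ Q, (∑ i : {j // j ∈ L}, (((fixD X L D).Pat i q).card : ℝ)) * (q : ℝ) ^ (-s) =
      ∑ i ∈ L, S i := by
    rw [hS, sum_comm]
    refine sum_congr rfl fun q _ => ?_
    rw [← sum_mul]
    congr 1
    exact Finset.sum_coe_sort L (fun i => ((fixPat X L D i q).card : ℝ))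
  rw [← hQ, hsum, ← hl, ← hw]
  -- the factor
  obtain ⟨κ, hκ⟩ : ∃ κ : ℝ, κ = if O ⊆ L then 2 else 1 := ⟨_, rfl⟩
  have hκ0 : 0 ≤ κ := by
    rw [hκ]
    split_ifs <;> norm_num
  have hcard : ∀ i ∈ L, ∀ q : ℕ, ((fixPat X L D i q).card : ℝ) ≤ κ * ((pat F i q).card : ℝ) := by
    intro i hi q
    rw [hκ]
    split_ifs with h
    · exact_mod_cast fix_card_le2 X O (pat F) hX L D i q
    · rw [one_mul]
      exact_mod_cast fix_card_le X O (pat F) hX L h D i hi q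
  have hqpos : ∀ q : ℕ, (0 : ℝ) ≤ (q : ℝ) ^ (-s) := fun q => by positivity
  have hSle : ∀ i ∈ L, S i ≤ κ * ∑ q ∈ Q, ((pat F i q).card : ℝ) * (q : ℝ) ^ (-s) := by
    intro i hi
    rw [hS, mul_sum]
    refine sum_le_sum fun q _ => ?_
    rw [← mul_assoc]
    exact mul_le_mul_of_nonneg_right (hcard i hi q) (hqpos q)
  have hA : ∀ i ∈ L, S i ≤ κ * (l + C) := by
    intro i hi
    refine (hSle i hi).trans (mul_le_mul_of_nonneg_left ?_ hκ0)
    have h1 := hpl i s hs1 hs2 Y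
    rw [← hQ, ← hl] at h1
    linarith
  have hB : ∀ i ∈ L, i ∉ lin → S i ≤ κ * ((1 - δ1) * l + w + C) := by
    intro i hi hil
    refine (hSle i hi).trans (mul_le_mul_of_nonneg_left ?_ hκ0)
    have h0 : 2 ≤ (F i).natDegree := by
      have h2 : (F i).natDegree ≠ 1 := fun h => hil ((hlin i).2 h)
      have h3 : (F i).natDegree ≠ 0 := by
        intro h
        have h4 := (hirr i).natDegree_pos
        have h5 : ((F i).map (Int.castRingHom ℚ)).natDegree ≤ (F i).natDegree := natDegree_map_le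
        omega
      omega
    have h1 := hpd i h0 s hs1 hs2 Y
    rw [← hQ, ← hl] at h1
    have h2 := mul_le_mul_of_nonneg_right hδ1c hl0
    nlinarith
  have hCl : ∀ i ∈ L, i ∈ lin → ∀ T : Finset ι, Even (T ∩ O).card → Disjoint T L →
      ¬ IsSquare (∏ j ∈ T, (X.c j * D j * u i j)) → S i ≤ κ * ((1 - δ1) * l + w + C) := by
    intro i hi hil T hT hTL hsq
    obtain ⟨E, hE⟩ : ∃ E : ℤ, E = ∏ j ∈ T, (X.c j * D j * u i j) := ⟨_, rfl⟩
    rw [← hE] at hsq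
    -- the terms
    have hterm : S i ≤ κ * ∑ q ∈ (range (Y + 1)).filter (fun q => q.Prime ∧ jacobiSym E q = 1),
        (q : ℝ) ^ (-s) := by
      rw [hS, mul_sum]
      have h1 : (range (Y + 1)).filter (fun q => q.Prime ∧ jacobiSym E q = 1) =
          Q.filter (fun q => jacobiSym E q = 1) := by
        rw [hQ, filter_filter]
      rw [h1, sum_filter]
      refine sum_le_sum fun q hq => ?_
      have hqp : q.Prime := by
        rw [hQ] at hq
        exact (mem_filter.1 hq).2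
      by_cases hne : (fixPat X L D i q).Nonempty
      · have hqB : X.B < q := by
          by_contra hcon
          unfold fixPat at hne
          rw [if_neg hcon] at hne
          exact absurd hne Finset.not_nonempty_empty
        have hj := fix_sym X O (pat F) hX L D i hi q (u i)
          (fun y hy j hj => hu i hil q hqp hqB y hy j hj) T hT hTL hne
        rw [← hE] at hj
        rw [if_pos hj]
        refine mul_le_mul_of_nonneg_right ?_ (hqpos q)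
        have h2 := hcard i hi q
        have h3 : ((pat F i q).card : ℝ) ≤ 1 := by
          exact_mod_cast pat_lin F i ((hlin i).1 hil) q hqp (hlead i hil q hqp hqB)
        nlinarith
      · rw [Finset.not_nonempty_iff_eq_empty] at hne
        rw [hne, card_empty, Nat.cast_zero, zero_mul]
        split_ifs
        · exact mul_nonneg hκ0 (hqpos q)
        · exact le_rfl
    refine hterm.trans (mul_le_mul_of_nonneg_left ?_ hκ0)
    have h1 := hpr E hsq s hs1 hs2 Y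
    rw [← hl] at h1
    -- the logarithm
    have hEne : E ≠ 0 := by
      rw [hE]
      refine prod_ne_zero_iff.2 fun j _ => mul_ne_zero (mul_ne_zero ?_ ?_) (hu0 i j)
      · intro h
        obtain ⟨q, hqB, hq⟩ := Nat.exists_infinite_primes (X.B + 1)
        refine X.hc j q hq (by omega) ?_
        rw [h]
        exact dvd_zero _
      · have h2 : ∏ i, D i ≠ 0 := hD.1.1.ne_zero
        have h3 := (prod_ne_zero_iff.1 h2) j (mem_univ j)
        exact_mod_cast h3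
    have hE1 : (1 : ℝ) ≤ |(E : ℝ)| := by
      have h2 : 1 ≤ |E| := Int.one_le_abs hEne
      exact_mod_cast h2
    have hE2 : |(E : ℝ)| ≤ U * (W : ℝ) ^ m := by
      rw [hE, hm]
      exact E_bd u X.c U hU i L T hTL D W hW hDW
    have h3 : Real.log |(E : ℝ)| ≤ Real.log U + m * Real.log W := by
      have h4 := Real.log_le_log (by linarith) hE2
      rwa [Real.log_mul (by linarith) (by positivity), Real.log_pow] at h4
    have h4 : Real.log (1 + Real.log |(E : ℝ)|) ≤ Cd + w := by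
      rw [hCd, hw, ← Real.log_mul (by positivity) (by positivity)]
      refine Real.log_le_log ?_ ?_
      · have := Real.log_nonneg hE1
        linarith
      · have hm0 : (0 : ℝ) ≤ m := by positivity
        nlinarith [mul_nonneg hlU hlW]
    have h5 := mul_le_mul_of_nonneg_right hδ1b hl0
    nlinarith
  -- the assembly
  have hℓ : 1 ≤ L.card := hL.card_pos
  have h1 : ∑ i ∈ L, S i ≤ κ * (L.card * (l + C)) := by
    have h2 : ∑ i ∈ L, S i ≤ ∑ _i ∈ L, κ * (l + C) := sum_le_sum fun i hi => hA i hi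
    rw [sum_const, nsmul_eq_mul] at h2
    linarith
  have hOL : O ⊆ L → 4 ≤ L.card := fun h => hO4.trans (card_le_card h)
  refine fin_bd L.card κ l C w δ1 _ hℓ hl0 (by linarith) hw0 hδ1a hδ1b ?_ h1 ?_
  · by_cases h : O ⊆ L
    · right
      rw [hκ, if_pos h]
      exact ⟨rfl, hOL h⟩
    · left
      rw [hκ, if_neg h]
      exact ⟨rfl, trivial⟩
  · intro hcase
    have hspec : ∃ i0 ∈ L, S i0 ≤ κ * ((1 - δ1) * l + w + C) := by
      by_cases hLl : L ⊆ lin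
      · have hadm : L.card ≤ 2 ∨ (L = O ∧ O.card = 4) := by
          rcases hcase with h | ⟨h, h4⟩
          · exact Or.inl h
          · right
            have hOL' : O ⊆ L := by
              by_contra hcon
              rw [hκ, if_neg hcon] at h
              norm_num at h
            have h5 : O = L := eq_of_subset_of_card_le hOL' (by omega)
            exact ⟨h5.symm, by rw [h5]; exact h4⟩
        have h5 := hNT L hLl hL hadm
        unfold Triv at h5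
        push Not at h5
        obtain ⟨i, hi, T, hT, hTL, hsq⟩ := h5
        exact ⟨i, hi, hCl i hi (hLl hi) T hT hTL hsq⟩
      · obtain ⟨i, hi, hil⟩ := Finset.not_subset.1 hLl
        exact ⟨i, hi, hB i hi hil⟩
    obtain ⟨i0, hi0, hSi0⟩ := hspec
    have h2 : ∑ i ∈ L.erase i0, S i ≤ ∑ _i ∈ L.erase i0, κ * (l + C) :=
      sum_le_sum fun i hi => hA i (mem_of_mem_erase hi)
    rw [sum_const, nsmul_eq_mul, card_erase_of_mem hi0, Nat.cast_sub hℓ] at h2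
    rw [← add_sum_erase L S hi0]
    push_cast at h2
    nlinarith

end Pool.Agent.SCY
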