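import Pool.Agent.SCY.Main

/-!
SCY module FIN (MP_896029_ag; plan /team-store/scy_plan.md): all cases together.
-/

set_option linter.dupNamespace false

namespace Pool.Agent.SCY

open Polynomial Finset Pool.Agent.Helper36 Pool.Agent.Helper19.Sec Pool.Agent.SCT Pool.Agent.SCX

/-- a polynomial without rational root: every twist with a section counts -/
theorem bad_of_free (f : ℤ[X]) (m : ℕ) (h : ∃ C δ : ℝ, 0 < δ ∧ ∀ N : ℕ, 2 ≤ N →
      (Nat.card {d : ℤ // |d| ≤ N ∧ HasSection f d} : ℝ) ≤ C * N / (Real.log N) ^ δ) :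
    ∃ C δ : ℝ, 0 < δ ∧ ∀ N : ℕ, 2 ≤ N →
      (Nat.card {d : ℤ // |d| ≤ N ∧ BadTwist f m d} : ℝ) ≤ C * N / (Real.log N) ^ δ := by
  obtain ⟨C, δ, hδ, h⟩ := h
  refine ⟨C, δ, hδ, fun N hN => le_trans ?_ (h N hN)⟩
  have hfin : {d : ℤ | |d| ≤ N ∧ HasSection f d}.Finite := by
    refine (Set.finite_Icc (-(N : ℤ)) N).subset ?_
    rintro d ⟨hd, -⟩
    exact abs_le.mp hd
  have h1 : {d : ℤ | |d| ≤ N ∧ BadTwist f m d} ⊆ {d : ℤ | |d| ≤ N ∧ HasSection f d} := by
    rintro d ⟨hd, K, Ω, i1, i2, i3, i4, i5, i6, i7, x, y, hx, hxy, s, -⟩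
    exact ⟨hd, K, Ω, i1, i2, i3, i4, i5, i6, i7, x, y, hx, hxy, ⟨s⟩⟩
  have h2 := Set.ncard_le_ncard h1 hfin
  show (({d : ℤ | |d| ≤ N ∧ BadTwist f m d}.ncard : ℕ) : ℝ) ≤
    (({d : ℤ | |d| ≤ N ∧ HasSection f d}.ncard : ℕ) : ℝ)
  exact_mod_cast h2

open Classical in
theorem root_odd (f : ℤ[X]) (hf : f.map (Int.castRingHom ℚ) ≠ 0) (a : ℚ) (ha : aeval a f = 0) :
    Multiset.card ((UniqueFactorizationMonoid.normalizedFactors
      (f.map (Int.castRingHom ℚ))).filter (fun g => Odd g.natDegree)) ≠ 0 := by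
  intro h0
  have h1 : (X - C a : ℚ[X]) ∣ f.map (Int.castRingHom ℚ) := by
    rw [dvd_iff_isRoot, IsRoot.def, eval_map]
    exact ha
  obtain ⟨g, hg, hag⟩ := UniqueFactorizationMonoid.exists_mem_normalizedFactors_of_dvd hf
    (irreducible_X_sub_C a) h1
  have h2 : g.natDegree = 1 := by
    rw [← natDegree_eq_of_degree_eq (degree_eq_degree_of_associated hag), natDegree_X_sub_C]
  have h3 : g ∈ (UniqueFactorizationMonoid.normalizedFactors
      (f.map (Int.castRingHom ℚ))).filter (fun g => Odd g.natDegree) :=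
    Multiset.mem_filter.2 ⟨hg, by rw [h2]; exact odd_one⟩
  rw [Multiset.card_eq_zero] at h0
  rw [h0] at h3
  exact Multiset.notMem_zero g h3

open Classical in
theorem final (f : ℤ[X]) (hsq : Squarefree (f.map (Int.castRingHom ℚ)))
    (heven : Even f.natDegree) (h6 : 6 ≤ f.natDegree)
    (h : Multiset.card ((UniqueFactorizationMonoid.normalizedFactors
          (f.map (Int.castRingHom ℚ))).filter (fun g => Odd g.natDegree)) ≠ 2 ∨
      (∃ σ : AlgebraicClosure ℚ ≃ₐ[ℚ] AlgebraicClosure ℚ,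
        ∀ x : AlgebraicClosure ℚ, aeval x f = 0 → σ x ≠ x) ∨
      (f.natDegree = 6 ∧ ∀ x : ℚ, aeval x f ≠ 0)) :
    ∃ C δ : ℝ, 0 < δ ∧ ∀ N : ℕ, 2 ≤ N →
      (Nat.card {d : ℤ // |d| ≤ N ∧ BadTwist f (Multiset.card
        ((UniqueFactorizationMonoid.normalizedFactors
          (f.map (Int.castRingHom ℚ))).filter (fun g => Odd g.natDegree))) d} : ℝ) ≤
        C * N / (Real.log N) ^ δ := by
  have hf0 : f ≠ 0 := by
    rintro rfl
    rw [natDegree_zero] at h6
    omega
  have hfq : f.map (Int.castRingHom ℚ) ≠ 0 :=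
    (Polynomial.map_ne_zero_iff (Int.cast_injective)).mpr hf0
  by_cases hσ : ∃ σ : AlgebraicClosure ℚ ≃ₐ[ℚ] AlgebraicClosure ℚ,
        ∀ x : AlgebraicClosure ℚ, aeval x f = 0 → σ x ≠ x
  · obtain ⟨σ, hσ⟩ := hσ
    exact bad_of_free f _ (main_free f hsq heven h6 σ hσ)
  by_cases h4 : 4 ≤ Multiset.card ((UniqueFactorizationMonoid.normalizedFactors
          (f.map (Int.castRingHom ℚ))).filter (fun g => Odd g.natDegree))
  · exact mainS f hsq heven h6 h4
  rcases h with h | h | h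
  · have heo : Even (Multiset.card ((UniqueFactorizationMonoid.normalizedFactors
          (f.map (Int.castRingHom ℚ))).filter (fun g => Odd g.natDegree))) := by
      obtain ⟨n, F, c, hc, hf, hirr, hnat, hsep, hcard⟩ := exists_factorsL f hsq h6
      rw [← hcard]
      refine even_card_of_even_natDegree F ?_ (by rw [hnat]; exact heven) _ ?_
      · intro j h0
        have := (hirr j).ne_zero
        rw [h0, Polynomial.map_zero] at this
        exact this rfl
      · intro j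
        rw [mem_filter]
        exact ⟨fun h => h.2, fun h => ⟨mem_univ _, h⟩⟩
    obtain ⟨t, ht⟩ := heo
    have h0 : Multiset.card ((UniqueFactorizationMonoid.normalizedFactors
          (f.map (Int.castRingHom ℚ))).filter (fun g => Odd g.natDegree)) = 0 := by omega
    have hroot : ∀ x : ℚ, aeval x f ≠ 0 := fun x hx => root_odd f hfq x hx h0
    exact bad_of_free f _ (SCX.main f hsq heven h6 hroot (Or.inl h))
  · exact absurd h hσ
  · exact bad_of_free f _ (SCX.main f hsq heven h6 h.2 (Or.inr (Or.inr h.1)))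

end Pool.Agent.SCY
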