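import Pool.Agent.SCT.Lnk

/-!
SCY module LNKU (MP_896029_ag; plan /team-store/scy_plan.md): the bound for linked large variables, with
constants which do not depend on the data `X` (same proof as `lnk`).
-/

set_option linter.dupNamespace false

namespace Pool.Agent.SCY

open Finset Pool.Agent.SCT

theorem lnkU (ι : Type) [Fintype ι] [DecidableEq ι] : ∃ C A : ℝ, 0 ≤ C ∧ 0 ≤ A ∧
    ∀ (X : CData ι) (k : ι → ℕ) (U : Finset (Idx ι)) (Z : ℕ), 1 ≤ Z →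
    (∃ v ∈ U, ∃ w ∈ U, Linked v w) →
    |∑ D ∈ (vbox k).filter (fun D => large Z D = U), X.Phi D| ≤
      C * 2 ^ (∑ i, k i) * (1 + ((∑ i, k i : ℕ) : ℝ)) ^ A * (Z : ℝ) ^ (-(1 : ℝ) / 6) := by
  obtain ⟨C, hC0, hC⟩ := bil2
  refine ⟨C * 9 * 2 ^ (Fintype.card ι) * 2 ^ (Fintype.card (Idx ι)),
    ((2 + Fintype.card (Idx ι) : ℕ) : ℝ), by positivity, Nat.cast_nonneg _, ?_⟩
  intro X k U Z hZ hvw
  have key : ∃ v0 w0 : Idx ι, v0 ∈ U ∧ w0 ∈ U ∧ w0.i ∈ v0.A ∧ v0.i ∉ w0.A := by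
    obtain ⟨v, hv, w, hw, hl⟩ := hvw
    unfold Linked at hl
    by_cases h : w.i ∈ v.A
    · exact ⟨v, w, hv, hw, h, fun h' => hl ⟨fun _ => h', fun _ => h⟩⟩
    · have h' : v.i ∈ w.A := by
        by_contra h''
        exact hl ⟨fun h3 => absurd h3 h, fun h3 => absurd h3 h''⟩
      exact ⟨w, v, hw, hv, h', h⟩
  obtain ⟨v0, w0, hv, hw, h1, h2⟩ := key
  refine (lnk_aux X hC0 hC v0 w0 h1 h2 k U Z hZ hv hw).trans (le_of_eq ?_)
  have hp : ∏ i, (2 : ℝ) ^ (k i + 1) = 2 ^ (∑ i, k i) * 2 ^ (Fintype.card ι) := by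
    rw [prod_pow_eq_pow_sum, sum_add_distrib, pow_add]
    congr 2
    simp
  rw [hp, Real.rpow_natCast, mul_pow]
  ring

end Pool.Agent.SCY
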