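import Pool.Agent.SCY.Names
import Pool.Agent.SCX.Main

/-!
SCY module TWI (MP_896029_ag; plan /team-store/scy_plan.md): from squarefree twists of `g` to all twists of
`f = c * g`.

* `bad_of`: the same `K`, `Ω`, `x`, `s`; as in `hasSection_of` (used in SCX/Main.lean), `y' = t * y / c`.  `f` and `g` have the same rational
  roots and over `ℚ` the same divisors.
* `all_twistsB`: copy of `all_twists` (SCX/Main.lean) with `bad_of` for `hasSection_of`.
-/

set_option linter.dupNamespace false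

namespace Pool.Agent.SCY

open Polynomial Finset Pool.Agent.Helper36 Pool.Agent.Helper19.Sec Pool.Agent.SCT Pool.Agent.SCX

theorem bad_of (f g : ℤ[X]) (m : ℕ) (c d d0 t : ℤ) (hc : c ≠ 0) (hf : f = C c * g)
    (hdt : c * d = d0 * t ^ 2) (h : BadTwist f m d) : BadTwist g m d0 := by
  obtain ⟨K, Ω, i1, i2, i3, i4, i5, i6, i7, x, y, hx, hxy, s, hs⟩ := h
  refine ⟨K, Ω, i1, i2, i3, i4, i5, i6, i7, x, (t : K) * y / c, hx, ?_, s, ?_⟩
  · have hcK : (c : K) ≠ 0 := by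
      have : CharZero K := charZero_of_injective_algebraMap (algebraMap ℚ K).injective
      exact_mod_cast hc
    have h1 : (c : K) * d = d0 * t ^ 2 := by
      exact_mod_cast congrArg (fun z : ℤ => (z : K)) hdt
    rw [hf, map_mul, aeval_C] at hxy
    have h2 : (c : K) * ((d : K) * y ^ 2) = c * (c * aeval x g) := by
      rw [hxy]
      rfl
    have h3 : (d0 : K) * t ^ 2 * y ^ 2 = c ^ 2 * aeval x g := by
      rw [← h1]
      linear_combination h2
    field_simp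
    linear_combination h3
  · rintro ⟨L, hL, hcard, hroot, hagr⟩
    refine hs ⟨L, hL, hcard, ?_, ?_⟩
    · intro a ha
      rw [hf, map_mul, hroot a ha, mul_zero]
    · intro a ha q hq hqe hqb
      refine hagr a ha q ?_ hqe hqb
      have hcQ : ((c : ℤ) : ℚ) ≠ 0 := by exact_mod_cast hc
      have hu : IsUnit (C ((Int.castRingHom ℚ) c) : ℚ[X]) := by
        rw [isUnit_C]
        exact isUnit_iff_ne_zero.2 (by simpa using hcQ)
      rw [hf, Polynomial.map_mul, Polynomial.map_C] at hq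
      exact (hu.dvd_mul_left).1 hq

theorem all_twistsB (f g : ℤ[X]) (m : ℕ) (c : ℤ) (hc : c ≠ 0) (hf : f = C c * g)
    (h6 : 6 ≤ f.natDegree)
    (hcnt : ∃ C δ : ℝ, 0 ≤ C ∧ 0 < δ ∧ ∀ N : ℕ, 2 ≤ N →
      ({d : ℤ | Squarefree d ∧ |d| ≤ N ∧ BadTwist g m d}.ncard : ℝ) ≤ C * N / (Real.log N) ^ δ) :
    ∃ C δ : ℝ, 0 < δ ∧ ∀ N : ℕ, 2 ≤ N →
      (Nat.card {d : ℤ // |d| ≤ N ∧ BadTwist f m d} : ℝ) ≤ C * N / (Real.log N) ^ δ := by
  obtain ⟨C, δ, hC, hδ, hcnt⟩ := hcnt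
  obtain ⟨C', hC', hall⟩ := sqfree_to_all {d : ℤ | Squarefree d ∧ BadTwist g m d} C δ hC hδ
    (by
      intro N hN
      have h1 : {d : ℤ | d ∈ {d : ℤ | Squarefree d ∧ BadTwist g m d} ∧ |d| ≤ N} =
          {d : ℤ | Squarefree d ∧ |d| ≤ N ∧ BadTwist g m d} := by
        ext d
        simp only [Set.mem_ofPred_eq]
        tauto
      rw [h1]
      exact hcnt N hN) c hc
  refine ⟨C', δ, hδ, fun N hN => ?_⟩
  refine le_trans ?_ (hall N hN)
  have hsub : {d : ℤ | |d| ≤ N ∧ BadTwist f m d} ⊆ {d : ℤ | d ≠ 0 ∧ |d| ≤ N ∧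
      ∃ d0 ∈ {d : ℤ | Squarefree d ∧ BadTwist g m d}, ∃ t : ℤ, c * d = d0 * t ^ 2} := by
    rintro d ⟨hd, hs⟩
    have hd0 : d ≠ 0 := by
      rintro rfl
      obtain ⟨K, Ω, i1, i2, i3, i4, i5, i6, i7, x, y, hx, hxy, hn⟩ := hs
      rw [Int.cast_zero, zero_mul] at hxy
      have hf0 : f ≠ 0 := by
        rintro rfl
        rw [natDegree_zero] at h6
        omega
      have h2 : aeval x (f.map (Int.castRingHom ℚ)) = 0 := by
        have := aeval_map_algebraMap ℚ x f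
        rw [← hxy] at this
        exact this
      have h3 : f.map (Int.castRingHom ℚ) ≠ 0 :=
        (Polynomial.map_ne_zero_iff (Int.cast_injective)).mpr hf0
      exact hx ⟨_, h3, h2⟩
    refine ⟨hd0, hd, ?_⟩
    obtain ⟨d0, t, hdt, hsq0⟩ : ∃ d0 t : ℤ, c * d = d0 * t ^ 2 ∧ Squarefree d0 := by
      have hcd : c * d ≠ 0 := mul_ne_zero hc hd0
      obtain ⟨a, b, hab, ha⟩ := Nat.sq_mul_squarefree (c * d).natAbs
      refine ⟨(c * d).sign * a, b, ?_, ?_⟩
      · have h4 : c * d = (c * d).sign * ((c * d).natAbs : ℤ) := (Int.sign_mul_natAbs _).symm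
        conv_lhs => rw [h4, ← hab]
        push_cast
        ring
      · rw [← Int.squarefree_natAbs, Int.natAbs_mul, Int.natAbs_sign_of_ne_zero hcd, one_mul,
          Int.natAbs_natCast]
        exact ha
    exact ⟨d0, ⟨hsq0, bad_of f _ m c d d0 t hc hf hdt hs⟩, t, hdt⟩
  have hfin : {d : ℤ | d ≠ 0 ∧ |d| ≤ N ∧
      ∃ d0 ∈ {d : ℤ | Squarefree d ∧ BadTwist g m d}, ∃ t : ℤ,
        c * d = d0 * t ^ 2}.Finite := by
    refine (Set.finite_Icc (-(N : ℤ)) N).subset ?_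
    rintro d ⟨-, hd, -⟩
    exact abs_le.mp hd
  have h5 := Set.ncard_le_ncard hsub hfin
  have h6 : Nat.card {d : ℤ // |d| ≤ N ∧ BadTwist f m d} =
      {d : ℤ | |d| ≤ N ∧ BadTwist f m d}.ncard := rfl
  rw [h6]
  exact_mod_cast h5

end Pool.Agent.SCY
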