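import Pool.Agent.SCT.Defs

/-!
SCY module ULIN (MP_896029_ag; plan /team-store/scy_plan.md): the values `u i j` at the roots of the linear factors.

Proof.  For `(F i).natDegree = 1`: `F i = C b * X + C a`, `b ≠ 0`, root `r = - a / b`.  With `e = (F j).natDegree` put
`n i j = b ^ e * (F j)(r)`, an integer (`∑ k ≤ e, coeff k * (-a) ^ k * b ^ (e - k)`, e.g. `(scaleRoots (F j) b).eval (-a)`), and
`u i j = lead (F j) * n i j * b ^ e` for `j ≠ i`, `u i i = 1`, and `u i j = 1` if `F i` is not linear.  `n i j ≠ 0` for `j ≠ i`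
because a common root of `F i` and `F j` would contradict separability of the product.  So
`u i j = lead (F j) * (F j)(r) * (b ^ e) ^ 2`.
`B1` = `∑ i j, |u i j| + ∑ i, |leadingCoeff (F i)|`.  For a prime `q > B1` and a pattern `y ∈ pat F i q` (`patSet`) with root
`t ∈ ZMod q` of `F i`: `b t = - a` and `b ≠ 0` modulo `q`, so `b ^ e * (F j)(t) = n i j` in `ZMod q`, and
`lead (F j) * (F j)(t)` is a square iff `u i j` is a square modulo `q`, which is nonzero modulo `q`
(`legendreSym.eq_one_iff`, `jacobiSym.legendreSym.to_jacobiSym`); both sides are `1` or `-1`.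
-/

set_option linter.dupNamespace false

namespace Pool.Agent.SCY

open Polynomial Finset Pool.Agent.SCT

variable {ι : Type} [Fintype ι] [DecidableEq ι]

/-- the numerator of the value of `G` at `- a / b` -/
private noncomputable def nn (G : ℤ[X]) (b a : ℤ) : ℤ := (scaleRoots G b).eval (-a)

private lemma nn_cast {R : Type*} [CommRing R] (G : ℤ[X]) (b a : ℤ) (t : R)
    (h : (b : R) * t = -(a : R)) :
    ((nn G b a : ℤ) : R) = (b : R) ^ G.natDegree * (G.map (Int.castRingHom R)).eval t := by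
  have h1 := scaleRoots_eval₂_mul (p := G) (Int.castRingHom R) t b
  rw [eval_map, nn]
  have h2 : ((eval (-a) (scaleRoots G b) : ℤ) : R) =
      eval₂ (Int.castRingHom R) (Int.castRingHom R (-a)) (scaleRoots G b) := by
    rw [eval₂_at_apply]; rfl
  rw [h2]
  have h3 : (Int.castRingHom R) (-a) = (Int.castRingHom R) b * t := by
    simp [h]
  rw [h3, h1]
  simp

private lemma eval_lin {R : Type*} [CommRing R] (G : ℤ[X]) (hG : G.natDegree = 1) (t : R) :
    (G.map (Int.castRingHom R)).eval t = (G.leadingCoeff : R) * t + (G.coeff 0 : R) := by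
  have h : G = C (G.coeff 1) * X + C (G.coeff 0) :=
    eq_X_add_C_of_natDegree_le_one (le_of_eq hG)
  have hl : G.leadingCoeff = G.coeff 1 := by rw [leadingCoeff, hG]
  rw [hl]
  conv_lhs => rw [h]
  simp

private lemma fne (F : ι → ℤ[X]) (hsep : ((∏ j, F j).map (Int.castRingHom ℚ)).Separable)
    (i : ι) : F i ≠ 0 := by
  intro h
  have h1 : (∏ j, F j) = 0 := Finset.prod_eq_zero (mem_univ i) h
  rw [h1] at hsep
  simp [not_separable_zero] at hsep

private lemma cop (F : ι → ℤ[X]) (hsep : ((∏ j, F j).map (Int.castRingHom ℚ)).Separable)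
    {i j : ι} (hij : j ≠ i) :
    IsCoprime ((F i).map (Int.castRingHom ℚ)) ((F j).map (Int.castRingHom ℚ)) := by
  rw [Polynomial.map_prod, ← Finset.mul_prod_erase univ _ (mem_univ i)] at hsep
  have h := hsep.isCoprime
  rw [IsCoprime.prod_right_iff] at h
  exact h j (by simp [hij])

private lemma nn_ne (F : ι → ℤ[X]) (hsep : ((∏ j, F j).map (Int.castRingHom ℚ)).Separable)
    {i j : ι} (hij : j ≠ i) (hi : (F i).natDegree = 1) :
    nn (F j) (F i).leadingCoeff ((F i).coeff 0) ≠ 0 := by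
  intro h0
  have hb : ((F i).leadingCoeff : ℚ) ≠ 0 := by
    exact_mod_cast leadingCoeff_ne_zero.mpr (fne F hsep i)
  set b : ℚ := ((F i).leadingCoeff : ℚ) with hbdef
  set a : ℚ := ((F i).coeff 0 : ℚ) with hadef
  have hr : b * (-a / b) = -a := by field_simp
  have h1 := nn_cast (R := ℚ) (F j) (F i).leadingCoeff ((F i).coeff 0) (-a / b) hr
  rw [h0] at h1
  have h2 : eval (-a / b) ((F j).map (Int.castRingHom ℚ)) = 0 := by
    have h3 : b ^ (F j).natDegree ≠ 0 := pow_ne_zero _ hb
    have h4 : b ^ (F j).natDegree * eval (-a / b) ((F j).map (Int.castRingHom ℚ)) = 0 := by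
      rw [hbdef, ← h1]; simp
    rcases mul_eq_zero.mp h4 with h5 | h5
    · exact absurd h5 h3
    · exact h5
  have h6 : eval (-a / b) ((F i).map (Int.castRingHom ℚ)) = 0 := by
    rw [eval_lin (F i) hi]
    have : b * (-a / b) + a = 0 := by rw [hr]; ring
    exact this
  obtain ⟨x, y, hxy⟩ := cop F hsep hij
  have h7 := congrArg (eval (-a / b)) hxy
  rw [eval_add, eval_mul, eval_mul, h6, h2] at h7
  simp at h7

theorem exists_u (F : ι → ℤ[X]) (hsep : ((∏ j, F j).map (Int.castRingHom ℚ)).Separable) :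
    ∃ (u : ι → ι → ℤ) (B1 : ℕ), (∀ i j, u i j ≠ 0) ∧
      (∀ i, (F i).natDegree = 1 → ∀ q : ℕ, q.Prime → B1 < q →
        ¬ (q : ℤ) ∣ (F i).leadingCoeff ∧
        ∀ y ∈ pat F i q, ∀ j, j ≠ i → jacobiSym (u i j) q = ((y j : ℤˣ) : ℤ)) ∧
      ∀ i, (F i).natDegree = 1 → ∀ a : ℚ, aeval a (F i) = 0 → ∀ j, j ≠ i → ∃ t : ℚ, t ≠ 0 ∧
        (u i j : ℚ) = (F j).leadingCoeff * aeval a (F j) * t ^ 2 := by
  classical
  have hL : ∀ i, (F i).leadingCoeff ≠ 0 := fun i => leadingCoeff_ne_zero.mpr (fne F hsep i)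
  obtain ⟨u, hu⟩ : ∃ u : ι → ι → ℤ, u = fun i j =>
      if (F i).natDegree = 1 ∧ j ≠ i then
        (F j).leadingCoeff * nn (F j) (F i).leadingCoeff ((F i).coeff 0) *
          (F i).leadingCoeff ^ (F j).natDegree else 1 := ⟨_, rfl⟩
  have hu1 : ∀ i j, (F i).natDegree = 1 → j ≠ i → u i j =
      (F j).leadingCoeff * nn (F j) (F i).leadingCoeff ((F i).coeff 0) *
          (F i).leadingCoeff ^ (F j).natDegree := by
    intro i j h1 h2
    rw [hu]; simp [h1, h2]
  have hune : ∀ i j, u i j ≠ 0 := by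
    intro i j
    by_cases h : (F i).natDegree = 1 ∧ j ≠ i
    · rw [hu1 i j h.1 h.2]
      exact mul_ne_zero (mul_ne_zero (hL j) (nn_ne F hsep h.2 h.1)) (pow_ne_zero _ (hL i))
    · rw [hu]; simp only [h, if_false]; decide
  refine ⟨u, (∑ i, ∑ j, (u i j).natAbs) + ∑ i, ((F i).leadingCoeff).natAbs, hune, ?_, ?_⟩
  · intro i hi q hq hB
    haveI : Fact q.Prime := ⟨hq⟩
    have hlb : ((F i).leadingCoeff).natAbs < q := by
      have := Finset.single_le_sum (f := fun i => ((F i).leadingCoeff).natAbs)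
        (fun _ _ => Nat.zero_le _) (mem_univ i)

      omega
    have hnl : ¬ (q : ℤ) ∣ (F i).leadingCoeff := by
      intro hd
      have h1 := Int.natAbs_dvd_natAbs.mpr hd
      rw [Int.natAbs_natCast] at h1
      have h2 := Nat.le_of_dvd (Int.natAbs_pos.mpr (hL i)) h1
      omega
    refine ⟨hnl, ?_⟩
    intro y hy j hj
    have hy1 : y ∈ patSet F i q := (Set.toFinite (patSet F i q)).mem_toFinset.mp hy
    obtain ⟨t, ht, hy2⟩ := hy1
    have hy3 := (hy2 j).2 hj
    have hub : (u i j).natAbs < q := by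
      have h1 := Finset.single_le_sum (f := fun j => (u i j).natAbs)
        (fun _ _ => Nat.zero_le _) (mem_univ j)
      have h2 := Finset.single_le_sum (f := fun i => ∑ j, (u i j).natAbs)
        (fun _ _ => Nat.zero_le _) (mem_univ i)

      omega
    have hnu : ((u i j : ℤ) : ZMod q) ≠ 0 := by
      intro h0
      rw [ZMod.intCast_zmod_eq_zero_iff_dvd] at h0
      have h1 := Int.natAbs_dvd_natAbs.mpr h0
      rw [Int.natAbs_natCast] at h1
      have h2 := Nat.le_of_dvd (Int.natAbs_pos.mpr (hune i j)) h1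
      omega
    have hbne : (((F i).leadingCoeff : ℤ) : ZMod q) ≠ 0 := by
      intro h0
      rw [ZMod.intCast_zmod_eq_zero_iff_dvd] at h0
      exact hnl h0
    have hbt : (((F i).leadingCoeff : ℤ) : ZMod q) * t = -(((F i).coeff 0 : ℤ) : ZMod q) := by
      rw [eval_lin (F i) hi] at ht
      linear_combination ht
    have hn := nn_cast (R := ZMod q) (F j) (F i).leadingCoeff ((F i).coeff 0) t hbt
    have hcast : ((u i j : ℤ) : ZMod q) = (((F j).leadingCoeff : ℤ) : ZMod q) *
        ((F j).map (Int.castRingHom (ZMod q))).eval t *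
          ((((F i).leadingCoeff : ℤ) : ZMod q) ^ (F j).natDegree) ^ 2 := by
      rw [hu1 i j hi hj]
      push_cast
      rw [hn]
      ring
    have hpow : (((F i).leadingCoeff : ℤ) : ZMod q) ^ (F j).natDegree ≠ 0 := pow_ne_zero _ hbne
    have hsq : IsSquare ((u i j : ℤ) : ZMod q) ↔ IsSquare ((((F j).leadingCoeff : ℤ) : ZMod q) *
        ((F j).map (Int.castRingHom (ZMod q))).eval t) := by
      rw [hcast]
      constructor
      · rintro ⟨z, hz⟩
        refine ⟨z / (((F i).leadingCoeff : ℤ) : ZMod q) ^ (F j).natDegree, ?_⟩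
        field_simp
        linear_combination hz
      · rintro ⟨z, hz⟩
        refine ⟨z * (((F i).leadingCoeff : ℤ) : ZMod q) ^ (F j).natDegree, ?_⟩
        rw [hz]; ring
    rw [← jacobiSym.legendreSym.to_jacobiSym]
    rcases Int.units_eq_one_or (y j) with h1 | h1
    · rw [h1]
      have h2 := hsq.mpr (hy3.mp h1)
      rw [(legendreSym.eq_one_iff q hnu).mpr h2]; rfl
    · rw [h1]
      have h2 : ¬ IsSquare ((u i j : ℤ) : ZMod q) := by
        intro h3
        have h4 := hy3.mpr (hsq.mp h3)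
        rw [h1] at h4
        exact absurd h4 (by decide)
      rw [(legendreSym.eq_neg_one_iff q).mpr h2]; rfl
  · intro i hi a ha j hj
    have hb : ((F i).leadingCoeff : ℚ) ≠ 0 := by exact_mod_cast hL i
    have hae : ∀ G : ℤ[X], aeval a G = (G.map (Int.castRingHom ℚ)).eval a := by
      intro G
      rw [eval_map, aeval_def]; rfl
    refine ⟨((F i).leadingCoeff : ℚ) ^ (F j).natDegree, pow_ne_zero _ hb, ?_⟩
    have hba : (((F i).leadingCoeff : ℤ) : ℚ) * a = -(((F i).coeff 0 : ℤ) : ℚ) := by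
      rw [hae, eval_lin (F i) hi] at ha
      linear_combination ha
    have hn := nn_cast (R := ℚ) (F j) (F i).leadingCoeff ((F i).coeff 0) a hba
    rw [hu1 i j hi hj, hae]
    push_cast
    rw [hn]
    ring

end Pool.Agent.SCY
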