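import Pool.Agent.SCY.CntF
import Pool.Agent.SCY.Dn2
import Pool.Agent.SCY.CntQ
import Pool.Agent.SCY.Ulin
import Pool.Agent.SCY.ArS
import Pool.Agent.SCY.ArE
import Pool.Agent.SCY.Agr
import Pool.Agent.SCY.Twi

/-!
SCY module MAIN (MP_896029_ag; plan /team-store/scy_plan.md): for almost all quadratic twists every section agrees
modulo squares with rational Weierstrass points.
-/

set_option linter.dupNamespace false

namespace Pool.Agent.SCY

open Polynomial Finset Pool.Agent.Helper36 Pool.Agent.Helper19.Sec Pool.Agent.SCT Pool.Agent.SCX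

variable {ι : Type} [Fintype ι] [DecidableEq ι]

theorem cntS (F : ι → ℤ[X]) (hPeven : Even (∏ j, F j).natDegree)
    (hirr : ∀ j, Irreducible ((F j).map (Int.castRingHom ℚ)))
    (h6 : 6 ≤ (∏ j, F j).natDegree) (hsepQ : ((∏ j, F j).map (Int.castRingHom ℚ)).Separable)
    (O : Finset ι) (hO : ∀ j, j ∈ O ↔ Odd (F j).natDegree) (hO4 : 4 ≤ O.card) :
    ∃ C δ : ℝ, 0 ≤ C ∧ 0 < δ ∧ ∀ N : ℕ, 2 ≤ N →
      ({d : ℤ | Squarefree d ∧ |d| ≤ N ∧ BadTwist (∏ j, F j) O.card d}.ncard : ℝ) ≤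
        C * N / (Real.log N) ^ δ := by
  classical
  have hne : Nonempty ι := by
    obtain ⟨j, -⟩ : O.Nonempty := Finset.card_pos.1 (by omega)
    exact ⟨j⟩
  obtain ⟨u, B1, hu0, hu, hut⟩ := exists_u F hsepQ
  obtain ⟨B2, hB2, har⟩ := arithS F hPeven h6 hsepQ O hO
  obtain ⟨lin, hlin⟩ : ∃ lin : Finset ι, ∀ j, j ∈ lin ↔ (F j).natDegree = 1 :=
    ⟨univ.filter (fun j => (F j).natDegree = 1), fun j =>
      ⟨fun h => (mem_filter.1 h).2, fun h => mem_filter.2 ⟨mem_univ _, h⟩⟩⟩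
  refine cntQ (fun i q => flipSet O i (pat F i q))
    (fun i q => flipSet_norm O i _ (pat_norm F i q)) (max B1 B2) (le_max_of_le_right hB2)
    (NonTriv O lin u) ?_ {d : ℤ | BadTwist (∏ j, F j) O.card d} ?_
  · intro X hX hXB
    have hB1 : ∀ q : ℕ, X.B < q → B1 < q := fun q h =>
      lt_of_le_of_lt (le_max_left B1 B2) (hXB ▸ h)
    obtain ⟨δ, C1, hδ, hδ1, hC1, hden⟩ := denF F hirr O lin hO4 hlin u hu0 X
      (fun i hi q hq hBq => (hu i ((hlin i).1 hi) q hq (hB1 q hBq)).1)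
      (fun i hi q hq hBq => (hu i ((hlin i).1 hi) q hq (hB1 q hBq)).2) hX
    exact countF X (fun D => NonTriv O lin u (fun j => X.c j * D j)) δ C1 hδ hδ1 hC1 hden
  · rintro d hd ⟨K, Ω, _, _, _, _, _, _, _, x, y, hx, hxy, s, hs⟩
    obtain ⟨e, he, hmul, hloc, hρ⟩ := har d hd K Ω x y hx hxy s
    obtain ⟨E, hE, heE, hlocE⟩ := arithE O (by omega) (pat F) B2 d hd e he hmul hloc
    refine ⟨E, hE, ?_, fun q hq hBq => hlocE q hq (lt_of_le_of_lt (le_max_right B1 B2) hBq)⟩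
    intro L hL hLne hLcard hT
    apply hs
    obtain ⟨L', hL'c, hL'r, hag⟩ := agrees_of F hirr hsepQ O lin hO hlin u hut e he E hE heE x s
      hρ L hL hT
    refine ⟨L', Finset.card_pos.1 (by rw [hL'c]; exact Finset.card_pos.2 hLne), ?_, hL'r, hag⟩
    rcases hLcard with h | ⟨h1, h2⟩
    · left
      omega
    · right
      rw [hL'c, h1]
      exact ⟨h2, h2⟩

open Classical in
theorem mainS (f : ℤ[X]) (hsq : Squarefree (f.map (Int.castRingHom ℚ)))
    (heven : Even f.natDegree) (h6 : 6 ≤ f.natDegree)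
    (h4 : 4 ≤ Multiset.card ((UniqueFactorizationMonoid.normalizedFactors
          (f.map (Int.castRingHom ℚ))).filter (fun g => Odd g.natDegree))) :
    ∃ C δ : ℝ, 0 < δ ∧ ∀ N : ℕ, 2 ≤ N →
      (Nat.card {d : ℤ // |d| ≤ N ∧ BadTwist f (Multiset.card
        ((UniqueFactorizationMonoid.normalizedFactors
          (f.map (Int.castRingHom ℚ))).filter (fun g => Odd g.natDegree))) d} : ℝ) ≤
        C * N / (Real.log N) ^ δ := by
  obtain ⟨n, F, c, hc, hf, hirr, hnat, hsep, hcard⟩ := exists_factorsL f hsq h6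
  set O : Finset (Fin n) := univ.filter (fun j => Odd (F j).natDegree) with hOdef
  have hO : ∀ j, j ∈ O ↔ Odd (F j).natDegree := by
    intro j
    rw [hOdef, mem_filter]
    exact ⟨fun h => h.2, fun h => ⟨mem_univ _, h⟩⟩
  rw [← hcard] at h4 ⊢
  refine all_twistsB f (∏ j, F j) O.card c hc hf h6 ?_
  exact cntS F (by rw [hnat]; exact heven) hirr (by rw [hnat]; exact h6) hsep O hO h4

end Pool.Agent.SCY
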