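import Pool.Agent.SCY.Chr

/-!
SCY module PER (MP_896029_ag; plan /team-store/scy_plan.md): the quadratic character `chi E` and its sums.

Proof of `chi_sum_le`.  Let `M = 4 * E.natAbs > 0`.  `chi E` is periodic modulo `M`: `M` is even, so parity is
periodic, and for odd `n`, `jacobiSym.mod_right E (hn : Odd n) : jacobiSym E n = jacobiSym E (n % M)`.
It is multiplicative (`jacobiSym.mul_right'`/`jacobiSym.mul_right`, and a product is odd iff both factors are).
With `n0` from `exists_neg` (`n0` is odd, and prime to `E` because `jacobiSym E n0 ≠ 0`, so `n0` is prime to `M`),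
`n ↦ n0 * n % M` is a permutation of `range M`, hence `∑ n ∈ range M, chi E n = chi E n0 * ∑ = - ∑`, so it is `0`.
(For instance work with functions on `ZMod M`: `x ↦ chi E x.val`, and `Units.mulLeft`/`Equiv.sum_comp`.)
Then `∑ n ∈ range t` equals the sum over `n ∈ range (t % M)` up to periods, of absolute value at most `M`.
-/

set_option linter.dupNamespace false

namespace Pool.Agent.SCY

open Finset

/-- the quadratic character attached to `E`, extended by `0` to the even numbers -/
def chi (E : ℤ) (n : ℕ) : ℤ := if Odd n then jacobiSym E n else 0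

theorem chi_mul (E : ℤ) (a b : ℕ) : chi E (a * b) = chi E a * chi E b := by
  unfold chi
  by_cases ha : Odd a
  · by_cases hb : Odd b
    · have hab : Odd (a * b) := ha.mul hb
      rw [if_pos ha, if_pos hb, if_pos hab]
      exact jacobiSym.mul_right' E (by rintro rfl; simp at ha) (by rintro rfl; simp at hb)
    · have hab : ¬ Odd (a * b) := fun h => hb (Nat.odd_mul.1 h).2
      rw [if_neg hb, if_neg hab, mul_zero]
  · have hab : ¬ Odd (a * b) := fun h => ha (Nat.odd_mul.1 h).1
    rw [if_neg ha, if_neg hab, zero_mul]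

theorem chi_one (E : ℤ) : chi E 1 = 1 := by
  unfold chi
  rw [if_pos odd_one, jacobiSym.one_right]

/-- the possible values -/
theorem chi_tri (E : ℤ) (n : ℕ) : chi E n = 0 ∨ chi E n = 1 ∨ chi E n = -1 := by
  unfold chi
  split_ifs
  · exact jacobiSym.trichotomy E n
  · exact Or.inl rfl

theorem chi_mod (E : ℤ) (n : ℕ) : chi E (n % (4 * E.natAbs)) = chi E n := by
  have hev : 2 ∣ 4 * E.natAbs := ⟨2 * E.natAbs, by ring⟩
  have hodd : Odd (n % (4 * E.natAbs)) ↔ Odd n := by
    rw [Nat.odd_iff, Nat.odd_iff]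
    have : n % (4 * E.natAbs) % 2 = n % 2 := Nat.mod_mod_of_dvd n hev
    rw [this]
  unfold chi
  by_cases hn : Odd n
  · rw [if_pos hn, if_pos (hodd.2 hn)]
    exact (jacobiSym.mod_right E hn).symm
  · rw [if_neg hn, if_neg (fun h => hn (hodd.1 h))]

theorem chi_abs_le (E : ℤ) (n : ℕ) : |chi E n| ≤ 1 := by
  rcases chi_tri E n with h | h | h <;> rw [h] <;> simp

theorem sum_zmod (k : ℕ) (g : ℕ → ℤ) : ∑ x : ZMod (k + 1), g x.val = ∑ n ∈ range (k + 1), g n :=
  Fin.sum_univ_eq_sum_range g (k + 1)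

theorem chi_period_sum (E : ℤ) (hE : ¬ IsSquare E) :
    ∑ n ∈ range (4 * E.natAbs), chi E n = 0 := by
  have hE0 : E ≠ 0 := by rintro rfl; exact hE ⟨0, by simp⟩
  have hEp : 0 < E.natAbs := Int.natAbs_pos.2 hE0
  obtain ⟨k, hk⟩ : ∃ k, 4 * E.natAbs = k + 1 := ⟨4 * E.natAbs - 1, by omega⟩
  obtain ⟨n0, hn0, hj⟩ := exists_neg E hE
  have hcop : Nat.Coprime n0 (k + 1) := by
    rw [← hk]
    have h2 : Nat.Coprime n0 4 := by
      have : Nat.Coprime n0 (2 ^ 2) := Nat.Coprime.pow_right 2 (Nat.coprime_two_right.2 hn0)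
      simpa using this
    have h1 : Nat.Coprime n0 E.natAbs := by
      have hne : jacobiSym E n0 ≠ 0 := by rw [hj]; norm_num
      by_contra hc
      refine hne ((jacobiSym.eq_zero_iff).2 ⟨by rintro rfl; simp at hn0, fun h => hc ?_⟩)
      have h' : Nat.gcd E.natAbs n0 = 1 := by simpa [Int.gcd] using h
      exact Nat.Coprime.symm h'
    exact Nat.Coprime.mul_right h2 h1
  have hper : ∀ n : ℕ, chi E (n % (k + 1)) = chi E n := by
    intro n
    rw [← hk]
    exact chi_mod E n
  set u : (ZMod (k + 1))ˣ := ZMod.unitOfCoprime n0 hcop with hu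
  have hf : ∀ x : ZMod (k + 1), chi E ((u : ZMod (k + 1)) * x).val = - chi E x.val := by
    intro x
    rw [ZMod.val_mul, hper, chi_mul]
    have h1 : chi E (u : ZMod (k + 1)).val = -1 := by
      rw [hu, ZMod.coe_unitOfCoprime, ZMod.val_natCast, hper]
      unfold chi
      rw [if_pos hn0, hj]
    rw [h1]
    ring
  have h3 : ∑ x : ZMod (k + 1), chi E ((u : ZMod (k + 1)) * x).val
      = ∑ x : ZMod (k + 1), chi E x.val :=
    Equiv.sum_comp (Units.mulLeft u) (fun x : ZMod (k + 1) => chi E x.val)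
  have h4 : ∑ x : ZMod (k + 1), chi E ((u : ZMod (k + 1)) * x).val
      = - ∑ x : ZMod (k + 1), chi E x.val := by
    rw [← sum_neg_distrib]
    exact sum_congr rfl fun x _ => hf x
  have h5 : ∑ x : ZMod (k + 1), chi E x.val = ∑ n ∈ range (k + 1), chi E n :=
    sum_zmod k (chi E)
  rw [hk, ← h5]
  linarith

theorem chi_sum_le (E : ℤ) (hE : ¬ IsSquare E) (t : ℕ) :
    |∑ n ∈ range t, chi E n| ≤ 4 * |E| := by
  have hE0 : E ≠ 0 := by rintro rfl; exact hE ⟨0, by simp⟩
  have hEp : 0 < E.natAbs := Int.natAbs_pos.2 hE0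
  set M := 4 * E.natAbs with hM
  have hMp : 0 < M := by omega
  have hadd : ∀ n : ℕ, chi E (M + n) = chi E n := by
    intro n
    rw [← chi_mod E (M + n), ← hM, Nat.add_mod_left, hM, chi_mod]
  have hrec : ∀ k s : ℕ, ∑ n ∈ range (M * k + s), chi E n = ∑ n ∈ range s, chi E n := by
    intro k
    induction k with
    | zero => intro s; simp
    | succ k ih =>
      intro s
      have h1 : M * (k + 1) + s = M + (M * k + s) := by ring
      have h2 : ∑ n ∈ range (M * k + s), chi E (M + n) = ∑ n ∈ range (M * k + s), chi E n :=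
        sum_congr rfl fun n _ => hadd n
      rw [h1, sum_range_add, chi_period_sum E hE, h2, ih s, zero_add]
  have hs := hrec (t / M) (t % M)
  rw [Nat.div_add_mod] at hs
  rw [hs]
  calc |∑ n ∈ range (t % M), chi E n| ≤ ∑ n ∈ range (t % M), |chi E n| := abs_sum_le_sum_abs _ _
    _ ≤ ∑ n ∈ range (t % M), 1 := sum_le_sum fun n _ => chi_abs_le E n
    _ = ((t % M : ℕ) : ℤ) := by simp
    _ ≤ (M : ℤ) := by exact_mod_cast (Nat.mod_lt t hMp).le
    _ = 4 * |E| := by rw [hM]; push_cast; rfl

end Pool.Agent.SCY
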