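import Pool.Agent.SCT.SqField

/-!
SCY module SQF (MP_896029_ag; plan /team-store/scy_plan.md): the field of `sqField`, linear factors allowed.

Proof: the same as `sqField` (SCT/SqField.lean; copy it with its private lemmas); the hypothesis on the degree is
used there only for `F j ≠ 0` (which follows from irreducibility) and for the number of roots.
-/

set_option linter.dupNamespace false

namespace Pool.Agent.SCY

open Polynomial Finset Pool.Agent.Helper19.Sec NumberField Pool.Agent.SCT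

variable {ι : Type} [Fintype ι]

section aux

private lemma intCast_ne' (M : ℤ) (hM : M ≠ 0) (p : ℕ) (hp : M.natAbs < p) :
    (M : ZMod p) ≠ 0 := by
  intro h
  rw [ZMod.intCast_zmod_eq_zero_iff_dvd] at h
  have := Int.natAbs_dvd_natAbs.mpr h
  rw [Int.natAbs_natCast] at this
  exact absurd (Nat.le_of_dvd (Int.natAbs_pos.mpr hM) this) (by omega)

/-- roots of monic polynomials modulo `q` come from roots in `Ω` -/
private lemma root_lift {Ω A B : Type*} [Field Ω] [IsAlgClosed Ω] [CommRing A] [Field B]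
    (ι : A →+* Ω) (hι : Function.Injective ι) (G : ℤ[X]) (hG : G.Monic) (ℓ : Ω → A)
    (hℓ : ∀ t ∈ (G.map (Int.castRingHom Ω)).roots, ι (ℓ t) = t) (Ψ : A →+* B) (w : B)
    (hw : eval₂ (Int.castRingHom B) w G = 0) :
    ∃ t ∈ (G.map (Int.castRingHom Ω)).roots, Ψ (ℓ t) = w := by
  set T := (G.map (Int.castRingHom Ω)).roots with hT
  have h1 : G.map (Int.castRingHom Ω) = (T.map fun t => X - C t).prod :=
    (IsAlgClosed.splits _).eq_prod_roots_of_monic (hG.map _)
  have h2 : G.map (Int.castRingHom A) = (T.map fun t => X - C (ℓ t)).prod := by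
    apply Polynomial.map_injective ι hι
    rw [Polynomial.map_map, Polynomial.map_multiset_prod, Multiset.map_map,
      RingHom.ext_int (ι.comp (Int.castRingHom A)) (Int.castRingHom Ω), h1]
    congr 1
    refine Multiset.map_congr rfl fun t ht => ?_
    simp [hℓ t ht]
  have h3 : G.map (Int.castRingHom B) = (T.map fun t => X - C (Ψ (ℓ t))).prod := by
    have := congrArg (Polynomial.map Ψ) h2
    rw [Polynomial.map_map, Polynomial.map_multiset_prod, Multiset.map_map,
      RingHom.ext_int (Ψ.comp (Int.castRingHom A)) (Int.castRingHom B)] at this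
    rw [this]
    congr 1
    refine Multiset.map_congr rfl fun t ht => ?_
    simp
  rw [← eval_map, h3, eval_multiset_prod, Multiset.map_map, Multiset.prod_eq_zero_iff,
    Multiset.mem_map] at hw
  obtain ⟨t, ht, h⟩ := hw
  refine ⟨t, ht, ?_⟩
  simp only [Function.comp_apply, eval_sub, eval_X, eval_C] at h
  exact (sub_eq_zero.mp h).symm

/-- relations in `Ω` between integral elements hold modulo `q` -/
private lemma rel_hom {Ω A B : Type*} [Field Ω] [CommRing A] [Field B]
    (ι : A →+* Ω) (hι : Function.Injective ι) (P : ℤ[X]) (c : ℤ) (t s : A)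
    (h : ι s ^ 2 = (c : Ω) * eval₂ (Int.castRingHom Ω) (ι t) P) (Ψ : A →+* B) :
    Ψ s ^ 2 = (c : B) * eval₂ (Int.castRingHom B) (Ψ t) P := by
  have h1 : s ^ 2 = (c : A) * eval₂ (Int.castRingHom A) t P := by
    apply hι
    rw [map_pow, h, map_mul, map_intCast, hom_eval₂,
      RingHom.ext_int (ι.comp (Int.castRingHom A)) (Int.castRingHom Ω)]
  have h2 := congrArg Ψ h1
  rw [map_pow, map_mul, map_intCast, hom_eval₂,
      RingHom.ext_int (Ψ.comp (Int.castRingHom A)) (Int.castRingHom B)] at h2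
  exact h2

private lemma root_hom {Ω A B : Type*} [Field Ω] [CommRing A] [Field B]
    (ι : A →+* Ω) (hι : Function.Injective ι) (P : ℤ[X]) (t : A)
    (h : eval₂ (Int.castRingHom Ω) (ι t) P = 0) (Ψ : A →+* B) :
    eval₂ (Int.castRingHom B) (Ψ t) P = 0 := by
  have h1 : eval₂ (Int.castRingHom A) t P = 0 := by
    apply hι
    rw [map_zero, hom_eval₂,
      RingHom.ext_int (ι.comp (Int.castRingHom A)) (Int.castRingHom Ω), h]
  have h2 := congrArg Ψ h1
  rw [map_zero, hom_eval₂,
      RingHom.ext_int (Ψ.comp (Int.castRingHom A)) (Int.castRingHom B)] at h2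
  exact h2

/-- two distinct roots of an irreducible polynomial of degree at least two -/
private lemma two_roots {Ω : Type*} [Field Ω] [Algebra ℚ Ω] [IsAlgClosed Ω] (f : ℤ[X])
    (hf : Irreducible (f.map (Int.castRingHom ℚ))) (hd : 2 ≤ f.natDegree) :
    ∃ θ₁ θ₂ : Ω, θ₁ ≠ θ₂ ∧ aeval θ₁ f = 0 ∧ aeval θ₂ f = 0 := by
  classical
  have hΩ : ∀ θ : Ω, aeval θ (f.map (Int.castRingHom ℚ)) = aeval θ f := fun θ =>
    aeval_map_algebraMap ℚ θ f
  have hcard : Fintype.card ((f.map (Int.castRingHom ℚ)).rootSet Ω) =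
      (f.map (Int.castRingHom ℚ)).natDegree :=
    card_rootSet_eq_natDegree hf.separable (IsAlgClosed.splits _)
  have h2 : 1 < Fintype.card ((f.map (Int.castRingHom ℚ)).rootSet Ω) := by
    rw [hcard, natDegree_map_eq_of_injective (RingHom.injective_int _)]
    exact hd
  obtain ⟨x, y, hxy⟩ := Fintype.one_lt_card_iff.mp h2
  refine ⟨x, y, fun h => hxy (Subtype.ext h), ?_, ?_⟩
  · rw [← hΩ]; exact (mem_rootSet.mp x.2).2
  · rw [← hΩ]; exact (mem_rootSet.mp y.2).2

end aux

theorem sqFieldL (F : ι → ℤ[X]) (hirr : ∀ j, Irreducible ((F j).map (Int.castRingHom ℚ))) :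
    ∃ (L' : Type) (_ : Field L') (_ : NumberField L') (N : ℕ), ∀ q : ℕ, q.Prime → N ≤ q →
      rK L' q ≠ 0 → ∀ i, (2 ≤ (F i).natDegree → 2 ≤ nroots (F i) q) ∧ ∀ t : ZMod q,
        ((F i).map (Int.castRingHom (ZMod q))).eval t = 0 → ∀ j, j ≠ i →
          IsSquare (((F j).leadingCoeff : ZMod q) *
            ((F j).map (Int.castRingHom (ZMod q))).eval t) := by
  classical
  have hdeg : ∀ j, 1 ≤ (F j).natDegree := fun j => by
    have h1 := (hirr j).natDegree_pos
    have h2 := natDegree_map_le (f := Int.castRingHom ℚ) (p := F j)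
    omega
  have hF0 : ∀ j, F j ≠ 0 := fun j h => by
    have := hdeg j
    rw [h] at this
    simp at this
  have ha0 : ∀ j, (F j).leadingCoeff ≠ 0 := fun j => leadingCoeff_ne_zero.mpr (hF0 j)
  let Ω : Type := AlgebraicClosure ℚ
  have : CharZero Ω := algebraRat.charZero Ω
  have hGm : ∀ i, (F i).integralNormalization.Monic := fun i =>
    monic_integralNormalization (hF0 i)
  let T : Finset Ω := univ.biUnion fun i =>
    (((F i).integralNormalization).map (Int.castRingHom Ω)).roots.toFinset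
  have hTmem : ∀ i, ∀ t ∈ (((F i).integralNormalization).map (Int.castRingHom Ω)).roots,
      t ∈ T := fun i t ht => Finset.mem_biUnion.mpr ⟨i, Finset.mem_univ _,
        Multiset.mem_toFinset.mpr ht⟩
  have hTint : ∀ t ∈ T, IsIntegral ℤ t := by
    intro t ht
    obtain ⟨i, -, hi⟩ := Finset.mem_biUnion.mp ht
    rw [Multiset.mem_toFinset, mem_roots ((hGm i).map _).ne_zero, IsRoot.def, eval_map] at hi
    exact ⟨_, hGm i, hi⟩
  -- square roots
  have hσ : ∀ i j : ι, ∀ t : Ω, ∃ s : Ω, s ^ 2 =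
      (((F j).leadingCoeff * (F i).leadingCoeff ^ (F j).natDegree : ℤ) : Ω) *
        eval₂ (Int.castRingHom Ω) t (scaleRoots (F j) (F i).leadingCoeff) := fun i j t =>
    IsAlgClosed.exists_pow_nat_eq _ two_pos
  choose σ hσ using hσ
  have hσint : ∀ i j : ι, ∀ t ∈ T, IsIntegral ℤ (σ i j t) := by
    intro i j t ht
    refine IsIntegral.of_pow two_pos ?_
    rw [hσ]
    refine IsIntegral.mul isIntegral_algebraMap ?_
    have h1 : aeval t (scaleRoots (F j) (F i).leadingCoeff) ∈ Algebra.adjoin ℤ {t} :=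
      aeval_mem_adjoin_singleton ℤ t
    exact adjoin_le_integralClosure (hTint t ht) h1
  let S : Finset Ω := T ∪ (univ ×ˢ univ ×ˢ T).image (fun p : ι × ι × Ω => σ p.1 p.2.1 p.2.2)
  have hTS : ∀ t ∈ T, t ∈ S := fun t ht => Finset.mem_union_left _ ht
  have hσS : ∀ i j : ι, ∀ t ∈ T, σ i j t ∈ S := fun i j t ht =>
    Finset.mem_union_right _ (Finset.mem_image.mpr ⟨(i, j, t), by simp [ht], rfl⟩)
  have hSint : ∀ x ∈ S, IsIntegral ℤ x := by
    intro x hx
    rcases Finset.mem_union.mp hx with h | h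
    · exact hTint x h
    · obtain ⟨⟨i, j, t⟩, hp, rfl⟩ := Finset.mem_image.mp h
      simp only [Finset.mem_product, Finset.mem_univ, true_and] at hp
      exact hσint i j t hp
  let L := IntermediateField.adjoin ℚ (S : Set Ω)
  have : FiniteDimensional ℚ L := IntermediateField.finiteDimensional_adjoin
    (fun x hx => (hSint x hx).tower_top)
  have : CharZero L := algebraRat.charZero L
  have : NumberField L := ⟨⟩
  let ι' : 𝓞 L →+* Ω := (algebraMap L Ω).comp (algebraMap (𝓞 L) L)
  have hι' : Function.Injective ι' :=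
    (algebraMap L Ω).injective.comp (FaithfulSMul.algebraMap_injective (𝓞 L) L)
  have hlift : ∀ x : Ω, ∃ y : 𝓞 L, x ∈ S → ι' y = x := by
    intro x
    by_cases hx : x ∈ S
    · have hxL : x ∈ L := IntermediateField.subset_adjoin _ _ hx
      have h1 : IsIntegral ℤ (⟨x, hxL⟩ : L) :=
        (isIntegral_algebraMap_iff (A := L) (B := Ω) (algebraMap L Ω).injective).mp
          (hSint x hx)
      exact ⟨⟨⟨x, hxL⟩, h1⟩, fun _ => rfl⟩
    · exact ⟨0, fun h => absurd h hx⟩
  choose ℓ hℓ using hlift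
  -- two roots
  have htwo : ∀ i : ι, ∃ D : ℤ, D ≠ 0 ∧ (2 ≤ (F i).natDegree → ∃ t₁ ∈ S, ∃ t₂ ∈ S, ∃ u : 𝓞 L,
      (ℓ t₁ - ℓ t₂) * u = (D : 𝓞 L) ∧
      eval₂ (Int.castRingHom Ω) t₁ (F i).integralNormalization = 0 ∧
      eval₂ (Int.castRingHom Ω) t₂ (F i).integralNormalization = 0) := by
    intro i
    by_cases hd : 2 ≤ (F i).natDegree
    swap
    · exact ⟨1, one_ne_zero, fun h => absurd h hd⟩
    obtain ⟨θ₁, θ₂, hne, h₁, h₂⟩ := two_roots (Ω := Ω) (F i) (hirr i) hd
    have hz : ∀ θ : Ω, aeval θ (F i) = 0 → eval₂ (Int.castRingHom Ω)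
        (algebraMap ℤ Ω (F i).leadingCoeff * θ) (F i).integralNormalization = 0 := fun θ hθ =>
      integralNormalization_aeval_eq_zero hθ (fun x hx => by simpa using hx)
    have hS' : ∀ θ : Ω, aeval θ (F i) = 0 → algebraMap ℤ Ω (F i).leadingCoeff * θ ∈ S := by
      intro θ hθ
      apply hTS
      apply hTmem i
      rw [mem_roots ((hGm i).map _).ne_zero, IsRoot.def, eval_map]
      exact hz θ hθ
    have hta : algebraMap ℤ Ω (F i).leadingCoeff ≠ 0 := by
      rw [Ne, FaithfulSMul.algebraMap_eq_zero_iff]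
      exact ha0 i
    have htne : ℓ (algebraMap ℤ Ω (F i).leadingCoeff * θ₁) -
        ℓ (algebraMap ℤ Ω (F i).leadingCoeff * θ₂) ≠ 0 := by
      intro h
      have h3 := congrArg ι' (sub_eq_zero.mp h)
      rw [hℓ _ (hS' _ h₁), hℓ _ (hS' _ h₂)] at h3
      exact hne (mul_left_cancel₀ hta h3)
    obtain ⟨D, hD0, u, hu⟩ : ∃ D : ℤ, D ≠ 0 ∧ ∃ u : 𝓞 L,
        (ℓ (algebraMap ℤ Ω (F i).leadingCoeff * θ₁) -
        ℓ (algebraMap ℤ Ω (F i).leadingCoeff * θ₂)) * u = (D : 𝓞 L) := by
      have h := Ideal.comap_ne_bot_of_integral_mem (R := ℤ) (I := Ideal.span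
        {ℓ (algebraMap ℤ Ω (F i).leadingCoeff * θ₁) -
        ℓ (algebraMap ℤ Ω (F i).leadingCoeff * θ₂)}) htne
        (Ideal.mem_span_singleton_self _) (Algebra.IsIntegral.isIntegral _)
      obtain ⟨D, hD, hD0⟩ := Submodule.exists_mem_ne_zero_of_ne_bot h
      rw [Ideal.mem_comap, Ideal.mem_span_singleton] at hD
      obtain ⟨u, hu⟩ := hD
      exact ⟨D, hD0, u, by rw [← hu]; simp⟩
    exact ⟨D, hD0, fun _ => ⟨_, hS' _ h₁, _, hS' _ h₂, u, hu, hz _ h₁, hz _ h₂⟩⟩
  choose D hD0 hD using htwo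
  refine ⟨L, inferInstance, inferInstance,
    1 + ∑ i, ((F i).leadingCoeff.natAbs + (D i).natAbs), fun q hq hqN hr i => ?_⟩
  have : Fact q.Prime := ⟨hq⟩
  have hle : ∀ i, (F i).leadingCoeff.natAbs + (D i).natAbs < q := by
    intro i
    have := Finset.single_le_sum (f := fun i => (F i).leadingCoeff.natAbs + (D i).natAbs)
      (fun _ _ => Nat.zero_le _) (Finset.mem_univ i)
    omega
  have haq : ∀ i, ((F i).leadingCoeff : ZMod q) ≠ 0 := fun i =>
    intCast_ne' _ (ha0 i) q (by have := hle i; omega)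
  have hDq : ∀ i, ((D i : ℤ) : ZMod q) ≠ 0 := fun i =>
    intCast_ne' _ (hD0 i) q (by have := hle i; omega)
  obtain ⟨Ψ⟩ : Nonempty (𝓞 L →+* ZMod q) := by
    rw [rK] at hr
    exact (Nat.card_ne_zero.mp hr).1
  have hnorm : ∀ i, ∀ w : ZMod q, eval₂ (Int.castRingHom (ZMod q))
      (((F i).leadingCoeff : ZMod q) * w) (F i).integralNormalization =
        ((F i).leadingCoeff : ZMod q) ^ ((F i).natDegree - 1) *
          eval₂ (Int.castRingHom (ZMod q)) w (F i) := by
    intro i w
    have := integralNormalization_eval₂_leadingCoeff_mul (by have := hdeg i; omega)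
      (Int.castRingHom (ZMod q)) w (p := F i)
    rw [eq_intCast] at this
    exact this
  constructor
  · -- two roots
    intro hd
    obtain ⟨t₁, ht₁, t₂, ht₂, u, hu, hr₁, hr₂⟩ := hD i hd
    have hroot : ∀ t ∈ S, eval₂ (Int.castRingHom Ω) t (F i).integralNormalization = 0 →
        ((F i).map (Int.castRingHom (ZMod q))).eval
          (Ψ (ℓ t) / ((F i).leadingCoeff : ZMod q)) = 0 := by
      intro t ht h
      have h1 : eval₂ (Int.castRingHom (ZMod q)) (Ψ (ℓ t)) (F i).integralNormalization = 0 :=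
        root_hom ι' hι' _ (ℓ t) (by rw [hℓ t ht]; exact h) Ψ
      have h2 := hnorm i (Ψ (ℓ t) / ((F i).leadingCoeff : ZMod q))
      rw [mul_div_cancel₀ _ (haq i), h1] at h2
      rw [eval_map]
      exact (mul_eq_zero.mp h2.symm).resolve_left (pow_ne_zero _ (haq i))
    have hne : Ψ (ℓ t₁) / ((F i).leadingCoeff : ZMod q) ≠
        Ψ (ℓ t₂) / ((F i).leadingCoeff : ZMod q) := by
      intro h
      rw [div_left_inj' (haq i)] at h
      apply hDq i
      have h3 := congrArg Ψ hu
      rw [map_mul, map_sub, h, sub_self, zero_mul, map_intCast] at h3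
      exact h3.symm
    rw [nroots]
    have : Nat.card (Fin 2) ≤ Nat.card {z : ZMod q //
        ((F i).map (Int.castRingHom (ZMod q))).eval z = 0} := by
      refine Nat.card_le_card_of_injective
        (fun k : Fin 2 => if k = 0 then ⟨_, hroot _ ht₁ hr₁⟩ else
          ⟨_, hroot _ ht₂ hr₂⟩) ?_
      intro a b hab
      fin_cases a <;> fin_cases b
      · rfl
      · exact absurd (congrArg Subtype.val hab) hne
      · exact absurd (congrArg Subtype.val hab).symm hne
      · rfl
    simpa using this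
  · intro z hz j _
    have hz' : eval₂ (Int.castRingHom (ZMod q)) (((F i).leadingCoeff : ZMod q) * z)
        (F i).integralNormalization = 0 := by
      rw [hnorm i z, ← eval_map, hz, mul_zero]
    obtain ⟨t, ht, htz⟩ := root_lift ι' hι' (F i).integralNormalization (hGm i) ℓ
      (fun t ht => hℓ t (hTS t (hTmem i t ht))) Ψ _ hz'
    have htT := hTmem i t ht
    have h1 := rel_hom ι' hι' (scaleRoots (F j) (F i).leadingCoeff)
      ((F j).leadingCoeff * (F i).leadingCoeff ^ (F j).natDegree) (ℓ t) (ℓ (σ i j t))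
      (by rw [hℓ _ (hTS t htT), hℓ _ (hσS i j t htT)]; exact hσ i j t) Ψ
    rw [htz] at h1
    have h2 := scaleRoots_eval₂_mul (p := F j) (Int.castRingHom (ZMod q)) z (F i).leadingCoeff
    rw [eq_intCast] at h2
    rw [h2] at h1
    refine ⟨Ψ (ℓ (σ i j t)) / ((F i).leadingCoeff : ZMod q) ^ (F j).natDegree, ?_⟩
    have h3 : ((F i).leadingCoeff : ZMod q) ^ (F j).natDegree ≠ 0 := pow_ne_zero _ (haq i)
    rw [div_mul_div_comm, ← sq, ← sq, h1, eval_map]
    push_cast
    field_simp

end Pool.Agent.SCY
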